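import Mathlib

/-!
# Counting vertices and edges of paths in Schreier graphs
-/

set_option autoImplicit false

namespace Pool.Agent.Helper8.GraphCount

section Paths

variable {m : ℕ} {X : Type} [MulAction (FreeGroup (Fin m)) X]

/-- Sum of a cochain along the path of a word. -/
def P (g : Fin m → X → ℚ) (v : X) : List (Fin m × Bool) → ℚ
  | [] => 0
  | (i, true) :: L => g i (FreeGroup.mk L • v) + P g v L
  | (i, false) :: L => - g i ((FreeGroup.of i)⁻¹ • FreeGroup.mk L • v) + P g v L

lemma mk_cons_true (i : Fin m) (L : List (Fin m × Bool)) (v : X) :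
    FreeGroup.mk ((i, true) :: L) • v = FreeGroup.of i • FreeGroup.mk L • v := by
  rw [smul_smul, FreeGroup.of, FreeGroup.mul_mk]; rfl

lemma mk_cons_false (i : Fin m) (L : List (Fin m × Bool)) (v : X) :
    FreeGroup.mk ((i, false) :: L) • v = (FreeGroup.of i)⁻¹ • FreeGroup.mk L • v := by
  rw [smul_smul, FreeGroup.of, FreeGroup.inv_mk, FreeGroup.mul_mk]; rfl

lemma mk_cons_true' (i : Fin m) (L : List (Fin m × Bool)) :
    FreeGroup.mk ((i, true) :: L) = FreeGroup.of i * FreeGroup.mk L := by
  rw [FreeGroup.of, FreeGroup.mul_mk]; rfl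

lemma mk_cons_false' (i : Fin m) (L : List (Fin m × Bool)) :
    FreeGroup.mk ((i, false) :: L) = (FreeGroup.of i)⁻¹ * FreeGroup.mk L := by
  rw [FreeGroup.of, FreeGroup.inv_mk, FreeGroup.mul_mk]; rfl

lemma P_add (g g' : Fin m → X → ℚ) (v : X) (L : List (Fin m × Bool)) :
    P (fun i x => g i x + g' i x) v L = P g v L + P g' v L := by
  induction L with
  | nil => simp [P]
  | cons l L ih =>
    obtain ⟨i, b⟩ := l
    cases b <;> simp only [P, ih] <;> ring

lemma P_smul (c : ℚ) (g : Fin m → X → ℚ) (v : X) (L : List (Fin m × Bool)) :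
    P (fun i x => c * g i x) v L = c * P g v L := by
  induction L with
  | nil => simp [P]
  | cons l L ih =>
    obtain ⟨i, b⟩ := l
    cases b <;> simp only [P, ih] <;> ring

lemma P_sum {k : ℕ} (g : Fin k → Fin m → X → ℚ) (v : X) (L : List (Fin m × Bool)) :
    P (fun i x => ∑ t, g t i x) v L = ∑ t, P (g t) v L := by
  induction L with
  | nil => simp [P]
  | cons l L ih =>
    obtain ⟨i, b⟩ := l
    cases b <;> simp only [P, ih, Finset.sum_add_distrib, Finset.sum_neg_distrib]

lemma P_cobound (h : X → ℚ) (v : X) (L : List (Fin m × Bool)) :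
    P (fun i x => h (FreeGroup.of i • x) - h x) v L = h (FreeGroup.mk L • v) - h v := by
  induction L with
  | nil =>
    have : (FreeGroup.mk [] : FreeGroup (Fin m)) = 1 := FreeGroup.one_eq_mk.symm
    simp [P, this]
  | cons l L ih =>
    obtain ⟨i, b⟩ := l
    cases b
    · rw [P, ih, mk_cons_false, smul_inv_smul]; ring
    · rw [P, ih, mk_cons_true]; ring

/-- The edge traversed by the first letter of a word. -/
def edgeOf (v : X) : List (Fin m × Bool) → List (Fin m × X)
  | [] => []
  | (i, true) :: L => (i, FreeGroup.mk L • v) :: edgeOf v L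
  | (i, false) :: L => (i, (FreeGroup.of i)⁻¹ • FreeGroup.mk L • v) :: edgeOf v L

/-- The vertices of the path of a word. -/
def vertOf (v : X) : List (Fin m × Bool) → List X
  | [] => [v]
  | l :: L => (FreeGroup.mk (l :: L) • v) :: vertOf v L

lemma end_mem_vertOf (v : X) (L : List (Fin m × Bool)) :
    FreeGroup.mk L • v ∈ vertOf v L := by
  cases L with
  | nil =>
    have : (FreeGroup.mk [] : FreeGroup (Fin m)) = 1 := FreeGroup.one_eq_mk.symm
    simp [vertOf, this]
  | cons l L => simp [vertOf]

lemma start_mem_vertOf (v : X) (L : List (Fin m × Bool)) : v ∈ vertOf v L := by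
  induction L with
  | nil => simp [vertOf]
  | cons l L ih => simp [vertOf, ih]

lemma edge_spec (v : X) (L : List (Fin m × Bool)) :
    ∀ e ∈ edgeOf v L, e.2 ∈ vertOf v L ∧ FreeGroup.of e.1 • e.2 ∈ vertOf v L := by
  induction L with
  | nil => simp [edgeOf]
  | cons l L ih =>
    obtain ⟨i, b⟩ := l
    intro e he
    cases b
    · rw [edgeOf, List.mem_cons] at he
      rcases he with rfl | he
      · rw [vertOf, mk_cons_false]
        refine ⟨List.mem_cons_self, ?_⟩
        rw [smul_inv_smul]
        exact List.mem_cons_of_mem _ (end_mem_vertOf v L)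
      · exact ⟨List.mem_cons_of_mem _ (ih e he).1, List.mem_cons_of_mem _ (ih e he).2⟩
    · rw [edgeOf, List.mem_cons] at he
      rcases he with rfl | he
      · rw [vertOf, mk_cons_true]
        exact ⟨List.mem_cons_of_mem _ (end_mem_vertOf v L), List.mem_cons_self⟩
      · exact ⟨List.mem_cons_of_mem _ (ih e he).1, List.mem_cons_of_mem _ (ih e he).2⟩

lemma P_eq_zero (g : Fin m → X → ℚ) (v : X) (L : List (Fin m × Bool))
    (h : ∀ e ∈ edgeOf v L, g e.1 e.2 = 0) : P g v L = 0 := by
  induction L with
  | nil => rfl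
  | cons l L ih =>
    obtain ⟨i, b⟩ := l
    cases b
    · rw [edgeOf] at h
      rw [P, ih (fun e he => h e (List.mem_cons_of_mem _ he)), h _ List.mem_cons_self]
      simp
    · rw [edgeOf] at h
      rw [P, ih (fun e he => h e (List.mem_cons_of_mem _ he)), h _ List.mem_cons_self]
      simp

/-- A function vanishing at `v` and constant along the edges of the path vanishes on the path. -/
lemma zero_on_verts (h : X → ℚ) (v : X) (hv : h v = 0) (L : List (Fin m × Bool))
    (he : ∀ e ∈ edgeOf v L, h (FreeGroup.of e.1 • e.2) - h e.2 = 0) :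
    ∀ x ∈ vertOf v L, h x = 0 := by
  induction L with
  | nil => simpa [vertOf] using hv
  | cons l L ih =>
    intro x hx
    have he' : ∀ e ∈ edgeOf v L, h (FreeGroup.of e.1 • e.2) - h e.2 = 0 := by
      intro e hem
      apply he
      obtain ⟨i, b⟩ := l
      cases b <;> rw [edgeOf] <;> exact List.mem_cons_of_mem _ hem
    rw [vertOf, List.mem_cons] at hx
    rcases hx with rfl | hx
    · have h1 := P_cobound h v (l :: L)
      have h2 := P_eq_zero (fun i x => h (FreeGroup.of i • x) - h x) v (l :: L) he
      rw [h2, hv] at h1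
      linarith
    · exact ih he' x hx

end Paths

/-- (L-Rank) -/
theorem graphCount {m : ℕ} {X : Type} [DecidableEq X] [MulAction (FreeGroup (Fin m)) X] (v : X)
    (k : ℕ) (γ : Fin k → MulAction.stabilizer (FreeGroup (Fin m)) v)
    (χ : Fin k → (MulAction.stabilizer (FreeGroup (Fin m)) v →* Multiplicative ℤ))
    (hχ : ∀ i j, χ i (γ j) = if i = j then Multiplicative.ofAdd 1 else 1) :
    ∃ (V : Finset X) (E : Finset (Fin m × X)),
      (∀ e ∈ E, e.2 ∈ V ∧ FreeGroup.of e.1 • e.2 ∈ V) ∧ V.card + k ≤ E.card + 1 := by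
  classical
  let W : Fin k → List (Fin m × Bool) := fun j => (γ j : FreeGroup (Fin m)).toWord
  let V : Finset X := insert v (Finset.univ.biUnion fun j => (vertOf v (W j)).toFinset)
  let E : Finset (Fin m × X) := Finset.univ.biUnion fun j => (edgeOf v (W j)).toFinset
  have hVm : ∀ j, ∀ x ∈ vertOf v (W j), x ∈ V := by
    intro j x hx
    exact Finset.mem_insert_of_mem (Finset.mem_biUnion.2 ⟨j, Finset.mem_univ _, by simpa using hx⟩)
  have hEm : ∀ j, ∀ e ∈ edgeOf v (W j), e ∈ E := by
    intro j e he
    exact Finset.mem_biUnion.2 ⟨j, Finset.mem_univ _, by simpa using he⟩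
  refine ⟨V, E, ?_, ?_⟩
  · intro e he
    obtain ⟨j, -, hj⟩ := Finset.mem_biUnion.1 he
    have hj' : e ∈ edgeOf v (W j) := by simpa using hj
    have := edge_spec v (W j) e hj'
    exact ⟨hVm j _ this.1, hVm j _ this.2⟩
  -- section
  let σ : X → FreeGroup (Fin m) := fun x =>
    if x = v then 1 else if h : ∃ g : FreeGroup (Fin m), g • v = x then h.choose else 1
  have hσv : σ v = 1 := by simp [σ]
  have hσ : ∀ g : FreeGroup (Fin m), σ (g • v) • v = g • v := by
    intro g
    by_cases hg : g • v = v
    · rw [hg, hσv, one_smul]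
    · have hex : ∃ g' : FreeGroup (Fin m), g' • v = g • v := ⟨g, rfl⟩
      have : σ (g • v) = hex.choose := by
        simp only [σ, if_neg hg]
        exact dif_pos hex
      rw [this]
      exact hex.choose_spec
  have hst : ∀ g c : FreeGroup (Fin m),
      (σ (c • g • v))⁻¹ * c * σ (g • v) ∈ MulAction.stabilizer (FreeGroup (Fin m)) v := by
    intro g c
    rw [MulAction.mem_stabilizer_iff, mul_smul, mul_smul, hσ g, smul_smul c g v, inv_smul_eq_iff,
      hσ (c * g)]
  -- cochains
  let f : Fin k → Fin m → X → ℚ := fun t i x =>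
    if h : (σ (FreeGroup.of i • x))⁻¹ * FreeGroup.of i * σ x ∈
        MulAction.stabilizer (FreeGroup (Fin m)) v then
      ((Multiplicative.toAdd (χ t ⟨_, h⟩) : ℤ) : ℚ) else 0
  have hf : ∀ t (L : List (Fin m × Bool)),
      P (f t) v L = ((Multiplicative.toAdd (χ t ⟨(σ (FreeGroup.mk L • v))⁻¹ * FreeGroup.mk L, by
        have := hst 1 (FreeGroup.mk L)
        rwa [one_smul, hσv, mul_one] at this⟩) : ℤ) : ℚ) := by
    intro t L
    induction L with
    | nil =>
      have h1 : (FreeGroup.mk [] : FreeGroup (Fin m)) = 1 := FreeGroup.one_eq_mk.symm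
      have h2 : ∀ h, (⟨(σ ((FreeGroup.mk [] : FreeGroup (Fin m)) • v))⁻¹ *
          (FreeGroup.mk [] : FreeGroup (Fin m)), h⟩ :
          MulAction.stabilizer (FreeGroup (Fin m)) v) = 1 := by
        intro h
        apply Subtype.ext
        simp [h1, hσv]
      rw [h2]
      simp [P]
    | cons l L ih =>
      obtain ⟨i, b⟩ := l
      cases b
      · -- inverse letter
        rw [P, ih]
        have hmem := hst ((FreeGroup.of i)⁻¹ * FreeGroup.mk L) (FreeGroup.of i)
        rw [mul_smul] at hmem
        have hfe : f t i ((FreeGroup.of i)⁻¹ • FreeGroup.mk L • v) =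
            ((Multiplicative.toAdd (χ t ⟨_, hmem⟩) : ℤ) : ℚ) := dif_pos hmem
        rw [hfe, ← Int.cast_neg, ← Int.cast_add, ← toAdd_inv, ← toAdd_mul, ← map_inv, ← map_mul]
        congr 4
        apply Subtype.ext
        simp only [Subgroup.coe_mul, Subgroup.coe_inv, smul_inv_smul, mk_cons_false', mul_smul]
        group
      · rw [P, ih]
        have hmem := hst (FreeGroup.mk L) (FreeGroup.of i)
        have hfe : f t i (FreeGroup.mk L • v) =
            ((Multiplicative.toAdd (χ t ⟨_, hmem⟩) : ℤ) : ℚ) := dif_pos hmem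
        rw [hfe, ← Int.cast_add, ← toAdd_mul, ← map_mul]
        congr 4
        apply Subtype.ext
        simp only [Subgroup.coe_mul, mk_cons_true', mul_smul]
        group
  have hfW : ∀ t j, P (f t) v (W j) = if t = j then 1 else 0 := by
    intro t j
    rw [hf t (W j)]
    have hW : FreeGroup.mk (W j) = (γ j : FreeGroup (Fin m)) := FreeGroup.mk_toWord
    have hγ : (γ j : FreeGroup (Fin m)) • v = v := (γ j).2
    have : ∀ h, (⟨(σ (FreeGroup.mk (W j) • v))⁻¹ * FreeGroup.mk (W j), h⟩ :
        MulAction.stabilizer (FreeGroup (Fin m)) v) = γ j := by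
      intro h
      apply Subtype.ext
      simp [hW, hγ, hσv]
    rw [this, hχ]
    split_ifs <;> simp
  -- the linear map
  let Ψ : (V → ℚ) × (Fin k → ℚ) →ₗ[ℚ] (E → ℚ) × ℚ :=
    { toFun := fun hc => (fun e =>
          ((if h : FreeGroup.of e.1.1 • e.1.2 ∈ V then hc.1 ⟨_, h⟩ else 0) -
            (if h : e.1.2 ∈ V then hc.1 ⟨_, h⟩ else 0)) +
          ∑ t, hc.2 t * f t e.1.1 e.1.2, hc.1 ⟨v, Finset.mem_insert_self _ _⟩)
      map_add' := by
        intro a b
        ext e
        · simp only [Prod.fst_add, Prod.snd_add, Pi.add_apply, add_mul, Finset.sum_add_distrib]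
          split_ifs <;> ring
        · simp
      map_smul' := by
        intro a b
        ext e
        · simp only [Prod.smul_fst, Prod.smul_snd, Pi.smul_apply, smul_eq_mul, RingHom.id_apply,
            mul_add, Finset.mul_sum, mul_assoc]
          split_ifs <;> ring
        · simp }
  have hΨ : Function.Injective Ψ := by
    rw [← LinearMap.ker_eq_bot, LinearMap.ker_eq_bot']
    rintro ⟨h, c⟩ h0
    let h' : X → ℚ := fun x => if hx : x ∈ V then h ⟨x, hx⟩ else 0
    have hE : ∀ e ∈ E, (h' (FreeGroup.of e.1 • e.2) - h' e.2) + ∑ t, c t * f t e.1 e.2 = 0 := by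
      intro e he
      have := congrFun (congrArg Prod.fst h0) ⟨e, he⟩
      exact this
    have hv0 : h' v = 0 := by
      have h1 : h ⟨v, Finset.mem_insert_self _ _⟩ = 0 := congrArg Prod.snd h0
      have h2 : h' v = h ⟨v, Finset.mem_insert_self _ _⟩ := dif_pos _
      rw [h2, h1]
    have hc : ∀ j, c j = 0 := by
      intro j
      have h1 : P (fun i x => (h' (FreeGroup.of i • x) - h' x) + ∑ t, c t * f t i x) v (W j) = 0 :=
        P_eq_zero _ v (W j) (fun e he => hE e (hEm j e he))
      have h2 : P (fun i x => ∑ t, c t * f t i x) v (W j) = ∑ t, P (fun i x => c t * f t i x) v (W j) :=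
        P_sum (fun t i x => c t * f t i x) v (W j)
      rw [P_add, P_cobound, h2] at h1
      have hW : FreeGroup.mk (W j) = (γ j : FreeGroup (Fin m)) := FreeGroup.mk_toWord
      have hγ : (γ j : FreeGroup (Fin m)) • v = v := (γ j).2
      rw [hW, hγ, sub_self, zero_add] at h1
      simp only [P_smul, hfW] at h1
      simpa using h1
    have hc' : c = 0 := funext hc
    subst hc'
    have hx0 : ∀ x ∈ V, h' x = 0 := by
      intro x hx
      rcases Finset.mem_insert.1 hx with rfl | hx
      · exact hv0
      · obtain ⟨j, -, hj⟩ := Finset.mem_biUnion.1 hx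
        refine zero_on_verts h' v hv0 (W j) (fun e he => ?_) x (by simpa using hj)
        have := hE e (hEm j e he)
        simpa using this
    have hh : h = 0 := by
      funext x
      have h1 : h' x.1 = h x := dif_pos x.2
      rw [← h1]
      exact hx0 x.1 x.2
    rw [hh]
    rfl
  have := LinearMap.finrank_le_finrank_of_injective hΨ
  simpa using this

/-- (L-Lasso) -/
theorem lasso {m : ℕ} (c : FreeGroup (Fin m)) (hc : c ≠ 1) :
    ∃ P : Finset (FreeGroup (Fin m)), ∀ (X : Type) [MulAction (FreeGroup (Fin m)) X] (v : X),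
      c • v = v → ∃ (V : Finset X) (E : Finset (Fin m × X)), v ∈ V ∧
        (∀ x ∈ V, ∃ p ∈ P, x = p • v) ∧
        (∀ e ∈ E, e.2 ∈ V ∧ FreeGroup.of e.1 • e.2 ∈ V) ∧ V.card ≤ E.card := by
  classical
  set L := c.toWord with hLdef
  have hred : FreeGroup.IsReduced L := FreeGroup.isReduced_toWord
  have hne : L ≠ [] := fun h => hc (FreeGroup.toWord_eq_nil_iff.1 h)
  have hN : 0 < L.length := List.length_pos_iff.2 hne
  have hmk : c = FreeGroup.mk L := FreeGroup.mk_toWord.symm
  have hone : (FreeGroup.mk [] : FreeGroup (Fin m)) = 1 := FreeGroup.one_eq_mk.symm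
  refine ⟨(Finset.range (L.length + 1)).image fun s => FreeGroup.mk (L.drop s), ?_⟩
  intro X _ v hcv
  let u : ℕ → X := fun s => FreeGroup.mk (L.drop s) • v
  have hu0 : u 0 = v := by simp only [u, List.drop_zero, ← hmk, hcv]
  have huN : u L.length = v := by simp only [u, List.drop_length, hone, one_smul]
  -- the largest `s < N` such that `u s` is one of the later vertices
  let T : Finset ℕ := (Finset.range L.length).filter fun s => ∃ r, s < r ∧ r ≤ L.length ∧ u s = u r
  have hT : T.Nonempty := ⟨0, by
    simp only [T, Finset.mem_filter, Finset.mem_range]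
    exact ⟨hN, L.length, hN, le_rfl, by rw [hu0, huN]⟩⟩
  set s := T.max' hT with hs
  have hsT : s ∈ T := T.max'_mem hT
  obtain ⟨hsN, r₀, hsr₀, hr₀N, hur₀⟩ : s < L.length ∧ ∃ r, s < r ∧ r ≤ L.length ∧ u s = u r := by
    simpa [T] using hsT
  have hdist : ∀ a b, s < a → a ≤ L.length → s < b → b ≤ L.length → u a = u b → a = b := by
    have aux : ∀ a b, s < a → a < b → b ≤ L.length → u a ≠ u b := by
      intro a b h1 h2 h3 h4
      have : a ∈ T := by
        simp only [T, Finset.mem_filter, Finset.mem_range]
        exact ⟨by omega, b, h2, h3, h4⟩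
      have := T.le_max' a this
      omega
    intro a b h1 h2 h3 h4 h5
    rcases lt_trichotomy a b with h | h | h
    · exact absurd h5 (aux a b h1 h h4)
    · exact h
    · exact absurd h5.symm (aux b a h3 h h2)
  -- edges
  have hlen : ∀ r, r ∈ Finset.Ico s L.length → r < L.length := fun r hr => (Finset.mem_Ico.1 hr).2
  let ed : ℕ → Fin m × X := fun r =>
    if h : r < L.length then
      (if (L[r]).2 = true then ((L[r]).1, u (r + 1)) else ((L[r]).1, u r))
    else (((L[0]'hN)).1, v)
  have hstep_true : ∀ r (h : r < L.length), (L[r]).2 = true →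
      FreeGroup.of (L[r]).1 • u (r + 1) = u r := by
    intro r h hb
    have h1 : L.drop r = L[r] :: L.drop (r + 1) := List.drop_eq_getElem_cons h
    have h2 : L[r] = ((L[r]).1, true) := Prod.ext rfl hb
    simp only [u]
    rw [h1]
    nth_rewrite 2 [h2]
    rw [mk_cons_true]
  have hstep_false : ∀ r (h : r < L.length), (L[r]).2 = false →
      FreeGroup.of (L[r]).1 • u r = u (r + 1) := by
    intro r h hb
    have h1 : L.drop r = L[r] :: L.drop (r + 1) := List.drop_eq_getElem_cons h
    have h2 : L[r] = ((L[r]).1, false) := Prod.ext rfl hb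
    simp only [u]
    rw [h1]
    nth_rewrite 2 [h2]
    rw [mk_cons_false, smul_inv_smul]
  refine ⟨(Finset.Ioc s L.length).image u, (Finset.Ico s L.length).image ed, ?_, ?_, ?_, ?_⟩
  · exact Finset.mem_image.2 ⟨L.length, Finset.mem_Ioc.2 ⟨hsN, le_rfl⟩, huN⟩
  · intro x hx
    obtain ⟨r, hr, rfl⟩ := Finset.mem_image.1 hx
    exact ⟨_, Finset.mem_image.2 ⟨r, Finset.mem_range.2 (by
      have := (Finset.mem_Ioc.1 hr).2; omega), rfl⟩, rfl⟩
  · intro e he
    obtain ⟨r, hr, rfl⟩ := Finset.mem_image.1 he
    obtain ⟨hr1, hr2⟩ := Finset.mem_Ico.1 hr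
    have hur : u r ∈ (Finset.Ioc s L.length).image u := by
      by_cases h : r = s
      · subst h
        exact Finset.mem_image.2 ⟨r₀, Finset.mem_Ioc.2 ⟨hsr₀, hr₀N⟩, hur₀.symm⟩
      · exact Finset.mem_image.2 ⟨r, Finset.mem_Ioc.2 ⟨by omega, by omega⟩, rfl⟩
    have hur1 : u (r + 1) ∈ (Finset.Ioc s L.length).image u :=
      Finset.mem_image.2 ⟨r + 1, Finset.mem_Ioc.2 ⟨by omega, by omega⟩, rfl⟩
    rcases hb : (L[r]).2 with _ | _
    · have : ed r = ((L[r]).1, u r) := by simp [ed, hr2, hb]
      rw [this]
      exact ⟨hur, by rw [hstep_false r hr2 hb]; exact hur1⟩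
    · have : ed r = ((L[r]).1, u (r + 1)) := by simp [ed, hr2, hb]
      rw [this]
      exact ⟨hur1, by rw [hstep_true r hr2 hb]; exact hur⟩
  · -- counting
    have hcardE : ((Finset.Ico s L.length).image ed).card = L.length - s := by
      rw [Finset.card_image_of_injOn, Nat.card_Ico]
      have hmixed : ∀ r r' (hr : r < L.length) (hr' : r' < L.length), s ≤ r → s ≤ r' →
          (L[r]).2 = true → (L[r']).2 = false → ed r = ed r' → False := by
        intro r r' hr hr' hsr hsr' hb hb' he
        have e1 : ed r = ((L[r]).1, u (r + 1)) := by simp [ed, hr, hb]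
        have e2 : ed r' = ((L[r']).1, u r') := by simp [ed, hr', hb']
        rw [e1, e2, Prod.mk.injEq] at he
        obtain ⟨ha, hst⟩ := he
        have hend : u r = u (r' + 1) := by
          rw [← hstep_true r hr hb, ← hstep_false r' hr' hb', ha, hst]
        have hadj : ∀ i j (hi : i < L.length) (hj : j < L.length), j = i + 1 →
            (L[i]).1 = (L[j]).1 → (L[i]).2 = (L[j]).2 := by
          rintro i j hi hj rfl h
          exact List.isChain_iff_getElem.1 hred i hj h
        have hsame : ∀ i j (hi : i < L.length) (hj : j < L.length), i = j →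
            (L[i]).2 = (L[j]).2 := by
          rintro i j hi hj rfl
          rfl
        by_cases h1 : r' = s
        · by_cases h2 : r = r'
          · have := hsame r r' hr hr' h2
            rw [hb, hb'] at this
            exact absurd this (by simp)
          · have h3 : r = r' + 1 := hdist r (r' + 1) (by omega) (by omega) (by omega) (by omega) hend
            have := hadj r' r hr' hr h3 ha.symm
            rw [hb, hb'] at this
            exact absurd this (by simp)
        · have h3 : r + 1 = r' := hdist (r + 1) r' (by omega) (by omega) (by omega) (by omega) hst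
          by_cases h2 : r = s
          · have := hadj r r' hr hr' h3.symm ha
            rw [hb, hb'] at this
            exact absurd this (by simp)
          · have := hdist r (r' + 1) (by omega) (by omega) (by omega) (by omega) hend
            omega
      intro r hr r' hr' he
      obtain ⟨hr1, hr2⟩ := Finset.mem_Ico.1 (Finset.mem_coe.1 hr)
      obtain ⟨hr1', hr2'⟩ := Finset.mem_Ico.1 (Finset.mem_coe.1 hr')
      rcases hb : (L[r]).2 with _ | _ <;> rcases hb' : (L[r']).2 with _ | _
      · have e1 : ed r = ((L[r]).1, u r) := by simp [ed, hr2, hb]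
        have e2 : ed r' = ((L[r']).1, u r') := by simp [ed, hr2', hb']
        rw [e1, e2, Prod.mk.injEq] at he
        obtain ⟨ha, hst⟩ := he
        have : u (r + 1) = u (r' + 1) := by
          rw [← hstep_false r hr2 hb, ← hstep_false r' hr2' hb', ha, hst]
        have := hdist (r + 1) (r' + 1) (by omega) (by omega) (by omega) (by omega) this
        omega
      · exact (hmixed r' r hr2' hr2 hr1' hr1 hb' hb he.symm).elim
      · exact (hmixed r r' hr2 hr2' hr1 hr1' hb hb' he).elim
      · have e1 : ed r = ((L[r]).1, u (r + 1)) := by simp [ed, hr2, hb]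
        have e2 : ed r' = ((L[r']).1, u (r' + 1)) := by simp [ed, hr2', hb']
        rw [e1, e2, Prod.mk.injEq] at he
        have := hdist (r + 1) (r' + 1) (by omega) (by omega) (by omega) (by omega) he.2
        omega
    rw [hcardE]
    calc ((Finset.Ioc s L.length).image u).card ≤ (Finset.Ioc s L.length).card :=
          Finset.card_image_le
      _ = L.length - s := Nat.card_Ioc _ _

end Pool.Agent.Helper8.GraphCount
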