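import Mathlib

/-!
# Interpolation of a strictly increasing function on a finite set
-/

set_option autoImplicit false

namespace Pool.Agent.Helper8.Interp

/-- Bi-Lipschitz increasing with `F - id` Lipschitz, on the set `S`. -/
def Nice (S : Set ℝ) (F : ℝ → ℝ) : Prop :=
  (∃ η > 0, ∀ x ∈ S, ∀ y ∈ S, x ≤ y → η * (y - x) ≤ F y - F x) ∧
    (∃ K > 0, ∀ x ∈ S, ∀ y ∈ S, x ≤ y → |(F y - y) - (F x - x)| ≤ K * (y - x))

lemma nice_affine (α β : ℝ) (hα : 0 < α) (S : Set ℝ) : Nice S (fun x => α * x + β) := by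
  refine ⟨⟨α, hα, fun x _ y _ _ => by ring_nf; exact le_rfl⟩,
    ⟨|α - 1| + 1, by positivity, fun x _ y _ hxy => ?_⟩⟩
  have h1 : (α * y + β - y) - (α * x + β - x) = (α - 1) * (y - x) := by ring
  rw [h1, abs_mul, abs_of_nonneg (sub_nonneg.2 hxy)]
  nlinarith [abs_nonneg (α - 1), sub_nonneg.2 hxy]

lemma nice_congr {S : Set ℝ} {F G : ℝ → ℝ} (hF : Nice S F) (h : ∀ x ∈ S, G x = F x) :
    Nice S G := by
  obtain ⟨⟨η, hη, h1⟩, ⟨K, hK, h2⟩⟩ := hF
  refine ⟨⟨η, hη, fun x hx y hy hxy => ?_⟩, ⟨K, hK, fun x hx y hy hxy => ?_⟩⟩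
  · rw [h x hx, h y hy]; exact h1 x hx y hy hxy
  · rw [h x hx, h y hy]; exact h2 x hx y hy hxy

/-- Gluing at a point `b`. -/
lemma nice_glue {S : Set ℝ} {F : ℝ → ℝ} (b : ℝ) (hb : b ∈ S) (h1 : Nice (S ∩ Set.Iic b) F)
    (h2 : Nice (S ∩ Set.Ici b) F) : Nice S F := by
  obtain ⟨⟨η₁, hη₁, a1⟩, ⟨K₁, hK₁, b1⟩⟩ := h1
  obtain ⟨⟨η₂, hη₂, a2⟩, ⟨K₂, hK₂, b2⟩⟩ := h2
  refine ⟨⟨min η₁ η₂, lt_min hη₁ hη₂, fun x hx y hy hxy => ?_⟩,
    ⟨max K₁ K₂, lt_max_of_lt_left hK₁, fun x hx y hy hxy => ?_⟩⟩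
  · have hm1 : min η₁ η₂ ≤ η₁ := min_le_left _ _
    have hm2 : min η₁ η₂ ≤ η₂ := min_le_right _ _
    rcases le_total y b with hyb | hyb
    · have := a1 x ⟨hx, hxy.trans hyb⟩ y ⟨hy, hyb⟩ hxy
      nlinarith
    rcases le_total b x with hbx | hbx
    · have := a2 x ⟨hx, hbx⟩ y ⟨hy, hyb⟩ hxy
      nlinarith
    have e1 := a1 x ⟨hx, hbx⟩ b ⟨hb, Set.self_mem_Iic⟩ hbx
    have e2 := a2 b ⟨hb, Set.self_mem_Ici⟩ y ⟨hy, hyb⟩ hyb
    nlinarith
  · have hm1 : K₁ ≤ max K₁ K₂ := le_max_left _ _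
    have hm2 : K₂ ≤ max K₁ K₂ := le_max_right _ _
    rcases le_total y b with hyb | hyb
    · have := b1 x ⟨hx, hxy.trans hyb⟩ y ⟨hy, hyb⟩ hxy
      nlinarith
    rcases le_total b x with hbx | hbx
    · have := b2 x ⟨hx, hbx⟩ y ⟨hy, hyb⟩ hxy
      nlinarith
    have e1 := b1 x ⟨hx, hbx⟩ b ⟨hb, Set.self_mem_Iic⟩ hbx
    have e2 := b2 b ⟨hb, Set.self_mem_Ici⟩ y ⟨hy, hyb⟩ hyb
    have e3 : (F y - y) - (F x - x) = ((F b - b) - (F x - x)) + ((F y - y) - (F b - b)) := by ring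
    rw [e3]
    refine (abs_add_le _ _).trans ?_
    nlinarith

lemma interp_aux (f : ℝ → ℝ) (S : Finset ℝ) (hf : ∀ x ∈ S, ∀ y ∈ S, x < y → f x < f y) :
    ∃ F : ℝ → ℝ, (∀ x ∈ S, F x = f x) ∧ Nice Set.univ F ∧
      (∃ L c₁, ∀ x, x ≤ -L → F x = x + c₁) ∧
      (∃ L c₂, (∀ s ∈ S, s ≤ L) ∧ (∀ x, L ≤ x → F x = x + c₂) ∧
        (S.Nonempty → L ∈ S)) := by
  induction S using Finset.induction_on_max with
  | empty =>
    refine ⟨fun x => 1 * x + 0, by simp, nice_affine 1 0 one_pos _, ⟨0, 0, by simp⟩,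
      ⟨0, 0, by simp, by simp, by simp⟩⟩
  | insert a s hmax ih =>
    obtain ⟨F, hFs, hFn, ⟨L₁, c₁, hL₁⟩, ⟨L₂, c₂, hsL, hL₂, hLs⟩⟩ :=
      ih (fun x hx y hy => hf x (Finset.mem_insert_of_mem hx) y (Finset.mem_insert_of_mem hy))
    rcases s.eq_empty_or_nonempty with rfl | hne
    · refine ⟨fun x => 1 * x + (f a - a), ?_, nice_affine 1 _ one_pos _,
        ⟨0, f a - a, fun x _ => by ring⟩, ⟨a, f a - a, ?_, fun x _ => by ring, fun _ => by simp⟩⟩
      · intro x hx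
        have : x = a := by simpa using hx
        subst this
        ring
      · intro x hx
        have : x = a := by simpa using hx
        exact this.le
    · set b := L₂ with hb
      have hbs : b ∈ s := hLs hne
      have hba : b < a := hmax b hbs
      have hfb : f b < f a :=
        hf b (Finset.mem_insert_of_mem hbs) a (Finset.mem_insert_self a s) hba
      set α := (f a - f b) / (a - b) with hα
      have hαpos : 0 < α := div_pos (by linarith) (by linarith)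
      have hαe : α * (a - b) = f a - f b := by
        rw [hα]; field_simp [(sub_pos.2 hba).ne']
      let G : ℝ → ℝ := fun x => if x ≤ b then F x else if x ≤ a then α * x + (f b - α * b)
        else 1 * x + (f a - a)
      have G1 : ∀ x, x ≤ b → G x = F x := fun x hx => if_pos hx
      have hFb : F b = f b := hFs b hbs
      have G2 : ∀ x, b ≤ x → x ≤ a → G x = α * x + (f b - α * b) := by
        intro x h1 h2
        rcases h1.eq_or_lt with rfl | h1
        · rw [G1 _ le_rfl, hFb]; ring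
        · simp only [G, if_neg (not_le.2 h1), if_pos h2]
      have G3 : ∀ x, a ≤ x → G x = 1 * x + (f a - a) := by
        intro x h1
        rcases h1.eq_or_lt with rfl | h1
        · rw [G2 a hba.le le_rfl]; nlinarith
        · simp only [G, if_neg (not_le.2 (hba.trans h1)), if_neg (not_le.2 h1)]
      refine ⟨G, ?_, ?_, ⟨max L₁ (-b), c₁, ?_⟩, ⟨a, f a - a, ?_, ?_, ?_⟩⟩
      · intro x hx
        rcases Finset.mem_insert.1 hx with rfl | hx
        · rw [G3 x le_rfl]; ring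
        · rw [G1 x (hsL x hx), hFs x hx]
      · apply nice_glue b (Set.mem_univ _)
        · apply nice_congr (F := F)
          · obtain ⟨⟨η, hη, h1⟩, ⟨K, hK, h2⟩⟩ := hFn
            exact ⟨⟨η, hη, fun x _ y _ h => h1 x trivial y trivial h⟩,
              ⟨K, hK, fun x _ y _ h => h2 x trivial y trivial h⟩⟩
          · intro x hx
            exact G1 x hx.2
        · apply nice_glue (S := Set.univ ∩ Set.Ici b) a ⟨Set.mem_univ _, hba.le⟩
          · apply nice_congr (nice_affine α (f b - α * b) hαpos _)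
            intro x hx
            exact G2 x hx.1.2 hx.2
          · apply nice_congr (nice_affine 1 (f a - a) one_pos _)
            intro x hx
            exact G3 x hx.2
      · intro x hx
        have h1 : x ≤ -L₁ := hx.trans (neg_le_neg (le_max_left _ _))
        have h2 : x ≤ b := hx.trans (by
          have := le_max_right L₁ (-b)
          linarith)
        rw [G1 x h2, hL₁ x h1]
      · intro x hx
        rcases Finset.mem_insert.1 hx with rfl | hx
        · exact le_rfl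
        · exact (hmax x hx).le
      · intro x hx
        rw [G3 x hx]; ring
      · intro _
        exact Finset.mem_insert_self a s

/-- (L-Real) -/
theorem interp (S : Finset ℝ) (f : ℝ → ℝ) (hf : ∀ x ∈ S, ∀ y ∈ S, x < y → f x < f y) :
    ∃ F : ℝ → ℝ, (∀ x ∈ S, F x = f x) ∧
      (∃ η > 0, ∀ x y, x ≤ y → η * (y - x) ≤ F y - F x) ∧
      (∃ K > 0, ∀ x y, |(F y - y) - (F x - x)| ≤ K * |y - x|) ∧
      (∃ L c₁ c₂, ∀ x, (x ≤ -L → F x = x + c₁) ∧ (L ≤ x → F x = x + c₂)) := by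
  obtain ⟨F, h1, ⟨⟨η, hη, h2⟩, ⟨K, hK, h3⟩⟩, ⟨L₁, c₁, h4⟩, ⟨L₂, c₂, -, h5, -⟩⟩ :=
    interp_aux f S hf
  refine ⟨F, h1, ⟨η, hη, fun x y hxy => h2 x trivial y trivial hxy⟩, ⟨K, hK, fun x y => ?_⟩,
    ⟨max L₁ L₂, c₁, c₂, fun x => ⟨fun hx => h4 x ?_, fun hx => h5 x ?_⟩⟩⟩
  · rcases le_total x y with hxy | hxy
    · rw [abs_of_nonneg (sub_nonneg.2 hxy)]
      exact h3 x trivial y trivial hxy
    · have := h3 y trivial x trivial hxy
      rw [abs_sub_comm y x, abs_of_nonneg (sub_nonneg.2 hxy), abs_sub_comm]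
      exact this
  · exact hx.trans (neg_le_neg (le_max_left _ _))
  · exact (le_max_right _ _).trans hx

end Pool.Agent.Helper8.Interp
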