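import Mathlib

/-!
MP_fd8838_nt: power-saving sparsity of infinite orbits and of sets of non-coalescing integers.

Let `d < m ≤ d ^ (d / (d - 1))` be coprime, let `r` be admissible and let `T` be the map
`T n = n / d` for `d ∣ n`, `T n = (m n - r_j) / d` for `n ≡ j (mod d)`, `0 < j < d`.  If all the
iterates `T^k` are injective on a set `S` of integers (for instance if `S` is an infinite orbit of `T`,
or if the orbits of different elements of `S` never meet), then every interval of length `Y` contains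
at most `C Y ^ η` elements of `S`.
-/

set_option autoImplicit false

namespace Pool.Agent.Helper8.SparseTransversals

/-- The map `T` of Heppner: the `H`-orbit of a point not divisible by `d` consists of the points of
its `T`-orbit that are not divisible by `d`. -/
def T (d m : ℕ) (r : ℤ → ℤ) (x : ℤ) : ℤ :=
  if (d : ℤ) ∣ x then x / d else ((m : ℤ) * x - r (x % (d : ℤ))) / d

/-- Admissibility of the family `r`. -/
def Admissible (d m : ℕ) (r : ℤ → ℤ) : Prop :=
  ∀ j : ℤ, 0 < j → j < (d : ℤ) → r j ≡ (m : ℤ) * j [ZMOD (d : ℤ)]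

/-- The exponent `η₀ = (h(p) + p log (d - 1)) / log d`, `p = log d / log m`, where
`h(p) = - p log p - (1 - p) log (1 - p)`. -/
noncomputable def eta0 (d m : ℕ) : ℝ :=
  Real.qaryEntropy d (Real.log d / Real.log m) / Real.log d

section Dynamics

variable {d m : ℕ} {r : ℤ → ℤ}

/-- The number of steps among the first `N` at points not divisible by `d`. -/
def cnt (d m : ℕ) (r : ℤ → ℤ) : ℕ → ℤ → ℕ
  | 0, _ => 0
  | N + 1, x => (if (d : ℤ) ∣ x then 0 else 1) + cnt d m r N (T d m r x)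

/-- The defect of linearity of `T^N`. -/
def err (d m : ℕ) (r : ℤ → ℤ) (N : ℕ) (x : ℤ) : ℤ :=
  (d : ℤ) ^ N * (T d m r)^[N] x - (m : ℤ) ^ cnt d m r N x * x

theorem emod_pos {x : ℤ} (hd : 2 ≤ d) (hx : ¬ (d : ℤ) ∣ x) : 0 < x % d ∧ x % d < d := by
  have hd0 : (0 : ℤ) < d := by omega
  refine ⟨lt_of_le_of_ne (Int.emod_nonneg x hd0.ne') ?_, Int.emod_lt_of_pos x hd0⟩
  intro h
  exact hx (Int.dvd_of_emod_eq_zero h.symm)

theorem d_mul_T (hd : 2 ≤ d) (hr : Admissible d m r) (x : ℤ) :
    (d : ℤ) * T d m r x = if (d : ℤ) ∣ x then x else (m : ℤ) * x - r (x % d) := by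
  rw [T]
  split_ifs with h
  · exact Int.mul_ediv_cancel' h
  · obtain ⟨h1, h2⟩ := emod_pos hd h
    have h3 := hr (x % d) h1 h2
    have h4 : (m : ℤ) * (x % d) ≡ (m : ℤ) * x [ZMOD (d : ℤ)] :=
      Int.ModEq.mul_left _ (Int.mod_modEq x d)
    exact Int.mul_ediv_cancel' (h3.trans h4).dvd

theorem err_succ (hd : 2 ≤ d) (hr : Admissible d m r) (N : ℕ) (x : ℤ) :
    err d m r (N + 1) x = d * err d m r N (T d m r x) -
      (if (d : ℤ) ∣ x then 0 else (m : ℤ) ^ cnt d m r N (T d m r x) * r (x % d)) := by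
  have h := d_mul_T hd hr x
  rw [err, err, Function.iterate_succ_apply, cnt]
  split_ifs at h ⊢ with hx
  · rw [zero_add]
    linear_combination ((m : ℤ) ^ cnt d m r N (T d m r x)) * h
  · rw [pow_add, pow_one]
    linear_combination ((m : ℤ) ^ cnt d m r N (T d m r x)) * h

theorem abs_err_le (hd : 2 ≤ d) (hm : 2 ≤ m) (hr : Admissible d m r) {A : ℤ}
    (hA : ∀ j : ℤ, 0 < j → j < (d : ℤ) → |r j| ≤ A) :
    ∀ (N : ℕ) (x : ℤ), |err d m r N x| ≤ A * (m : ℤ) ^ cnt d m r N x * (d : ℤ) ^ N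
  | 0, x => by
      have hA0 : 0 ≤ A := (abs_nonneg _).trans (hA 1 one_pos (by exact_mod_cast hd))
      simp only [err, cnt, pow_zero, one_mul, Function.iterate_zero, id_eq, sub_self, abs_zero,
        mul_one]
      exact hA0
  | N + 1, x => by
      have hA0 : 0 ≤ A := (abs_nonneg _).trans (hA 1 one_pos (by exact_mod_cast hd))
      have ih := abs_err_le hd hm hr hA N (T d m r x)
      rw [err_succ hd hr, cnt]
      set s' := cnt d m r N (T d m r x) with hs'
      have hd0 : (0 : ℤ) < d := by omega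
      have hdN : (1 : ℤ) ≤ (d : ℤ) ^ N := one_le_pow₀ (by omega)
      have hms : (0 : ℤ) < (m : ℤ) ^ s' := by
        have : (0 : ℤ) < m := by omega
        positivity
      split_ifs with hx
      · rw [sub_zero, abs_mul, abs_of_pos hd0, zero_add]
        calc (d : ℤ) * |err d m r N (T d m r x)| ≤ d * (A * (m : ℤ) ^ s' * (d : ℤ) ^ N) :=
              mul_le_mul_of_nonneg_left ih hd0.le
          _ = _ := by ring
      · obtain ⟨h1, h2⟩ := emod_pos hd hx
        have hrA := hA (x % d) h1 h2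
        have h3 : |(m : ℤ) ^ s' * r (x % d)| ≤ (m : ℤ) ^ s' * A := by
          rw [abs_mul, abs_of_pos hms]
          exact mul_le_mul_of_nonneg_left hrA hms.le
        have h4 : |(d : ℤ) * err d m r N (T d m r x)| ≤ d * (A * (m : ℤ) ^ s' * (d : ℤ) ^ N) := by
          rw [abs_mul, abs_of_pos hd0]
          exact mul_le_mul_of_nonneg_left ih hd0.le
        have h5 := abs_sub ((d : ℤ) * err d m r N (T d m r x)) ((m : ℤ) ^ s' * r (x % d))
        have h6 : (m : ℤ) ^ s' * A * 1 ≤ (m : ℤ) ^ s' * A * ((d : ℤ) * (d : ℤ) ^ N) := by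
          refine mul_le_mul_of_nonneg_left ?_ (by positivity)
          nlinarith
        have h7 : (2 : ℤ) ≤ m := by exact_mod_cast hm
        have h8 : 0 ≤ (m : ℤ) ^ s' * A * ((d : ℤ) * (d : ℤ) ^ N) := by positivity
        calc |(d : ℤ) * err d m r N (T d m r x) - (m : ℤ) ^ s' * r (x % d)|
            ≤ d * (A * (m : ℤ) ^ s' * (d : ℤ) ^ N) + (m : ℤ) ^ s' * A := by linarith
          _ ≤ 2 * ((m : ℤ) ^ s' * A * ((d : ℤ) * (d : ℤ) ^ N)) := by linarith
          _ ≤ m * ((m : ℤ) ^ s' * A * ((d : ℤ) * (d : ℤ) ^ N)) :=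
              mul_le_mul_of_nonneg_right h7 h8
          _ = A * (m : ℤ) ^ (1 + s') * (d : ℤ) ^ (N + 1) := by ring

/-- Two points with the same residues along `N` steps have the same `cnt` and `err`. -/
theorem same_word (hd : 2 ≤ d) (hr : Admissible d m r) :
    ∀ (N : ℕ) (x y : ℤ), (∀ i < N, ((T d m r)^[i] x : ZMod d) = ((T d m r)^[i] y : ZMod d)) →
      cnt d m r N x = cnt d m r N y ∧ err d m r N x = err d m r N y
  | 0, x, y, _ => by simp [cnt, err]
  | N + 1, x, y, h => by
      have h0 : (x : ZMod d) = (y : ZMod d) := by simpa using h 0 (by omega)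
      have hmod : x % d = y % d := (ZMod.intCast_eq_intCast_iff _ _ _).1 h0
      have hdvd : (d : ℤ) ∣ x ↔ (d : ℤ) ∣ y := by
        rw [Int.dvd_iff_emod_eq_zero, Int.dvd_iff_emod_eq_zero, hmod]
      obtain ⟨h1, h2⟩ := same_word hd hr N (T d m r x) (T d m r y) (fun i hi => by
        have := h (i + 1) (by omega)
        simpa only [Function.iterate_succ_apply] using this)
      rw [cnt, cnt, err_succ hd hr, err_succ hd hr, h1, h2, hmod]
      by_cases hx : (d : ℤ) ∣ x
      · have hy := hdvd.1 hx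
        simp [hx, hy]
      · have hy : ¬ (d : ℤ) ∣ y := fun h => hx (hdvd.2 h)
        simp [hx, hy]

/-- Two points with the same residues along `N` steps are congruent modulo `d ^ N`. -/
theorem congr_of_same_word (hd : 2 ≤ d) (hcop : Nat.Coprime m d) (hr : Admissible d m r)
    {N : ℕ} {x y : ℤ}
    (h : ∀ i < N, ((T d m r)^[i] x : ZMod d) = ((T d m r)^[i] y : ZMod d)) :
    (d : ℤ) ^ N ∣ x - y := by
  obtain ⟨h1, h2⟩ := same_word hd hr N x y h
  have h3 : (m : ℤ) ^ cnt d m r N x * (x - y) =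
      (d : ℤ) ^ N * ((T d m r)^[N] x - (T d m r)^[N] y) := by
    rw [err, err, ← h1] at h2
    linear_combination -h2
  have h4 : (d : ℤ) ^ N ∣ (m : ℤ) ^ cnt d m r N x * (x - y) := ⟨_, h3⟩
  refine Int.dvd_of_dvd_mul_right_of_gcd_one h4 ?_
  have h5 : Nat.Coprime (d ^ N) (m ^ cnt d m r N x) := (Nat.Coprime.pow _ _ hcop).symm
  rw [Nat.coprime_iff_gcd_eq_one] at h5
  have h6 : Int.gcd ((d ^ N : ℕ) : ℤ) ((m ^ cnt d m r N x : ℕ) : ℤ) = 1 := by
    rw [Int.gcd_natCast_natCast]; exact h5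
  push_cast at h6
  exact h6

/-- `cnt` is the number of nonzero residues. -/
theorem pow_cnt (lam : ℝ) : ∀ (N : ℕ) (x : ℤ), lam ^ cnt d m r N x =
    ∏ i : Fin N, (if ((T d m r)^[(i : ℕ)] x : ZMod d) = 0 then (1 : ℝ) else lam)
  | 0, x => by simp [cnt]
  | N + 1, x => by
      rw [Fin.prod_univ_succ, cnt, pow_add, pow_cnt lam N (T d m r x)]
      congr 1
      by_cases hx : (d : ℤ) ∣ x
      · have : (x : ZMod d) = 0 := (ZMod.intCast_zmod_eq_zero_iff_dvd x d).2 hx
        simp [hx, this]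
      · have : ¬ (x : ZMod d) = 0 := fun h => hx ((ZMod.intCast_zmod_eq_zero_iff_dvd x d).1 h)
        simp [hx, this]

/-- The exponential moment of `cnt` over an interval of length `d ^ N`. -/
theorem moment (hd : 2 ≤ d) (hcop : Nat.Coprime m d) (hr : Admissible d m r) {lam : ℝ}
    (hlam : 0 ≤ lam) (N : ℕ) (X : ℤ) :
    ∑ x ∈ Finset.Ico X (X + (d : ℤ) ^ N), lam ^ cnt d m r N x ≤ (1 + ((d : ℝ) - 1) * lam) ^ N := by
  have : NeZero d := ⟨by omega⟩
  have hsum : ∑ a : ZMod d, (if a = 0 then (1 : ℝ) else lam) = 1 + ((d : ℝ) - 1) * lam := by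
    rw [Finset.sum_ite, Finset.sum_const, Finset.sum_const, Finset.filter_eq']
    simp only [Finset.mem_univ, if_true, Finset.card_singleton, one_smul, nsmul_eq_mul]
    have : (Finset.univ.filter (fun a : ZMod d => ¬ a = 0)).card = d - 1 := by
      rw [Finset.filter_not, Finset.filter_eq']
      simp [Finset.card_sdiff, ZMod.card]
    rw [this, Nat.cast_sub (by omega)]
    push_cast; ring
  rw [← hsum, Fintype.sum_pow]
  set W : ℤ → (Fin N → ZMod d) := fun x i => ((T d m r)^[(i : ℕ)] x : ZMod d) with hW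
  have hinj : Set.InjOn W (Finset.Ico X (X + (d : ℤ) ^ N) : Finset ℤ) := by
    intro x hx y hy hxy
    rw [Finset.coe_Ico, Set.mem_Ico] at hx hy
    have h1 : (d : ℤ) ^ N ∣ x - y := by
      refine congr_of_same_word hd hcop hr (fun i hi => ?_)
      exact congrFun hxy ⟨i, hi⟩
    obtain ⟨c, hc⟩ := h1
    have hdN : (0 : ℤ) < (d : ℤ) ^ N := by
      have : (0 : ℤ) < d := by omega
      positivity
    have h2 : c < 1 := by
      by_contra hcon
      push Not at hcon
      nlinarith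
    have h3 : -1 < c := by
      by_contra hcon
      push Not at hcon
      nlinarith
    have h4 : c = 0 := by omega
    rw [h4, mul_zero] at hc
    omega
  calc ∑ x ∈ Finset.Ico X (X + (d : ℤ) ^ N), lam ^ cnt d m r N x
      = ∑ x ∈ Finset.Ico X (X + (d : ℤ) ^ N),
          ∏ i : Fin N, (if W x i = 0 then (1 : ℝ) else lam) :=
        Finset.sum_congr rfl fun x _ => pow_cnt lam N x
    _ = ∑ w ∈ (Finset.Ico X (X + (d : ℤ) ^ N)).image W,
          ∏ i : Fin N, (if w i = 0 then (1 : ℝ) else lam) := by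
        rw [Finset.sum_image hinj]
    _ ≤ ∑ w : Fin N → ZMod d, ∏ i : Fin N, (if w i = 0 then (1 : ℝ) else lam) := by
        refine Finset.sum_le_sum_of_subset_of_nonneg (Finset.subset_univ _) fun w _ _ => ?_
        refine Finset.prod_nonneg fun i _ => ?_
        split_ifs
        · exact zero_le_one
        · exact hlam

theorem cnt_le : ∀ (N : ℕ) (x : ℤ), cnt d m r N x ≤ N
  | 0, x => by simp [cnt]
  | N + 1, x => by
      rw [cnt]
      have := cnt_le N (T d m r x)
      split_ifs <;> omega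

/-- The `N`-th images of the points of an interval of length `d ^ N` with a given count lie in a
short interval. -/
theorem image_interval (hd : 2 ≤ d) (hm : 2 ≤ m) (hr : Admissible d m r) {A : ℕ}
    (hA : ∀ j : ℤ, 0 < j → j < (d : ℤ) → |r j| ≤ A) (N s : ℕ) (X : ℤ) :
    ∃ L : ℤ, ∀ x : ℤ, X ≤ x → x < X + (d : ℤ) ^ N → cnt d m r N x = s →
      L ≤ (T d m r)^[N] x ∧ (T d m r)^[N] x < L + (((2 * A + 2) * m ^ s : ℕ) : ℤ) := by
  have hd0 : (0 : ℤ) < d := by omega
  have hdN : (0 : ℤ) < (d : ℤ) ^ N := by positivity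
  have hms : (0 : ℤ) < (m : ℤ) ^ s := by
    have : (0 : ℤ) < m := by omega
    positivity
  refine ⟨((m : ℤ) ^ s * X) / (d : ℤ) ^ N - A * (m : ℤ) ^ s, fun x hx1 hx2 hs => ?_⟩
  have he := abs_err_le hd hm hr hA N x
  rw [abs_le, err, hs] at he
  set y := (T d m r)^[N] x with hy
  set f := ((m : ℤ) ^ s * X) / (d : ℤ) ^ N with hf
  have hf1 : f * (d : ℤ) ^ N ≤ (m : ℤ) ^ s * X := Int.ediv_mul_le _ hdN.ne'
  have hf2 : (m : ℤ) ^ s * X < (f + 1) * (d : ℤ) ^ N := Int.lt_ediv_add_one_mul_self _ hdN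
  have h1 : (m : ℤ) ^ s * X ≤ (m : ℤ) ^ s * x := mul_le_mul_of_nonneg_left hx1 hms.le
  have h2 : (m : ℤ) ^ s * x < (m : ℤ) ^ s * (X + (d : ℤ) ^ N) := mul_lt_mul_of_pos_left hx2 hms
  constructor
  · have h3 : (f - A * (m : ℤ) ^ s) * (d : ℤ) ^ N ≤ y * (d : ℤ) ^ N := by
      linarith [he.1]
    exact le_of_mul_le_mul_right h3 hdN
  · have h3 : y * (d : ℤ) ^ N < (f + 1 + (m : ℤ) ^ s + A * (m : ℤ) ^ s) * (d : ℤ) ^ N := by
      nlinarith [he.2]
    have h4 := lt_of_mul_lt_mul_right h3 hdN.le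
    push_cast
    nlinarith

/-- The number of bad points of an interval of length `d ^ N`. -/
theorem card_bad (hd : 2 ≤ d) (hm : 2 ≤ m) (hcop : Nat.Coprime m d) (hr : Admissible d m r)
    {lam γ h : ℝ} (hlam : 1 ≤ lam)
    (hbad : 1 + ((d : ℝ) - 1) * lam ≤ h * lam ^ (γ * (Real.log d / Real.log m)))
    (N : ℕ) (X : ℤ) :
    (((Finset.Ico X (X + (d : ℤ) ^ N)).filter
      (fun x => ((d : ℝ) ^ γ) ^ N < (m : ℝ) ^ cnt d m r N x)).card : ℝ) ≤ h ^ N := by
  have hd0 : (0 : ℝ) < d := by positivity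
  have hm0 : (0 : ℝ) < m := by positivity
  have hlogm : 0 < Real.log m := Real.log_pos (by exact_mod_cast hm)
  have hlam0 : 0 < lam := by linarith
  set p := Real.log d / Real.log m with hp
  set B := (Finset.Ico X (X + (d : ℤ) ^ N)).filter
      (fun x => ((d : ℝ) ^ γ) ^ N < (m : ℝ) ^ cnt d m r N x) with hB
  have hd1 : (1 : ℝ) ≤ d := by exact_mod_cast (by omega : 1 ≤ d)
  have hκ : 0 < lam ^ (γ * p) := Real.rpow_pos_of_pos hlam0 _
  have h1 : (B.card : ℝ) * (lam ^ (γ * p)) ^ N ≤ (1 + ((d : ℝ) - 1) * lam) ^ N := by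
    calc (B.card : ℝ) * (lam ^ (γ * p)) ^ N = ∑ x ∈ B, (lam ^ (γ * p)) ^ N := by
          rw [Finset.sum_const, nsmul_eq_mul]
      _ ≤ ∑ x ∈ B, lam ^ cnt d m r N x := by
          refine Finset.sum_le_sum fun x hx => ?_
          rw [hB, Finset.mem_filter] at hx
          have h2 := Real.log_lt_log (by positivity) hx.2
          rw [Real.log_pow, Real.log_pow, Real.log_rpow hd0] at h2
          have h3 : γ * p * N ≤ cnt d m r N x := by
            rw [hp, ← mul_div_assoc, div_mul_eq_mul_div, div_le_iff₀ hlogm]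
            linarith
          rw [← Real.rpow_natCast, ← Real.rpow_mul hlam0.le, ← Real.rpow_natCast lam]
          exact Real.rpow_le_rpow_of_exponent_le hlam h3
      _ ≤ ∑ x ∈ Finset.Ico X (X + (d : ℤ) ^ N), lam ^ cnt d m r N x :=
          Finset.sum_le_sum_of_subset_of_nonneg (Finset.filter_subset _ _)
            fun x _ _ => by positivity
      _ ≤ _ := moment hd hcop hr hlam0.le N X
  have h2 : (1 + ((d : ℝ) - 1) * lam) ^ N ≤ h ^ N * (lam ^ (γ * p)) ^ N := by
    rw [← mul_pow]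
    refine pow_le_pow_left₀ ?_ hbad N
    have : 0 ≤ ((d : ℝ) - 1) * lam := mul_nonneg (by linarith) hlam0.le
    linarith
  exact le_of_mul_le_mul_right (h1.trans h2) (by positivity)

/-- The main estimate. -/
theorem main (hd : 2 ≤ d) (hm : 2 ≤ m) (hcop : Nat.Coprime m d) (hr : Admissible d m r) {A : ℕ}
    (hA : ∀ j : ℤ, 0 < j → j < (d : ℤ) → |r j| ≤ A) {η γ lam : ℝ} (hη : 0 < η) (hγ0 : 0 < γ)
    (hγ : γ < 1) (hlam : 1 ≤ lam)
    (hbad : 1 + ((d : ℝ) - 1) * lam ≤ (d : ℝ) ^ η * lam ^ (γ * (Real.log d / Real.log m))) :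
    ∃ K : ℝ, 0 < K ∧ ∀ (Y : ℕ), 1 ≤ Y → ∀ (X : ℤ) (F : Finset ℤ),
      (∀ k, Set.InjOn ((T d m r)^[k]) F) → (∀ x ∈ F, X ≤ x ∧ x < X + Y) →
        (F.card : ℝ) ≤ K * (Y : ℝ) ^ η := by
  classical
  have hd0 : (0 : ℝ) < d := by positivity
  have hd1 : (1 : ℝ) < d := by exact_mod_cast (by omega : 1 < d)
  have hm0 : (0 : ℝ) < m := by positivity
  set g : ℝ := (d : ℝ) ^ γ with hg
  set h : ℝ := (d : ℝ) ^ η with hh
  set a : ℝ := (2 * A + 2 : ℝ) with ha
  have ha0 : 0 < a := by positivity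
  have hg0 : 0 < g := by positivity
  have hh0 : 0 < h := by positivity
  have hgd : g < d := by
    calc g < (d : ℝ) ^ (1 : ℝ) := Real.rpow_lt_rpow_of_exponent_lt hd1 hγ
      _ = d := Real.rpow_one _
  have hgη : g ^ η < h := by
    rw [hg, ← Real.rpow_mul hd0.le]
    exact Real.rpow_lt_rpow_of_exponent_lt hd1 (by nlinarith)
  -- eventual inequalities
  have hev1 : ∀ᶠ N : ℕ in Filter.atTop, a * g ^ N < (d : ℝ) ^ N := by
    have h1 : Filter.Tendsto (fun N : ℕ => (g / d) ^ N) Filter.atTop (nhds 0) :=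
      tendsto_pow_atTop_nhds_zero_of_lt_one (by positivity) (by rwa [div_lt_one hd0])
    have h2 := h1.eventually (gt_mem_nhds (show (0 : ℝ) < 1 / a by positivity))
    filter_upwards [h2] with N hN
    rw [div_pow, div_lt_div_iff₀ (by positivity) ha0] at hN
    linarith
  have hev2 : ∀ᶠ N : ℕ in Filter.atTop,
      (d : ℝ) * (((N : ℝ) + 1) * (a ^ η * (g ^ η) ^ N)) ≤ (1 / 2) * h ^ N := by
    have hr0 : 0 ≤ g ^ η / h := by positivity
    have hr1 : g ^ η / h < 1 := by rwa [div_lt_one hh0]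
    have h1 := tendsto_self_mul_const_pow_of_lt_one hr0 hr1
    have h2 := tendsto_pow_atTop_nhds_zero_of_lt_one hr0 hr1
    have h3 := h1.add h2
    rw [add_zero] at h3
    have h4 := h3.eventually (gt_mem_nhds (show (0 : ℝ) < 1 / (2 * d * a ^ η) by positivity))
    filter_upwards [h4] with N hN
    have h5 : ((N : ℝ) + 1) * (g ^ η) ^ N / h ^ N < 1 / (2 * d * a ^ η) := by
      calc ((N : ℝ) + 1) * (g ^ η) ^ N / h ^ N = N * (g ^ η / h) ^ N + (g ^ η / h) ^ N := by
            rw [div_pow]; ring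
        _ < _ := hN
    rw [div_lt_div_iff₀ (by positivity) (by positivity)] at h5
    nlinarith
  obtain ⟨N₀, hN₀⟩ := Filter.eventually_atTop.1 (hev1.and hev2)
  set K : ℝ := 2 * d + (d : ℝ) ^ N₀ with hK
  have hK0 : 0 < K := by positivity
  refine ⟨K, hK0, fun Y => ?_⟩
  induction Y using Nat.strong_induction_on with
  | _ Y ih =>
    intro hY X F hinj hF
    have hY0 : (0 : ℝ) < Y := by exact_mod_cast hY
    have hYη : 1 ≤ (Y : ℝ) ^ η := Real.one_le_rpow (by exact_mod_cast hY) hη.le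
    set N := Nat.log d Y with hN
    have hlow : d ^ N ≤ Y := Nat.pow_log_le_self d (by omega)
    have hupp : Y < d ^ (N + 1) := Nat.lt_pow_succ_log_self (by omega) Y
    rcases lt_or_ge N N₀ with hlt | hge
    · -- small `Y`
      have h1 : F.card ≤ Y := by
        have : F ⊆ Finset.Ico X (X + Y) := fun x hx => Finset.mem_Ico.2 (hF x hx)
        have := Finset.card_le_card this
        rw [Int.card_Ico] at this
        simpa using this
      have h2 : (Y : ℝ) ≤ (d : ℝ) ^ N₀ := by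
        have : Y ≤ d ^ N₀ := hupp.le.trans (Nat.pow_le_pow_right (by omega) (by omega))
        exact_mod_cast this
      calc (F.card : ℝ) ≤ Y := by exact_mod_cast h1
        _ ≤ K := by rw [hK]; linarith
        _ = K * 1 := (mul_one K).symm
        _ ≤ K * (Y : ℝ) ^ η := mul_le_mul_of_nonneg_left hYη hK0.le
    · obtain ⟨hN1, hN2⟩ := hN₀ N hge
      have hdNY : (d : ℝ) ^ N ≤ Y := by exact_mod_cast hlow
      -- pieces of length `d ^ N`
      have hpiece : ∀ (X' : ℤ) (G : Finset ℤ), (∀ k, Set.InjOn ((T d m r)^[k]) G) →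
          (∀ x ∈ G, X' ≤ x ∧ x < X' + (d : ℤ) ^ N) →
          (G.card : ℝ) ≤ h ^ N + ((N : ℝ) + 1) * (K * (a ^ η * (g ^ η) ^ N)) := by
        intro X' G hGinj hG
        set B := (Finset.Ico X' (X' + (d : ℤ) ^ N)).filter
          (fun x => g ^ N < (m : ℝ) ^ cnt d m r N x) with hB
        have hBcard : (B.card : ℝ) ≤ h ^ N := card_bad hd hm hcop hr hlam hbad N X'
        have hcover : G ⊆ B ∪ (Finset.range (N + 1)).biUnion
            (fun s => G.filter (fun x => cnt d m r N x = s ∧ (m : ℝ) ^ s ≤ g ^ N)) := by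
          intro x hx
          rw [Finset.mem_union]
          by_cases hxB : g ^ N < (m : ℝ) ^ cnt d m r N x
          · left
            rw [hB, Finset.mem_filter, Finset.mem_Ico]
            exact ⟨hG x hx, hxB⟩
          · right
            rw [Finset.mem_biUnion]
            refine ⟨cnt d m r N x, Finset.mem_range.2 (Nat.lt_succ_of_le (cnt_le N x)), ?_⟩
            rw [Finset.mem_filter]
            exact ⟨hx, rfl, not_lt.1 hxB⟩
        have hs : ∀ s ∈ Finset.range (N + 1),
            ((G.filter (fun x => cnt d m r N x = s ∧ (m : ℝ) ^ s ≤ g ^ N)).card : ℝ) ≤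
              K * (a ^ η * (g ^ η) ^ N) := by
          intro s _
          by_cases hgood : (m : ℝ) ^ s ≤ g ^ N
          · obtain ⟨L, hL⟩ := image_interval hd hm hr hA N s X'
            set G' := G.filter (fun x => cnt d m r N x = s ∧ (m : ℝ) ^ s ≤ g ^ N) with hG'
            have hsub : ∀ x ∈ G', x ∈ G ∧ cnt d m r N x = s := fun x hx => by
              rw [hG', Finset.mem_filter] at hx
              exact ⟨hx.1, hx.2.1⟩
            have hcard : (G'.image ((T d m r)^[N])).card = G'.card :=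
              Finset.card_image_of_injOn fun x hx y hy hxy =>
                hGinj N (hsub x hx).1 (hsub y hy).1 hxy
            have hlen : (((2 * A + 2) * m ^ s : ℕ) : ℝ) ≤ a * g ^ N := by
              push_cast
              exact mul_le_mul_of_nonneg_left hgood ha0.le
            have hlenY : (2 * A + 2) * m ^ s < Y := by
              have : (((2 * A + 2) * m ^ s : ℕ) : ℝ) < Y := by linarith
              exact_mod_cast this
            have hlen1 : 1 ≤ (2 * A + 2) * m ^ s := by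
              have : 0 < (2 * A + 2) * m ^ s := by positivity
              omega
            have h1 := ih _ hlenY hlen1 L (G'.image ((T d m r)^[N])) ?_ ?_
            · rw [hcard] at h1
              refine h1.trans (mul_le_mul_of_nonneg_left ?_ hK0.le)
              calc (((2 * A + 2) * m ^ s : ℕ) : ℝ) ^ η ≤ (a * g ^ N) ^ η :=
                    Real.rpow_le_rpow (by positivity) hlen hη.le
                _ = a ^ η * (g ^ η) ^ N := by
                    rw [Real.mul_rpow ha0.le (by positivity), ← Real.rpow_natCast,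
                      ← Real.rpow_natCast, ← Real.rpow_mul hg0.le, ← Real.rpow_mul hg0.le,
                      mul_comm η]
            · intro k x hx y hy hxy
              rw [Finset.coe_image] at hx hy
              obtain ⟨x', hx', rfl⟩ := hx
              obtain ⟨y', hy', rfl⟩ := hy
              rw [← Function.iterate_add_apply, ← Function.iterate_add_apply] at hxy
              have := hGinj (k + N) (hsub x' hx').1 (hsub y' hy').1 hxy
              rw [this]
            · intro x hx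
              rw [Finset.mem_image] at hx
              obtain ⟨x', hx', rfl⟩ := hx
              obtain ⟨h2, h3⟩ := hG x' (hsub x' hx').1
              exact hL x' h2 h3 (hsub x' hx').2
          · have : G.filter (fun x => cnt d m r N x = s ∧ (m : ℝ) ^ s ≤ g ^ N) = ∅ := by
              rw [Finset.filter_eq_empty_iff]
              intro x _ hx
              exact hgood hx.2
            rw [this, Finset.card_empty, Nat.cast_zero]
            positivity
        calc (G.card : ℝ) ≤ B.card + ∑ s ∈ Finset.range (N + 1),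
              ((G.filter (fun x => cnt d m r N x = s ∧ (m : ℝ) ^ s ≤ g ^ N)).card : ℝ) := by
              have h1 := (Finset.card_le_card hcover).trans (Finset.card_union_le _ _)
              have h2 : ((Finset.range (N + 1)).biUnion
                  (fun s => G.filter (fun x => cnt d m r N x = s ∧ (m : ℝ) ^ s ≤ g ^ N))).card ≤
                  ∑ s ∈ Finset.range (N + 1),
                    (G.filter (fun x => cnt d m r N x = s ∧ (m : ℝ) ^ s ≤ g ^ N)).card :=
                Finset.card_biUnion_le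
              exact_mod_cast h1.trans (Nat.add_le_add_left h2 _)
          _ ≤ h ^ N + ∑ s ∈ Finset.range (N + 1), K * (a ^ η * (g ^ η) ^ N) :=
              add_le_add hBcard (Finset.sum_le_sum hs)
          _ = _ := by
              rw [Finset.sum_const, Finset.card_range, nsmul_eq_mul]; push_cast; ring
      -- the pieces cover `F`
      set bd : ℝ := h ^ N + ((N : ℝ) + 1) * (K * (a ^ η * (g ^ η) ^ N)) with hbd
      have hdN : (0 : ℤ) < (d : ℤ) ^ N := by
        have : (0 : ℤ) < d := by omega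
        positivity
      have hmap : ∀ x ∈ F, (x - X) / (d : ℤ) ^ N ∈ Finset.Ico (0 : ℤ) d := by
        intro x hx
        obtain ⟨h1, h2⟩ := hF x hx
        rw [Finset.mem_Ico]
        constructor
        · exact Int.ediv_nonneg (by omega) hdN.le
        · rw [Int.ediv_lt_iff_lt_mul hdN]
          have h3 : (Y : ℤ) < (d : ℤ) ^ (N + 1) := by exact_mod_cast hupp
          rw [pow_succ, mul_comm] at h3
          omega
      have hFcard : (F.card : ℝ) ≤ d * bd := by
        rw [Finset.card_eq_sum_card_fiberwise hmap]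
        push_cast
        calc ∑ b ∈ Finset.Ico (0 : ℤ) d, ((F.filter (fun x => (x - X) / (d : ℤ) ^ N = b)).card : ℝ)
            ≤ ∑ b ∈ Finset.Ico (0 : ℤ) d, bd := by
              refine Finset.sum_le_sum fun b _ => ?_
              refine hpiece (X + b * (d : ℤ) ^ N) _ (fun k => (hinj k).mono ?_) ?_
              · intro x hx
                rw [Finset.mem_coe, Finset.mem_filter] at hx
                exact hx.1
              · intro x hx
                rw [Finset.mem_filter] at hx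
                have h1 := Int.ediv_mul_le (x - X) hdN.ne'
                have h2 := Int.lt_ediv_add_one_mul_self (x - X) hdN
                rw [hx.2] at h1 h2
                constructor
                · linarith
                · linarith
          _ = d * bd := by
              rw [Finset.sum_const, Int.card_Ico, nsmul_eq_mul]; simp
      have hfin : (d : ℝ) * bd ≤ K * h ^ N := by
        have h1 : (d : ℝ) * bd = d * h ^ N +
            K * ((d : ℝ) * (((N : ℝ) + 1) * (a ^ η * (g ^ η) ^ N))) := by rw [hbd]; ring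
        have h2 : K * ((d : ℝ) * (((N : ℝ) + 1) * (a ^ η * (g ^ η) ^ N))) ≤
            K * ((1 / 2) * h ^ N) := mul_le_mul_of_nonneg_left hN2 hK0.le
        have h3 : (d : ℝ) * h ^ N ≤ (K / 2) * h ^ N := by
          refine mul_le_mul_of_nonneg_right ?_ (by positivity)
          rw [hK]
          have : 0 < (d : ℝ) ^ N₀ := by positivity
          linarith
        rw [h1]; linarith
      calc (F.card : ℝ) ≤ d * bd := hFcard
        _ ≤ K * h ^ N := hfin
        _ = K * ((d : ℝ) ^ N) ^ η := by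
            rw [hh, ← Real.rpow_natCast, ← Real.rpow_natCast, ← Real.rpow_mul hd0.le,
              ← Real.rpow_mul hd0.le, mul_comm η]
        _ ≤ K * (Y : ℝ) ^ η := by
            refine mul_le_mul_of_nonneg_left ?_ hK0.le
            exact Real.rpow_le_rpow (by positivity) hdNY hη.le

end Dynamics

/-- The condition `m ≤ d ^ (d / (d - 1))` with `m` coprime to `d` is strict. -/
theorem strict {d m : ℕ} (hd : 2 ≤ d) (hcop : Nat.Coprime m d)
    (hle : (m : ℝ) ≤ (d : ℝ) ^ ((d : ℝ) / ((d : ℝ) - 1))) : m ^ (d - 1) < d ^ d := by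
  have hd0 : (0 : ℝ) < d := by positivity
  have hd2 : (2 : ℝ) ≤ d := by exact_mod_cast hd
  have h1 : (m : ℝ) ^ (d - 1) ≤ (d : ℝ) ^ d := by
    calc (m : ℝ) ^ (d - 1) ≤ ((d : ℝ) ^ ((d : ℝ) / ((d : ℝ) - 1))) ^ (d - 1) :=
          pow_le_pow_left₀ (by positivity) hle _
      _ = (d : ℝ) ^ d := by
          rw [← Real.rpow_natCast, ← Real.rpow_mul hd0.le, Nat.cast_sub (by omega), Nat.cast_one,
            div_mul_cancel₀ _ (by linarith : (d : ℝ) - 1 ≠ 0), Real.rpow_natCast]
  have h2 : m ^ (d - 1) ≤ d ^ d := by exact_mod_cast h1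
  refine lt_of_le_of_ne h2 fun h3 => ?_
  have h4 : Nat.Coprime (m ^ (d - 1)) d := Nat.Coprime.pow_left _ hcop
  rw [h3] at h4
  have h5 : Nat.Coprime d d := Nat.Coprime.coprime_dvd_left (dvd_pow_self d (by omega)) h4
  rw [Nat.coprime_self] at h5
  omega

section Params

variable {d m : ℕ}

theorem p_bounds (hd : 2 ≤ d) (hdm : d < m) (hlt : m ^ (d - 1) < d ^ d) :
    1 - 1 / (d : ℝ) < Real.log d / Real.log m ∧ Real.log d / Real.log m < 1 := by
  have hd0 : (0 : ℝ) < d := by positivity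
  have hd2 : (2 : ℝ) ≤ d := by exact_mod_cast hd
  have hlogm : 0 < Real.log m := Real.log_pos (by exact_mod_cast (by omega : 1 < m))
  constructor
  · rw [lt_div_iff₀ hlogm]
    have h1 : Real.log ((m : ℝ) ^ (d - 1)) < Real.log ((d : ℝ) ^ d) := by
      refine Real.log_lt_log ?_ (by exact_mod_cast hlt)
      have : (0 : ℝ) < m := by exact_mod_cast (by omega : 0 < m)
      positivity
    rw [Real.log_pow, Real.log_pow, Nat.cast_sub (by omega), Nat.cast_one] at h1
    have h2 : (1 - 1 / (d : ℝ)) * Real.log m = ((d : ℝ) - 1) * Real.log m / d := by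
      field_simp
    rw [h2, div_lt_iff₀ hd0]
    linarith
  · rw [div_lt_one hlogm]
    exact Real.log_lt_log hd0 (by exact_mod_cast hdm)

theorem entropy_top (hd : 2 ≤ d) : Real.qaryEntropy d (1 - 1 / (d : ℝ)) = Real.log d := by
  have hd0 : (0 : ℝ) < d := by positivity
  have hd2 : (2 : ℝ) ≤ d := by exact_mod_cast hd
  have h1 : 1 - 1 / (d : ℝ) = ((d : ℝ) - 1) / d := by field_simp
  have h2 : 1 - (1 - 1 / (d : ℝ)) = 1 / d := by ring
  rw [Real.qaryEntropy, Real.binEntropy, h2, h1, inv_div, Real.log_div hd0.ne' (by linarith),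
    one_div, inv_inv]
  push_cast
  field_simp
  ring

theorem eta0_lt_one (hd : 2 ≤ d) (hdm : d < m) (hlt : m ^ (d - 1) < d ^ d) : eta0 d m < 1 := by
  obtain ⟨h1, h2⟩ := p_bounds hd hdm hlt
  have hd0 : (0 : ℝ) < d := by positivity
  have hd2 : (2 : ℝ) ≤ d := by exact_mod_cast hd
  have hlogd : 0 < Real.log d := Real.log_pos (by linarith)
  rw [eta0, div_lt_one hlogd]
  have h3 := Real.qaryEntropy_strictAntiOn hd
  have h4 : 1 - 1 / (d : ℝ) ≤ 1 := by
    have : 0 ≤ 1 / (d : ℝ) := by positivity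
    linarith
  have h5 := h3 (Set.left_mem_Icc.2 h4) (Set.mem_Icc.2 ⟨h1.le, h2.le⟩) h1
  rwa [entropy_top hd] at h5

theorem eta0_pos (hd : 2 ≤ d) (hdm : d < m) (hlt : m ^ (d - 1) < d ^ d) : 0 < eta0 d m := by
  obtain ⟨h1, h2⟩ := p_bounds hd hdm hlt
  have hd0 : (0 : ℝ) < d := by positivity
  have hd2 : (2 : ℝ) ≤ d := by exact_mod_cast hd
  have hlogd : 0 < Real.log d := Real.log_pos (by linarith)
  have h3 : 0 ≤ 1 - 1 / (d : ℝ) := by
    rw [sub_nonneg, div_le_one hd0]; linarith
  exact div_pos (Real.qaryEntropy_pos (by linarith) h2) hlogd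

/-- Choice of the parameters. -/
theorem exists_params (hd : 2 ≤ d) (hdm : d < m) (hlt : m ^ (d - 1) < d ^ d) {η : ℝ}
    (hη : eta0 d m < η) : ∃ γ lam : ℝ, 0 < γ ∧ γ < 1 ∧ 1 ≤ lam ∧
      1 + ((d : ℝ) - 1) * lam ≤ (d : ℝ) ^ η * lam ^ (γ * (Real.log d / Real.log m)) := by
  obtain ⟨hp1, hp2⟩ := p_bounds hd hdm hlt
  have hd0 : (0 : ℝ) < d := by positivity
  have hd2 : (2 : ℝ) ≤ d := by exact_mod_cast hd
  have hdm1 : (0 : ℝ) < (d : ℝ) - 1 := by linarith
  have hlogd : 0 < Real.log d := Real.log_pos (by linarith)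
  set p := Real.log d / Real.log m with hp
  have hp0 : 0 < p := by
    have : 0 ≤ 1 - 1 / (d : ℝ) := by
      rw [sub_nonneg, div_le_one hd0]; linarith
    linarith
  have h1p : 0 < 1 - p := by linarith
  have hden : 0 < (1 - p) * ((d : ℝ) - 1) := mul_pos h1p hdm1
  set lam : ℝ := p / ((1 - p) * ((d : ℝ) - 1)) with hlam
  have hlam1 : 1 ≤ lam := by
    rw [hlam, one_le_div hden]
    have : ((d : ℝ) - 1) / d ≤ p := by
      have h : ((d : ℝ) - 1) / d = 1 - 1 / d := by field_simp
      rw [h]; exact hp1.le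
    rw [div_le_iff₀ hd0] at this
    linarith
  have hlam0 : 0 < lam := by linarith
  have hloglam : 0 ≤ Real.log lam := Real.log_nonneg hlam1
  have hsum : 1 + ((d : ℝ) - 1) * lam = (1 - p)⁻¹ := by
    rw [hlam]; field_simp; ring
  have hent : Real.qaryEntropy d p = -Real.log (1 - p) - p * Real.log lam := by
    rw [hlam, Real.qaryEntropy, Real.binEntropy, Real.log_div hp0.ne' hden.ne',
      Real.log_mul h1p.ne' hdm1.ne', Real.log_inv, Real.log_inv]
    push_cast
    ring
  rw [eta0, ← hp, div_lt_iff₀ hlogd, hent] at hη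
  set δ : ℝ := min (1 / 2) ((η * Real.log d - (-Real.log (1 - p) - p * Real.log lam)) /
    (p * Real.log lam + 1)) with hδ
  have hpl : 0 ≤ p * Real.log lam := by positivity
  have hδ0 : 0 < δ := by
    rw [hδ]
    exact lt_min (by norm_num) (div_pos (by linarith) (by linarith))
  have hδ1 : δ ≤ 1 / 2 := min_le_left _ _
  have hδ2 : δ * (p * Real.log lam) ≤
      η * Real.log d - (-Real.log (1 - p) - p * Real.log lam) := by
    have h1 : δ ≤ _ := min_le_right _ _
    have h2 : δ * (p * Real.log lam + 1) ≤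
        η * Real.log d - (-Real.log (1 - p) - p * Real.log lam) := by
      rwa [le_div_iff₀ (by linarith)] at h1
    linarith
  refine ⟨1 - δ, lam, by linarith, by linarith, hlam1, ?_⟩
  rw [hsum]
  have hR : 0 < (d : ℝ) ^ η * lam ^ ((1 - δ) * p) := by positivity
  rw [← Real.log_le_log_iff (by positivity) hR, Real.log_inv,
    Real.log_mul (by positivity) (by positivity), Real.log_rpow hd0, Real.log_rpow hlam0]
  linarith

end Params

/-- **Power-saving sparsity of infinite orbits and of sets of non-coalescing integers.** -/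
theorem result (d m : ℕ) (hd : 2 ≤ d) (hdm : d < m) (hcop : Nat.Coprime m d)
    (hle : (m : ℝ) ≤ (d : ℝ) ^ ((d : ℝ) / ((d : ℝ) - 1))) :
    eta0 d m < 1 ∧ ∀ η : ℝ, eta0 d m < η → ∀ r : ℤ → ℤ, Admissible d m r →
      ∃ C c : ℝ, 0 < c ∧
        -- sets on which all iterates are injective
        (∀ S : Set ℤ, (∀ k, Set.InjOn ((T d m r)^[k]) S) → ∀ (X : ℤ) (Y : ℕ), 1 ≤ Y →
          ((S ∩ Set.Ico X (X + Y)).ncard : ℝ) ≤ C * (Y : ℝ) ^ η) ∧
        -- sets of integers whose orbits are pairwise disjoint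
        (∀ S : Set ℤ, (∀ x ∈ S, ∀ y ∈ S, x ≠ y → ∀ i j : ℕ, (T d m r)^[i] x ≠ (T d m r)^[j] y) →
          ∀ (X : ℤ) (Y : ℕ), 1 ≤ Y → ((S ∩ Set.Ico X (X + Y)).ncard : ℝ) ≤ C * (Y : ℝ) ^ η) ∧
        -- infinite orbits, and their growth
        (∀ n : ℤ, (∀ i j : ℕ, (T d m r)^[i] n = (T d m r)^[j] n → i = j) →
          (∀ (X : ℤ) (Y : ℕ), 1 ≤ Y →
            (({i : ℕ | (T d m r)^[i] n ∈ Set.Ico X (X + Y)}).ncard : ℝ) ≤ C * (Y : ℝ) ^ η) ∧
          ∀ k : ℕ, 1 ≤ k → ∃ i < k, c * (k : ℝ) ^ (1 / η) ≤ |((T d m r)^[i] n : ℝ)|) := by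
  have hlt := strict hd hcop hle
  refine ⟨eta0_lt_one hd hdm hlt, fun η hη r hr => ?_⟩
  have hη0 : 0 < η := (eta0_pos hd hdm hlt).trans hη
  obtain ⟨γ, lam, hγ0, hγ1, hlam, hbad⟩ := exists_params hd hdm hlt hη
  -- a bound for the `r j`
  obtain ⟨A, hA⟩ : ∃ A : ℕ, ∀ j : ℤ, 0 < j → j < (d : ℤ) → |r j| ≤ A := by
    refine ⟨∑ j ∈ Finset.range d, (r j).natAbs, fun j hj1 hj2 => ?_⟩
    obtain ⟨j', rfl⟩ := Int.eq_ofNat_of_zero_le hj1.le
    have h1 : (r (j' : ℤ)).natAbs ≤ ∑ j ∈ Finset.range d, (r j).natAbs :=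
      Finset.single_le_sum (f := fun j : ℕ => (r (j : ℤ)).natAbs) (fun _ _ => Nat.zero_le _)
        (Finset.mem_range.2 (by exact_mod_cast hj2))
    rw [Int.abs_eq_natAbs]
    exact_mod_cast h1
  obtain ⟨K, hK0, hK⟩ := main hd (by omega) hcop hr hA hη0 hγ0 hγ1 hlam hbad
  have hfinite : ∀ (S : Set ℤ) (X : ℤ) (Y : ℕ), (S ∩ Set.Ico X (X + Y)).Finite := fun S X Y =>
    (Set.finite_Ico X (X + Y)).subset Set.inter_subset_right
  have hgen : ∀ S : Set ℤ, (∀ k, Set.InjOn ((T d m r)^[k]) S) → ∀ (X : ℤ) (Y : ℕ), 1 ≤ Y →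
      ((S ∩ Set.Ico X (X + Y)).ncard : ℝ) ≤ K * (Y : ℝ) ^ η := by
    intro S hS X Y hY
    have h1 := hK Y hY X (hfinite S X Y).toFinset (fun k => (hS k).mono (by simp)) (by
      intro x hx
      rw [Set.Finite.mem_toFinset] at hx
      exact ⟨hx.2.1, hx.2.2⟩)
    rwa [← Set.ncard_eq_toFinset_card _ (hfinite S X Y)] at h1
  have horb : ∀ n : ℤ, (∀ i j : ℕ, (T d m r)^[i] n = (T d m r)^[j] n → i = j) →
      ∀ (X : ℤ) (Y : ℕ), 1 ≤ Y →
        (({i : ℕ | (T d m r)^[i] n ∈ Set.Ico X (X + Y)}).ncard : ℝ) ≤ K * (Y : ℝ) ^ η := by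
    intro n hn X Y hY
    have h1 := hgen (Set.range fun i : ℕ => (T d m r)^[i] n) (by
      rintro k _ ⟨i, rfl⟩ _ ⟨j, rfl⟩ h
      simp only at h ⊢
      rw [← Function.iterate_add_apply, ← Function.iterate_add_apply] at h
      have := hn _ _ h
      rw [show i = j by omega]) X Y hY
    have h2 : (Set.range fun i : ℕ => (T d m r)^[i] n) ∩ Set.Ico X (X + Y) =
        (fun i : ℕ => (T d m r)^[i] n) '' {i : ℕ | (T d m r)^[i] n ∈ Set.Ico X (X + Y)} := by
      ext z
      constructor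
      · rintro ⟨⟨i, rfl⟩, hz⟩
        exact ⟨i, hz, rfl⟩
      · rintro ⟨i, hi, rfl⟩
        exact ⟨⟨i, rfl⟩, hi⟩
    rwa [h2, Set.ncard_image_of_injective _ (fun i j h => hn i j h)] at h1
  refine ⟨K, (1 / (2 * (5 * K ^ (1 / η)))), by positivity, hgen, ?_, fun n hn => ⟨horb n hn, ?_⟩⟩
  · intro S hS X Y hY
    refine hgen S (fun k x hx y hy hxy => ?_) X Y hY
    by_contra hne
    exact hS x hx y hy hne k k hxy
  · intro k hk
    by_contra hcon
    push Not at hcon
    set c : ℝ := 1 / (2 * (5 * K ^ (1 / η))) with hc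
    have hc0 : 0 < c := by positivity
    have hk1 : (1 : ℝ) ≤ k := by exact_mod_cast hk
    set V : ℝ := c * (k : ℝ) ^ (1 / η) with hV
    have hV0 : 0 < V := by positivity
    -- the orbit avoids zero
    have hne : n ≠ 0 := by
      rintro rfl
      have hT0 : T d m r 0 = 0 := by rw [T, if_pos (dvd_zero _)]; simp
      have := hn 1 0 (by simpa using hT0)
      omega
    have hV1 : 1 < V := by
      have h1 := hcon 0 hk
      simp only [Function.iterate_zero, id_eq] at h1
      have h2 : (1 : ℤ) ≤ |n| := Int.one_le_abs hne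
      have h3 : (1 : ℝ) ≤ |(n : ℝ)| := by exact_mod_cast h2
      linarith
    have hZ : (⌈V⌉₊ : ℝ) < V + 1 := Nat.ceil_lt_add_one hV0.le
    have h1 := horb n hn (-(⌈V⌉₊ : ℤ)) (2 * ⌈V⌉₊ + 1) (by omega)
    have hsub : Set.Iio k ⊆ {i : ℕ | (T d m r)^[i] n ∈
        Set.Ico (-(⌈V⌉₊ : ℤ)) (-(⌈V⌉₊ : ℤ) + ((2 * ⌈V⌉₊ + 1 : ℕ) : ℤ))} := by
      intro i hi
      have h2 := hcon i hi
      have h3 : |((T d m r)^[i] n : ℝ)| < (⌈V⌉₊ : ℝ) := h2.trans_le (Nat.le_ceil V)
      have h4 : |(T d m r)^[i] n| < (⌈V⌉₊ : ℤ) := by exact_mod_cast h3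
      rw [abs_lt] at h4
      rw [Set.mem_ofPred_eq, Set.mem_Ico]
      push_cast
      omega
    have hfin : {i : ℕ | (T d m r)^[i] n ∈
        Set.Ico (-(⌈V⌉₊ : ℤ)) (-(⌈V⌉₊ : ℤ) + ((2 * ⌈V⌉₊ + 1 : ℕ) : ℤ))}.Finite :=
      Set.Finite.preimage (fun i _ j _ h => hn i j h) (Set.finite_Ico _ _)
    have h2 := Set.ncard_le_ncard hsub hfin
    have h3 : (Set.Iio k).ncard = k := by
      rw [← Finset.coe_Iio, Set.ncard_coe_finset, Nat.card_Iio]
    rw [h3] at h2
    have h4 : (k : ℝ) ≤ K * ((2 * ⌈V⌉₊ + 1 : ℕ) : ℝ) ^ η := le_trans (by exact_mod_cast h2) h1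
    have h5 : (((2 * ⌈V⌉₊ + 1 : ℕ) : ℝ)) ^ η ≤ (5 * V) ^ η := by
      refine Real.rpow_le_rpow (by positivity) ?_ hη0.le
      push_cast
      linarith
    have h6 : (5 * V) ^ η = (1 / (2 ^ η * K)) * k := by
      have e1 : 5 * V = (1 / (2 * K ^ (1 / η))) * (k : ℝ) ^ (1 / η) := by
        rw [hV, hc]; field_simp
      rw [e1, Real.mul_rpow (by positivity) (by positivity), ← Real.rpow_mul (by positivity),
        one_div_mul_cancel hη0.ne', Real.rpow_one, Real.div_rpow (by norm_num) (by positivity),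
        Real.one_rpow, Real.mul_rpow (by norm_num) (by positivity), ← Real.rpow_mul hK0.le,
        one_div_mul_cancel hη0.ne', Real.rpow_one]
    have h7 : (k : ℝ) ≤ (1 / 2 ^ η) * k := by
      calc (k : ℝ) ≤ K * ((2 * ⌈V⌉₊ + 1 : ℕ) : ℝ) ^ η := h4
        _ ≤ K * (5 * V) ^ η := mul_le_mul_of_nonneg_left h5 hK0.le
        _ = (1 / 2 ^ η) * k := by rw [h6]; field_simp
    have h8 : (1 : ℝ) / 2 ^ η < 1 := by
      rw [div_lt_one (by positivity)]
      exact Real.one_lt_rpow (by norm_num) hη0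
    nlinarith

end Pool.Agent.Helper8.SparseTransversals
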