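import Mathlib

/-!
Counting words: the finset `words d k s` of words of length `k` over the letters `0, …, d - 1` with
exactly `s` nonzero letters has `choose k s * (d - 1) ^ s` elements, and a suitable `s` close to
`k (d - 1) / d` gives at least `d ^ k / (4 √k)` words (Chebyshev's inequality).
-/

set_option autoImplicit false

namespace Pool.Agent.Helper8.BinCount

open Finset

/-- Words of length `k` over `0, …, d - 1` with exactly `s` nonzero letters. -/
def words (d : ℕ) : ℕ → ℕ → Finset (List ℕ)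
  | 0, 0 => {[]}
  | 0, _ + 1 => ∅
  | k + 1, 0 => (words d k 0).image (fun L => 0 :: L)
  | k + 1, s + 1 => (words d k (s + 1)).image (fun L => 0 :: L) ∪
      ((Finset.Ico 1 d) ×ˢ (words d k s)).image (fun p => p.1 :: p.2)

theorem mem_words {d : ℕ} (hd : 1 ≤ d) : ∀ {k s : ℕ} {w : List ℕ}, w ∈ words d k s →
    w.length = k ∧ (∀ j ∈ w, j < d) ∧ w.countP (fun j => decide (j ≠ 0)) = s
  | 0, 0, w, h => by
      simp only [words, Finset.mem_singleton] at h
      subst h; simp
  | 0, s + 1, w, h => by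
      simp only [words, Finset.notMem_empty] at h
  | k + 1, 0, w, h => by
      simp only [words, Finset.mem_image] at h
      obtain ⟨L, hL, rfl⟩ := h
      obtain ⟨h1, h2, h3⟩ := mem_words hd hL
      refine ⟨by simp [h1], ?_, ?_⟩
      · intro j hj
        rcases List.mem_cons.1 hj with rfl | hj
        · omega
        · exact h2 j hj
      · rw [List.countP_cons, h3]; simp
  | k + 1, s + 1, w, h => by
      simp only [words, Finset.mem_union, Finset.mem_image, Finset.mem_product, Prod.exists,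
        Finset.mem_Ico] at h
      rcases h with ⟨L, hL, rfl⟩ | ⟨a, L, ⟨ha, hL⟩, rfl⟩
      · obtain ⟨h1, h2, h3⟩ := mem_words hd hL
        refine ⟨by simp [h1], ?_, ?_⟩
        · intro j hj
          rcases List.mem_cons.1 hj with rfl | hj
          · omega
          · exact h2 j hj
        · rw [List.countP_cons, h3]; simp
      · obtain ⟨h1, h2, h3⟩ := mem_words hd hL
        refine ⟨by simp [h1], ?_, ?_⟩
        · intro j hj
          rcases List.mem_cons.1 hj with rfl | hj
          · omega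
          · exact h2 j hj
        · rw [List.countP_cons, h3]
          have : a ≠ 0 := by omega
          simp [this]

theorem card_words (d : ℕ) : ∀ k s : ℕ, (words d k s).card = k.choose s * (d - 1) ^ s
  | 0, 0 => by simp [words]
  | 0, s + 1 => by simp [words]
  | k + 1, 0 => by
      rw [words, Finset.card_image_of_injective _ (fun a b h => by simpa using h), card_words d k 0]
      simp
  | k + 1, s + 1 => by
      rw [words, Finset.card_union_of_disjoint, Finset.card_image_of_injective _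
        (fun a b h => by simpa using h), Finset.card_image_of_injective, Finset.card_product,
        card_words d k (s + 1), card_words d k s, Nat.card_Ico, Nat.choose_succ_succ]
      · ring
      · rintro ⟨a, L⟩ ⟨b, M⟩ h
        simpa using h
      · rw [Finset.disjoint_left]
        intro w hw hw'
        simp only [Finset.mem_image, Finset.mem_product, Prod.exists, Finset.mem_Ico] at hw hw'
        obtain ⟨L, -, rfl⟩ := hw
        obtain ⟨a, M, ⟨ha, -⟩, h⟩ := hw'
        simp only [List.cons.injEq] at h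
        omega

/-- Chebyshev: some `s` with `|s - k x| < √k` carries binomial mass at least `1 / (4 √k)`. -/
theorem exists_mass {k : ℕ} (hk : 1 ≤ k) {x : ℝ} (hx0 : 0 ≤ x) (hx1 : x ≤ 1) :
    ∃ s ≤ k, |(s : ℝ) - k * x| < √k ∧
      1 / (4 * √k) ≤ (k.choose s : ℝ) * x ^ s * (1 - x) ^ (k - s) := by
  set p : ℕ → ℝ := fun s => (k.choose s : ℝ) * x ^ s * (1 - x) ^ (k - s) with hp
  have hp0 : ∀ s, 0 ≤ p s := fun s => by
    have : 0 ≤ 1 - x := by linarith
    simp only [hp]; positivity
  have hsum : ∑ s ∈ Finset.range (k + 1), p s = 1 := by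
    have h := add_pow x (1 - x) k
    rw [add_sub_cancel, one_pow] at h
    rw [h]
    refine Finset.sum_congr rfl fun s _ => by simp only [hp]; ring
  have hvar : ∑ s ∈ Finset.range (k + 1), ((k : ℝ) * x - s) ^ 2 * p s = k * x * (1 - x) := by
    have := congrArg (Polynomial.eval x) (bernsteinPolynomial.variance ℝ k)
    simp only [Polynomial.eval_finsetSum, bernsteinPolynomial, Polynomial.eval_mul,
      Polynomial.eval_pow, Polynomial.eval_sub, Polynomial.eval_natCast, Polynomial.eval_X,
      Polynomial.eval_one, nsmul_eq_mul] at this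
    exact this
  have hk0 : (0 : ℝ) < k := by exact_mod_cast hk
  have hsq : √(k : ℝ) ^ 2 = k := Real.sq_sqrt hk0.le
  have hsk : 0 < √(k : ℝ) := Real.sqrt_pos.2 hk0
  have hsk1 : 1 ≤ √(k : ℝ) := by
    rw [Real.one_le_sqrt]; exact_mod_cast hk
  -- the far part has mass at most 1/4
  set A : Finset ℕ := (Finset.range (k + 1)).filter (fun s : ℕ => |(s : ℝ) - k * x| < √k) with hA
  have hfar : ∑ s ∈ (Finset.range (k + 1)).filter (fun s : ℕ => ¬ |(s : ℝ) - k * x| < √k), p s
      ≤ 1 / 4 := by
    have h1 : k * ∑ s ∈ (Finset.range (k + 1)).filter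
        (fun s : ℕ => ¬ |(s : ℝ) - k * x| < √k), p s ≤ k * x * (1 - x) := by
      rw [← hvar, Finset.mul_sum]
      calc _ ≤ ∑ s ∈ (Finset.range (k + 1)).filter
            (fun s : ℕ => ¬ |(s : ℝ) - k * x| < √k), ((k : ℝ) * x - s) ^ 2 * p s := by
            refine Finset.sum_le_sum fun s hs => ?_
            rw [Finset.mem_filter, not_lt] at hs
            refine mul_le_mul_of_nonneg_right ?_ (hp0 s)
            have h4 : √(k : ℝ) ^ 2 ≤ |(s : ℝ) - k * x| ^ 2 := pow_le_pow_left₀ hsk.le hs.2 2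
            rw [hsq, sq_abs] at h4
            linarith [h4, sq_nonneg ((s : ℝ) - k * x), show ((k : ℝ) * x - s) ^ 2 =
              ((s : ℝ) - k * x) ^ 2 by ring]
        _ ≤ _ := Finset.sum_le_sum_of_subset_of_nonneg (Finset.filter_subset _ _)
            (fun s _ _ => mul_nonneg (sq_nonneg _) (hp0 s))
    have h2 : x * (1 - x) ≤ 1 / 4 := by nlinarith [sq_nonneg (x - 1 / 2)]
    have h3 : k * ∑ s ∈ (Finset.range (k + 1)).filter
        (fun s : ℕ => ¬ |(s : ℝ) - k * x| < √k), p s ≤ k * (1 / 4) := by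
      refine h1.trans ?_
      rw [mul_assoc]
      exact mul_le_mul_of_nonneg_left h2 hk0.le
    exact le_of_mul_le_mul_left h3 hk0
  have hnear : 3 / 4 ≤ ∑ s ∈ A, p s := by
    have := Finset.sum_filter_add_sum_filter_not (Finset.range (k + 1))
      (fun s : ℕ => |(s : ℝ) - k * x| < √k) p
    rw [hsum] at this
    rw [hA]; linarith
  have hcardA : (A.card : ℝ) ≤ 3 * √k := by
    have hsub : A.map Nat.castEmbedding ⊆
        Finset.Ioo (⌊(k : ℝ) * x - √k⌋ : ℤ) (⌈(k : ℝ) * x + √k⌉ : ℤ) := by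
      intro z hz
      rw [Finset.mem_map] at hz
      obtain ⟨s, hs, rfl⟩ := hz
      rw [hA, Finset.mem_filter, abs_lt] at hs
      rw [Finset.mem_Ioo]
      constructor
      · rw [Int.floor_lt]
        simp only [Nat.castEmbedding_apply, Int.cast_natCast]
        linarith [hs.2.1]
      · rw [Int.lt_ceil]
        simp only [Nat.castEmbedding_apply, Int.cast_natCast]
        linarith [hs.2.2]
    have h1 := Finset.card_le_card hsub
    rw [Finset.card_map, Int.card_Ioo] at h1
    have h2 : ((⌈(k : ℝ) * x + √k⌉ - ⌊(k : ℝ) * x - √k⌋ - 1 : ℤ) : ℝ) ≤ 3 * √k := by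
      push_cast
      have h3 := Int.ceil_lt_add_one ((k : ℝ) * x + √k)
      have h4 := Int.sub_one_lt_floor ((k : ℝ) * x - √k)
      linarith
    rcases le_or_gt 0 (⌈(k : ℝ) * x + √k⌉ - ⌊(k : ℝ) * x - √k⌋ - 1) with h0 | h0
    · have h3 : ((A.card : ℕ) : ℤ) ≤ ⌈(k : ℝ) * x + √k⌉ - ⌊(k : ℝ) * x - √k⌋ - 1 := by
        rw [← Int.toNat_of_nonneg h0]; exact_mod_cast h1
      have h4 : ((A.card : ℕ) : ℝ) ≤
          ((⌈(k : ℝ) * x + √k⌉ - ⌊(k : ℝ) * x - √k⌋ - 1 : ℤ) : ℝ) := by exact_mod_cast h3
      exact h4.trans h2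
    · rw [Int.toNat_of_nonpos h0.le] at h1
      have : A.card = 0 := by omega
      rw [this]; push_cast; positivity
  have hAne : A.Nonempty := by
    by_contra h
    rw [Finset.not_nonempty_iff_eq_empty] at h
    rw [h, Finset.sum_empty] at hnear
    norm_num at hnear
  by_contra hcon
  push Not at hcon
  have hlt : ∑ s ∈ A, p s < ∑ s ∈ A, 1 / (4 * √(k : ℝ)) := by
    refine Finset.sum_lt_sum_of_nonempty hAne fun s hs => ?_
    rw [hA, Finset.mem_filter, Finset.mem_range] at hs
    exact hcon s (by omega) hs.2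
  rw [Finset.sum_const, nsmul_eq_mul] at hlt
  have : (A.card : ℝ) * (1 / (4 * √k)) ≤ 3 / 4 := by
    calc (A.card : ℝ) * (1 / (4 * √k)) ≤ 3 * √k * (1 / (4 * √k)) := by
          refine mul_le_mul_of_nonneg_right hcardA (by positivity)
      _ = 3 / 4 := by field_simp
  linarith

/-- For large `k` there is `s` with `1 ≤ s ≤ k`, `m ^ s < d ^ k` and at least `d ^ k / (4 √k)` words
of length `k` with `s` nonzero letters. -/
theorem exists_good {d m : ℕ} (hd : 2 ≤ d) (hm : 1 ≤ m) (hlt : m ^ (d - 1) < d ^ d) :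
    ∃ K : ℕ, ∀ k ≥ K, ∃ s, 1 ≤ s ∧ s ≤ k ∧ m ^ s < d ^ k ∧
      (d : ℝ) ^ k / (4 * √k) ≤ (k.choose s : ℝ) * ((d : ℝ) - 1) ^ s := by
  have hd0 : (0 : ℝ) < d := by positivity
  set x : ℝ := ((d : ℝ) - 1) / d with hx
  have hd2 : (2 : ℝ) ≤ d := by exact_mod_cast hd
  have hx0 : 1 / 2 ≤ x := by
    rw [hx, le_div_iff₀ hd0]; linarith
  have hx1 : x ≤ 1 := by
    rw [hx, div_le_one hd0]; linarith
  have h1x : 1 - x = 1 / d := by rw [hx]; field_simp; ring
  set lm := Real.log m with hlm
  set ld := Real.log d with hld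
  have hlm0 : 0 ≤ lm := Real.log_nonneg (by exact_mod_cast hm)
  have hΔ : 0 < ld - x * lm := by
    have h1 : Real.log ((m : ℝ) ^ (d - 1)) < Real.log ((d : ℝ) ^ d) := by
      refine Real.log_lt_log (by positivity) ?_
      exact_mod_cast hlt
    rw [Real.log_pow, Real.log_pow, Nat.cast_sub (by omega), Nat.cast_one] at h1
    have h2 : x * lm = ((d : ℝ) - 1) * lm / d := by rw [hx]; ring
    rw [h2, sub_pos, div_lt_iff₀ hd0]
    linarith
  obtain ⟨K, hK⟩ := exists_nat_gt ((lm / (ld - x * lm)) ^ 2 + 16)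
  refine ⟨K, fun k hk => ?_⟩
  have hkK : (lm / (ld - x * lm)) ^ 2 + 16 < k := hK.trans_le (by exact_mod_cast hk)
  have hk16 : (16 : ℝ) < k := by linarith [sq_nonneg (lm / (ld - x * lm))]
  have hk1 : 1 ≤ k := by
    have : (0 : ℝ) < k := by linarith
    exact_mod_cast this
  obtain ⟨s, hsk, hs, hmass⟩ := exists_mass hk1 (by linarith : (0 : ℝ) ≤ x) hx1
  rw [abs_lt] at hs
  have hsqk : 4 < √(k : ℝ) := by
    rw [Real.lt_sqrt (by norm_num)]; linarith [show (4 : ℝ) ^ 2 = 16 by norm_num]
  have hsq : √(k : ℝ) * √(k : ℝ) = k := Real.mul_self_sqrt (by positivity)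
  refine ⟨s, ?_, hsk, ?_, ?_⟩
  · have : (0 : ℝ) < s := by nlinarith [hs.1]
    exact_mod_cast this
  · have h1 : (s : ℝ) * lm < k * ld := by
      have h2 : lm / (ld - x * lm) < √k := by
        rw [Real.lt_sqrt (by positivity)]; linarith
      rw [div_lt_iff₀ hΔ] at h2
      have h3 : √(k : ℝ) * lm < k * (ld - x * lm) := by
        calc √(k : ℝ) * lm < √(k : ℝ) * (√(k : ℝ) * (ld - x * lm)) :=
              mul_lt_mul_of_pos_left h2 (by linarith)
          _ = k * (ld - x * lm) := by rw [← mul_assoc, hsq]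
      nlinarith [mul_le_mul_of_nonneg_right hs.2.le hlm0]
    have h4 : Real.log ((m : ℝ) ^ s) < Real.log ((d : ℝ) ^ k) := by
      rw [Real.log_pow, Real.log_pow]; exact h1
    have h5 : (m : ℝ) ^ s < (d : ℝ) ^ k :=
      (Real.log_lt_log_iff (by positivity) (by positivity)).1 h4
    exact_mod_cast h5
  · have h6 : x ^ s * (1 - x) ^ (k - s) = ((d : ℝ) - 1) ^ s / d ^ k := by
      rw [h1x, hx, div_pow, one_div, inv_pow, div_mul_eq_mul_div, ← div_eq_mul_inv, div_div,
        ← pow_add]
      congr 2; omega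
    rw [mul_assoc, h6] at hmass
    have hdk : (0 : ℝ) < (d : ℝ) ^ k := by positivity
    calc (d : ℝ) ^ k / (4 * √k) = d ^ k * (1 / (4 * √k)) := by ring
      _ ≤ d ^ k * ((k.choose s : ℝ) * (((d : ℝ) - 1) ^ s / d ^ k)) :=
          mul_le_mul_of_nonneg_left hmass hdk.le
      _ = (k.choose s : ℝ) * ((d : ℝ) - 1) ^ s := by field_simp

end Pool.Agent.Helper8.BinCount
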