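import Mathlib
import Pool.Agent.Helper8.BinCount

/-!
MP_fd8838_nt, unboundedness of the exceptional set over the admissible families.

For all coprime `d ≥ 2`, `m ≥ 1` with `m ≤ d ^ (d / (d - 1))` there are `c > 0` and `B₀` such that for
every `B ≥ B₀` there is an admissible family `r` with `-B ≤ r j < 0` whose exceptional set
`E(d, m, r)` contains at least `c B / (log B) ^ (3/2)` elements, all of them periodic under `H`.
-/

set_option autoImplicit false

namespace Pool.Agent.Helper8.GrowthInR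

/-- The generalized Hasse–Syracuse map: `m x - r (x mod d)` divided by the full power of `d`
dividing it. -/
noncomputable def H (d m : ℕ) (r : ℤ → ℤ) (x : ℤ) : ℤ :=
  ((m : ℤ) * x - r (x % (d : ℤ))) / (d : ℤ) ^ (multiplicity (d : ℤ) ((m : ℤ) * x - r (x % (d : ℤ))))

/-- The exceptional set: positive `n` not divisible by `d`, no iterate of which is below `n`. -/
def E (d m : ℕ) (r : ℤ → ℤ) : Set ℤ :=
  {n : ℤ | 0 < n ∧ ¬ ((d : ℤ) ∣ n) ∧ ∀ k : ℕ, ¬ ((H d m r)^[k] n < n)}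

/-- Admissibility of the family `r`. -/
def Admissible (d m : ℕ) (r : ℤ → ℤ) : Prop :=
  ∀ j : ℤ, 0 < j → j < (d : ℤ) → r j ≡ (m : ℤ) * j [ZMOD (d : ℤ)]

/-- The one-step map `T`. -/
def T (d m : ℕ) (r : ℤ → ℤ) (x : ℤ) : ℤ :=
  if (d : ℤ) ∣ x then x / d else ((m : ℤ) * x - r (x % (d : ℤ))) / d

section Dynamics

variable {d m : ℕ} {r : ℤ → ℤ}

theorem emod_pos {x : ℤ} (hd : 2 ≤ d) (hx : ¬ (d : ℤ) ∣ x) : 0 < x % d ∧ x % d < d := by
  have hd0 : (0 : ℤ) < d := by omega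
  refine ⟨lt_of_le_of_ne (Int.emod_nonneg x hd0.ne') ?_, Int.emod_lt_of_pos x hd0⟩
  intro h
  exact hx (Int.dvd_of_emod_eq_zero h.symm)

theorem dvd_step (hd : 2 ≤ d) (hr : Admissible d m r) {x : ℤ} (hx : ¬ (d : ℤ) ∣ x) :
    (d : ℤ) ∣ (m : ℤ) * x - r (x % d) := by
  obtain ⟨h1, h2⟩ := emod_pos hd hx
  have h3 := hr (x % d) h1 h2
  have h4 : (m : ℤ) * (x % d) ≡ (m : ℤ) * x [ZMOD (d : ℤ)] :=
    Int.ModEq.mul_left _ (Int.mod_modEq x d)
  exact (h3.trans h4).dvd

/-- The quantity `m x - r (x mod d)` is positive if `x > 0` and the `r j` are negative. -/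
theorem step_pos (hd : 2 ≤ d) (hneg : ∀ j : ℤ, 0 < j → j < (d : ℤ) → r j < 0) {x : ℤ}
    (hx0 : 0 < x) (hx : ¬ (d : ℤ) ∣ x) : 0 < (m : ℤ) * x - r (x % d) := by
  obtain ⟨h1, h2⟩ := emod_pos hd hx
  have := hneg _ h1 h2
  have : 0 ≤ (m : ℤ) * x := by positivity
  omega

/-- Dividing out powers of `d` by `T`. -/
theorem T_iter_dvd (hd : 2 ≤ d) : ∀ (b : ℕ) (u : ℤ), (T d m r)^[b] ((d : ℤ) ^ b * u) = u
  | 0, u => by simp
  | b + 1, u => by
      have hd0 : (d : ℤ) ≠ 0 := by omega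
      rw [Function.iterate_succ_apply]
      have h1 : T d m r ((d : ℤ) ^ (b + 1) * u) = (d : ℤ) ^ b * u := by
        have h2 : (d : ℤ) ∣ (d : ℤ) ^ (b + 1) * u := ⟨(d : ℤ) ^ b * u, by ring⟩
        rw [T, if_pos h2, show (d : ℤ) ^ (b + 1) * u = d * ((d : ℤ) ^ b * u) by ring,
          Int.mul_ediv_cancel_left _ hd0]
      rw [h1, T_iter_dvd hd b u]

/-- The structure of one `H`-step in terms of `T`-steps. -/
theorem H_eq (hd : 2 ≤ d) (hr : Admissible d m r)
    (hneg : ∀ j : ℤ, 0 < j → j < (d : ℤ) → r j < 0) {x : ℤ} (hx0 : 0 < x) (hx : ¬ (d : ℤ) ∣ x) :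
    0 < H d m r x ∧ ¬ (d : ℤ) ∣ H d m r x ∧ ∃ a : ℕ, 1 ≤ a ∧ (T d m r)^[a] x = H d m r x ∧
      ∀ b, 1 ≤ b → b < a → (d : ℤ) ∣ (T d m r)^[b] x := by
  have hd0 : (d : ℤ) ≠ 0 := by omega
  have hpos : 0 < (m : ℤ) * x - r (x % d) := step_pos hd hneg hx0 hx
  set y := (m : ℤ) * x - r (x % d) with hy
  have hfin : FiniteMultiplicity (d : ℤ) y := by
    rw [Int.finiteMultiplicity_iff]
    exact ⟨by simp; omega, hpos.ne'⟩
  obtain ⟨u, hu, hdu⟩ := hfin.exists_eq_pow_mul_and_not_dvd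
  set a := multiplicity (d : ℤ) y with ha
  have ha1 : 1 ≤ a := by
    have h1 : (d : ℤ) ^ 1 ∣ y := by rw [pow_one]; exact dvd_step hd hr hx
    exact hfin.le_multiplicity_of_pow_dvd h1
  have hH : H d m r x = u := by
    rw [H, ← hy, ← ha, hu, Int.mul_ediv_cancel_left _ (pow_ne_zero _ hd0)]
  have hT1 : T d m r x = (d : ℤ) ^ (a - 1) * u := by
    rw [T, if_neg hx, ← hy, hu]
    obtain ⟨a', ha'⟩ : ∃ a', a = a' + 1 := ⟨a - 1, by omega⟩
    rw [ha', Nat.add_sub_cancel, show (d : ℤ) ^ (a' + 1) * u = d * ((d : ℤ) ^ a' * u) by ring,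
      Int.mul_ediv_cancel_left _ hd0]
  have hupos : 0 < u := by
    rw [hu] at hpos
    have : (0 : ℤ) < (d : ℤ) ^ a := by positivity
    exact (pos_iff_pos_of_mul_pos hpos).1 this
  refine ⟨hH ▸ hupos, hH ▸ hdu, a, ha1, ?_, ?_⟩
  · obtain ⟨a', ha'⟩ : ∃ a', a = a' + 1 := ⟨a - 1, by omega⟩
    rw [ha', Function.iterate_succ_apply, hT1, ha', Nat.add_sub_cancel, T_iter_dvd hd, hH]
  · intro b hb1 hba
    obtain ⟨b', rfl⟩ : ∃ b', b = b' + 1 := ⟨b - 1, by omega⟩
    rw [Function.iterate_succ_apply, hT1]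
    have : (d : ℤ) ^ (a - 1) * u = (d : ℤ) ^ b' * ((d : ℤ) ^ (a - 1 - b') * u) := by
      rw [← mul_assoc, ← pow_add]; congr 2; omega
    rw [this, T_iter_dvd hd]
    exact Dvd.dvd.mul_right (dvd_pow_self _ (by omega)) _

theorem T_pos (hd : 2 ≤ d) (hr : Admissible d m r)
    (hneg : ∀ j : ℤ, 0 < j → j < (d : ℤ) → r j < 0) {x : ℤ} (hx0 : 0 < x) : 0 < T d m r x := by
  have hd0 : (0 : ℤ) < d := by omega
  rw [T]
  split_ifs with h
  · exact Int.ediv_pos_of_pos_of_dvd hx0 hd0.le h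
  · exact Int.ediv_pos_of_pos_of_dvd (step_pos hd hneg hx0 h) hd0.le (dvd_step hd hr h)

/-- Every point of the `H`-orbit is a point of the `T`-orbit. -/
theorem H_iter_eq (hd : 2 ≤ d) (hr : Admissible d m r)
    (hneg : ∀ j : ℤ, 0 < j → j < (d : ℤ) → r j < 0) :
    ∀ (k : ℕ) (x : ℤ), 0 < x → ¬ (d : ℤ) ∣ x → ∃ i, (H d m r)^[k] x = (T d m r)^[i] x
  | 0, x, _, _ => ⟨0, rfl⟩
  | k + 1, x, hx0, hx => by
      obtain ⟨h1, h2, a, -, h3, -⟩ := H_eq hd hr hneg hx0 hx
      obtain ⟨i, hi⟩ := H_iter_eq hd hr hneg k _ h1 h2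
      refine ⟨i + a, ?_⟩
      rw [Function.iterate_succ_apply, hi, ← h3, ← Function.iterate_add_apply]

/-- Every point of the `T`-orbit that is not divisible by `d` lies on the `H`-orbit. -/
theorem T_iter_eq (hd : 2 ≤ d) (hr : Admissible d m r)
    (hneg : ∀ j : ℤ, 0 < j → j < (d : ℤ) → r j < 0) (i : ℕ) :
    ∀ (x : ℤ), 0 < x → ¬ (d : ℤ) ∣ x → 1 ≤ i → ¬ (d : ℤ) ∣ (T d m r)^[i] x →
      ∃ p, 1 ≤ p ∧ (H d m r)^[p] x = (T d m r)^[i] x := by
  induction i using Nat.strong_induction_on with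
  | _ i ih =>
    intro x hx0 hx hi hTi
    obtain ⟨h1, h2, a, ha1, h3, h4⟩ := H_eq hd hr hneg hx0 hx
    have hai : a ≤ i := by
      by_contra hcon
      exact hTi (h4 i hi (by omega))
    rcases Nat.eq_or_lt_of_le hai with rfl | hlt
    · exact ⟨1, le_rfl, by rw [Function.iterate_one, h3]⟩
    · have h5 : (T d m r)^[i] x = (T d m r)^[i - a] (H d m r x) := by
        rw [← h3, ← Function.iterate_add_apply]; congr 1; omega
      obtain ⟨p, hp1, hp⟩ := ih (i - a) (by omega) (H d m r x) h1 h2 (by omega) (h5 ▸ hTi)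
      refine ⟨p + 1, by omega, ?_⟩
      rw [Function.iterate_succ_apply, hp, h5]

/-- The minimum of a `T`-cycle is a periodic element of `E`. -/
theorem min_mem (hd : 2 ≤ d) (hr : Admissible d m r)
    (hneg : ∀ j : ℤ, 0 < j → j < (d : ℤ) → r j < 0) {k : ℕ} (hk : 1 ≤ k) {y : ℤ} (hy0 : 0 < y)
    (hper : (T d m r)^[k] y = y) (hmin : ∀ i, y ≤ (T d m r)^[i] y) :
    y ∈ E d m r ∧ ∃ p, 1 ≤ p ∧ (H d m r)^[p] y = y := by
  have hd0 : (0 : ℤ) < d := by omega
  have hy : ¬ (d : ℤ) ∣ y := by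
    intro h
    have h1 := hmin 1
    rw [Function.iterate_one, T, if_pos h] at h1
    obtain ⟨z, rfl⟩ := h
    rw [Int.mul_ediv_cancel_left _ hd0.ne'] at h1
    have hz : 0 < z := (pos_iff_pos_of_mul_pos hy0).1 hd0
    nlinarith
  refine ⟨⟨hy0, hy, fun l hl => ?_⟩, ?_⟩
  · obtain ⟨i, hi⟩ := H_iter_eq hd hr hneg l y hy0 hy
    have := hmin i
    rw [hi] at hl
    omega
  · obtain ⟨p, hp1, hp⟩ := T_iter_eq hd hr hneg k y hy0 hy hk (by rw [hper]; exact hy)
    exact ⟨p, hp1, hp.trans hper⟩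

end Dynamics

section Cycles

/-- The number of nonzero letters. -/
def nz (w : List ℕ) : ℕ := w.countP (fun j => decide (j ≠ 0))

/-- The starting point of the cycle with residue word `w`. -/
def N (d m : ℕ) (e : ℤ → ℤ) : List ℕ → ℤ
  | [] => 0
  | j :: L => e j * (m : ℤ) ^ nz L + d * N d m e L

variable {d m : ℕ} {e : ℤ → ℤ}

theorem nz_cons (j : ℕ) (L : List ℕ) : nz (j :: L) = nz L + (if j = 0 then 0 else 1) := by
  unfold nz
  rw [List.countP_cons]
  by_cases h : j = 0 <;> simp [h]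

theorem nz_append (L M : List ℕ) : nz (L ++ M) = nz L + nz M := by
  unfold nz; exact List.countP_append

theorem N_append : ∀ (L M : List ℕ), N d m e (L ++ M) =
    N d m e L * (m : ℤ) ^ nz M + (d : ℤ) ^ L.length * N d m e M
  | [], M => by simp [N]
  | j :: L, M => by
      rw [List.cons_append, N, N, N_append L M, nz_append, List.length_cons]
      ring

theorem nz_rotate (w : List ℕ) (i : ℕ) : nz (w.rotate i) = nz w := by
  unfold nz
  exact (List.rotate_perm w i).countP_eq _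

/-- `N w > 0` as soon as `w` has a nonzero letter, if the `e j` are positive for nonzero letters. -/
theorem N_nonneg (he0 : e 0 = 0) (he : ∀ j : ℤ, 0 < j → j < (d : ℤ) → 0 < e j) :
    ∀ w : List ℕ, (∀ j ∈ w, j < d) → 0 ≤ N d m e w
  | [], _ => le_rfl
  | j :: L, h => by
      rw [N]
      have h1 : 0 ≤ N d m e L := N_nonneg he0 he L (fun i hi => h i (List.mem_cons_of_mem _ hi))
      have h2 : 0 ≤ e j := by
        rcases Nat.eq_zero_or_pos j with rfl | hj
        · simp [he0]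
        · exact (he j (by exact_mod_cast hj) (by exact_mod_cast h j List.mem_cons_self)).le
      positivity

theorem N_pos (hd : 2 ≤ d) (hm : 1 ≤ m) (he0 : e 0 = 0)
    (he : ∀ j : ℤ, 0 < j → j < (d : ℤ) → 0 < e j) :
    ∀ w : List ℕ, (∀ j ∈ w, j < d) → 1 ≤ nz w → 0 < N d m e w
  | [], _, h => by simp [nz] at h
  | j :: L, h, hnz => by
      rw [N]
      have hL : ∀ i ∈ L, i < d := fun i hi => h i (List.mem_cons_of_mem _ hi)
      have h1 : 0 ≤ N d m e L := N_nonneg he0 he L hL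
      rcases Nat.eq_zero_or_pos j with rfl | hj
      · have h2 : 1 ≤ nz L := by rw [nz_cons] at hnz; simpa using hnz
        have h3 := N_pos hd hm he0 he L hL h2
        have : (0 : ℤ) < d := by omega
        simp only [Nat.cast_zero, he0, zero_mul, zero_add]
        positivity
      · have h2 : 0 < e j := he j (by exact_mod_cast hj) (by exact_mod_cast h j List.mem_cons_self)
        have h3 : (0 : ℤ) < m := by exact_mod_cast hm
        positivity

/-- The data of the construction. -/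
structure Data (d m k s : ℕ) (q t : ℤ) (e r : ℤ → ℤ) : Prop where
  hd : 2 ≤ d
  hm : 1 ≤ m
  hs : 1 ≤ s
  hq : q = (d : ℤ) ^ k - (m : ℤ) ^ s
  hq0 : 0 < q
  hqt : q * t ≡ 1 [ZMOD (d : ℤ)]
  he : ∀ j, e j ≡ -(t * (m * j)) [ZMOD (d : ℤ)]
  he0 : e 0 = 0
  hepos : ∀ j : ℤ, 0 < j → j < (d : ℤ) → 0 < e j
  hr : ∀ j, r j = -(q * e j)

theorem Data.k_pos {k s : ℕ} {q t : ℤ} {r : ℤ → ℤ} (D : Data d m k s q t e r) : 1 ≤ k := by
  rcases Nat.eq_zero_or_pos k with rfl | h
  · exfalso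
    have h1 := D.hq0
    rw [D.hq, pow_zero] at h1
    have h2 : (1 : ℤ) ≤ (m : ℤ) ^ s := one_le_pow₀ (by exact_mod_cast D.hm)
    omega
  · exact h

theorem Data.q_mod {k s : ℕ} {q t : ℤ} {r : ℤ → ℤ} (D : Data d m k s q t e r) :
    q ≡ -(m : ℤ) ^ s [ZMOD (d : ℤ)] := by
  rw [D.hq]
  have h1 : (d : ℤ) ^ k ≡ 0 [ZMOD (d : ℤ)] :=
    (Int.modEq_zero_iff_dvd).2 (dvd_pow_self _ (by have := D.k_pos; omega))
  have := h1.sub_right ((m : ℤ) ^ s)
  rwa [zero_sub] at this

theorem Data.adm {k s : ℕ} {q t : ℤ} {r : ℤ → ℤ} (D : Data d m k s q t e r) :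
    Admissible d m r := by
  intro j _ _
  rw [D.hr]
  have h1 : -(q * e j) ≡ -(q * -(t * (m * j))) [ZMOD (d : ℤ)] := ((D.he j).mul_left q).neg
  refine h1.trans ?_
  have h2 := D.hqt.mul_right (m * j)
  have h3 : -(q * -(t * (m * j))) = q * t * (m * j) := by ring
  rw [h3]
  simpa using h2

theorem Data.neg {k s : ℕ} {q t : ℤ} {r : ℤ → ℤ} (D : Data d m k s q t e r) :
    ∀ j : ℤ, 0 < j → j < (d : ℤ) → r j < 0 := by
  intro j h1 h2
  rw [D.hr]
  have := D.hepos j h1 h2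
  have := D.hq0
  have : 0 < q * e j := by positivity
  omega

/-- The first residue of `N w`. -/
theorem Data.N_mod {k s : ℕ} {q t : ℤ} {r : ℤ → ℤ} (D : Data d m k s q t e r) (j : ℕ)
    (L : List ℕ) (hj : j < d) (hnz : nz (j :: L) = s) : N d m e (j :: L) % d = j := by
  have hd0 : (0 : ℤ) < d := by have := D.hd; omega
  have h1 : N d m e (j :: L) ≡ e j * (m : ℤ) ^ nz L [ZMOD (d : ℤ)] := by
    rw [N]
    have : (d : ℤ) * N d m e L ≡ 0 [ZMOD (d : ℤ)] := (Int.modEq_zero_iff_dvd).2 (dvd_mul_right _ _)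
    simpa using this.add_left (e j * (m : ℤ) ^ nz L)
  have h2 : e j * (m : ℤ) ^ nz L ≡ j [ZMOD (d : ℤ)] := by
    rcases Nat.eq_zero_or_pos j with rfl | hj0
    · simp [D.he0]
    · have h3 : nz L + 1 = s := by
        rw [nz_cons, if_neg (by omega)] at hnz; exact hnz
      have h4 : e j * (m : ℤ) ^ nz L ≡ -(t * (m * j)) * (m : ℤ) ^ nz L [ZMOD (d : ℤ)] :=
        (D.he j).mul_right _
      have h5 : -(t * ((m : ℤ) * j)) * (m : ℤ) ^ nz L = (t * j) * (-(m : ℤ) ^ s) := by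
        rw [← h3, pow_succ]; ring
      rw [h5] at h4
      have h6 : (t * j) * (-(m : ℤ) ^ s) ≡ (t * j) * q [ZMOD (d : ℤ)] := (D.q_mod.symm).mul_left _
      have h7 : (t * (j : ℤ)) * q = (q * t) * j := by ring
      have h8 : (q * t) * (j : ℤ) ≡ 1 * j [ZMOD (d : ℤ)] := D.hqt.mul_right _
      rw [one_mul] at h8
      exact h4.trans (h6.trans (h7 ▸ h8))
  have h3 := h1.trans h2
  rw [Int.ModEq] at h3
  rw [h3]
  exact Int.emod_eq_of_lt (by positivity) (by exact_mod_cast hj)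

/-- One `T`-step rotates the word. -/
theorem Data.T_N {k s : ℕ} {q t : ℤ} {r : ℤ → ℤ} (D : Data d m k s q t e r) (j : ℕ)
    (L : List ℕ) (hj : j < d) (hnz : nz (j :: L) = s) (hlen : L.length + 1 = k) :
    T d m r (N d m e (j :: L)) = N d m e (L ++ [j]) := by
  have hd0 : (0 : ℤ) < d := by have := D.hd; omega
  have hmod := D.N_mod j L hj hnz
  have happ : N d m e (L ++ [j]) = N d m e L * (m : ℤ) ^ nz [j] + (d : ℤ) ^ L.length * e j := by
    rw [N_append]
    simp [N, nz]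
  rcases Nat.eq_zero_or_pos j with rfl | hj0
  · have h1 : (d : ℤ) ∣ N d m e (0 :: L) := Int.dvd_of_emod_eq_zero (by simpa using hmod)
    rw [T, if_pos h1, happ]
    have h2 : N d m e (0 :: L) = d * N d m e L := by
      rw [N]; simp [D.he0]
    rw [h2, Int.mul_ediv_cancel_left _ hd0.ne']
    simp [nz, D.he0]
  · have h1 : ¬ (d : ℤ) ∣ N d m e (j :: L) := by
      intro h
      have := Int.emod_eq_zero_of_dvd h
      rw [hmod] at this
      omega
    rw [T, if_neg h1, happ, hmod, D.hr, N]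
    have h3 : nz L + 1 = s := by
      rw [nz_cons, if_neg (by omega)] at hnz; exact hnz
    have h4 : nz [j] = 1 := by
      rw [nz_cons, if_neg (by omega)]; simp [nz]
    rw [h4, pow_one]
    have h5 : (m : ℤ) * (e j * (m : ℤ) ^ nz L + d * N d m e L) - -(q * e j) =
        d * (N d m e L * m + (d : ℤ) ^ L.length * e j) := by
      rw [D.hq, ← h3, ← hlen]; ring
    rw [h5, Int.mul_ediv_cancel_left _ hd0.ne']

theorem Data.T_iter {k s : ℕ} {q t : ℤ} {r : ℤ → ℤ} (D : Data d m k s q t e r) :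
    ∀ (i : ℕ) (w : List ℕ), (∀ j ∈ w, j < d) → nz w = s → w.length = k →
      (T d m r)^[i] (N d m e w) = N d m e (w.rotate i)
  | 0, w, _, _, _ => by simp
  | i + 1, w, h1, h2, h3 => by
      match w, h1, h2, h3 with
      | [], _, _, h3 =>
        exfalso
        have := D.k_pos
        simp at h3; omega
      | j :: L, h1, h2, h3 =>
        rw [Function.iterate_succ_apply, D.T_N j L (h1 j List.mem_cons_self) h2
          (by simpa using h3), List.rotate_cons_succ]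
        refine D.T_iter i (L ++ [j]) ?_ ?_ ?_
        · intro l hl
          rw [List.mem_append, List.mem_singleton] at hl
          rcases hl with hl | rfl
          · exact h1 l (List.mem_cons_of_mem _ hl)
          · exact h1 l List.mem_cons_self
        · rw [← h2, nz_append, nz_cons, nz_cons]; simp [nz]
        · simpa using h3

/-- The letters of `w` are the residues of the orbit of `N w`. -/
theorem Data.letter {k s : ℕ} {q t : ℤ} {r : ℤ → ℤ} (D : Data d m k s q t e r) (i : ℕ)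
    (w : List ℕ) (h1 : ∀ j ∈ w, j < d) (h2 : nz w = s) (h3 : w.length = k) (hi : i < w.length) :
    ((w[i] : ℕ) : ℤ) = ((T d m r)^[i] (N d m e w)) % d := by
  rw [D.T_iter i w h1 h2 h3]
  have h4 : nz (w.rotate i) = s := by rw [nz_rotate, h2]
  have h5 : w.rotate i ≠ [] := by
    rw [Ne, List.rotate_eq_nil_iff]
    rintro rfl
    simp at hi
  obtain ⟨j, L, hjL⟩ := List.exists_cons_of_ne_nil h5
  have h6 : w[i] = j := by
    have h7 : (w.rotate i)[0]'(by rw [List.length_rotate]; omega) = w[i] := by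
      rw [List.getElem_rotate]
      simp [Nat.mod_eq_of_lt hi]
    rw [← h7]
    simp [hjL]
  rw [hjL] at h4 ⊢
  rw [D.N_mod j L ?_ h4, h6]
  rw [← h6]
  exact h1 _ (List.getElem_mem hi)

theorem Data.inj {k s : ℕ} {q t : ℤ} {r : ℤ → ℤ} (D : Data d m k s q t e r)
    {w w' : List ℕ} (h1 : ∀ j ∈ w, j < d) (h2 : nz w = s) (h3 : w.length = k)
    (h1' : ∀ j ∈ w', j < d) (h2' : nz w' = s) (h3' : w'.length = k)
    (h : N d m e w = N d m e w') : w = w' := by
  refine List.ext_getElem (h3.trans h3'.symm) fun i hi hi' => ?_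
  have h5 := D.letter i w h1 h2 h3 hi
  have h6 := D.letter i w' h1' h2' h3' hi'
  rw [h] at h5
  have := h5.trans h6.symm
  exact_mod_cast this

open Pool.Agent.Helper8.BinCount in
/-- The cycles of the construction give many periodic elements of `E`. -/
theorem Data.many {k s : ℕ} {q t : ℤ} {r : ℤ → ℤ} (D : Data d m k s q t e r) :
    ∃ S : Finset ℤ, (∀ n ∈ S, n ∈ E d m r ∧ ∃ p, 1 ≤ p ∧ (H d m r)^[p] n = n) ∧
      k.choose s * (d - 1) ^ s ≤ k * S.card := by
  classical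
  have hd := D.hd
  have hk := D.k_pos
  set P : Finset ℤ := (words d k s).image (N d m e) with hP
  have hPcard : P.card = k.choose s * (d - 1) ^ s := by
    rw [hP, Finset.card_image_of_injOn, card_words]
    intro w hw w' hw' h
    obtain ⟨h1, h2, h3⟩ := mem_words (by omega) hw
    obtain ⟨h1', h2', h3'⟩ := mem_words (by omega) hw'
    exact D.inj h2 h3 h1 h2' h3' h1' h
  have hprop : ∀ x ∈ P, (T d m r)^[k] x = x ∧ 0 < x := by
    intro x hx
    rw [hP, Finset.mem_image] at hx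
    obtain ⟨w, hw, rfl⟩ := hx
    obtain ⟨h1, h2, h3⟩ := mem_words (by omega) hw
    refine ⟨?_, N_pos hd D.hm D.he0 D.hepos w h2 (by rw [nz, h3]; exact D.hs)⟩
    rw [D.T_iter k w h2 h3 h1, ← h1, List.rotate_length]
  -- the minimum over the cycle
  have hne : (Finset.range k).Nonempty := ⟨0, by simp; omega⟩
  set M : ℤ → ℤ := fun x => (Finset.range k).inf' hne (fun i => (T d m r)^[i] x) with hM
  have hMex : ∀ x, ∃ i < k, M x = (T d m r)^[i] x := by
    intro x
    obtain ⟨i, hi, h⟩ := Finset.exists_mem_eq_inf' hne (fun i => (T d m r)^[i] x)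
    exact ⟨i, Finset.mem_range.1 hi, h⟩
  have hTpos : ∀ (i : ℕ) (x : ℤ), 0 < x → 0 < (T d m r)^[i] x := by
    intro i
    induction i with
    | zero => intro x hx; exact hx
    | succ i ih =>
      intro x hx
      rw [Function.iterate_succ_apply]
      exact ih _ (T_pos hd D.adm D.neg hx)
  have hiter_mod : ∀ x, (T d m r)^[k] x = x → ∀ i, (T d m r)^[i] x = (T d m r)^[i % k] x := by
    intro x hx i
    exact (Function.IsPeriodicPt.iterate_mod_apply (f := T d m r) (n := k) hx i).symm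
  refine ⟨P.image M, ?_, ?_⟩
  · intro n hn
    rw [Finset.mem_image] at hn
    obtain ⟨x, hx, rfl⟩ := hn
    obtain ⟨hper, hpos⟩ := hprop x hx
    obtain ⟨i, hi, hMi⟩ := hMex x
    refine min_mem hd D.adm D.neg hk (k := k) ?_ ?_ ?_
    · rw [hMi]; exact hTpos i x hpos
    · rw [hMi, ← Function.iterate_add_apply, Nat.add_comm, Function.iterate_add_apply, hper]
    · intro l
      rw [hMi, ← Function.iterate_add_apply, ← hMi, hiter_mod x hper]
      exact Finset.inf'_le (fun i => (T d m r)^[i] x)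
        (Finset.mem_range.2 (Nat.mod_lt _ (by omega)))
  · rw [← hPcard]
    refine Finset.card_le_mul_card_image P k fun y _ => ?_
    calc (P.filter (fun x => M x = y)).card
        ≤ ((Finset.range k).image (fun i => (T d m r)^[k - i] y)).card := by
          refine Finset.card_le_card fun x hx => ?_
          rw [Finset.mem_filter] at hx
          obtain ⟨hxP, rfl⟩ := hx
          obtain ⟨i, hi, hMi⟩ := hMex x
          rw [Finset.mem_image]
          refine ⟨i, Finset.mem_range.2 hi, ?_⟩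
          rw [hMi, ← Function.iterate_add_apply, Nat.sub_add_cancel hi.le, (hprop x hxP).1]
      _ ≤ k := (Finset.card_image_le).trans (by simp)

/-- Existence of the data with the bound on `r`. -/
theorem exists_data (hd : 2 ≤ d) (hm : 1 ≤ m) (hcop : Nat.Coprime m d) {k s : ℕ} (hk : 1 ≤ k)
    (hs : 1 ≤ s) (hlt : m ^ s < d ^ k) :
    ∃ (q t : ℤ) (e r : ℤ → ℤ), Data d m k s q t e r ∧
      ∀ j : ℤ, 0 < j → j < (d : ℤ) → -((d : ℤ) ^ (k + 2)) ≤ r j := by
  have hd0 : (0 : ℤ) < d := by omega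
  have hq : Nat.Coprime (d ^ k - m ^ s) d := by
    have h1 : Nat.Coprime (m ^ s) d := Nat.Coprime.pow_left s hcop
    rw [Nat.coprime_iff_gcd_eq_one, ← Nat.dvd_one]
    set g := Nat.gcd (d ^ k - m ^ s) d
    have h2 : g ∣ d := Nat.gcd_dvd_right _ _
    have h3 : g ∣ d ^ k - m ^ s := Nat.gcd_dvd_left _ _
    have h4 : g ∣ d ^ k := h2.trans (dvd_pow_self _ (by omega))
    have h5 : g ∣ m ^ s := by
      have h6 := Nat.dvd_sub h4 h3
      rwa [Nat.sub_sub_self hlt.le] at h6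
    have := Nat.dvd_gcd h5 h2
    rwa [Nat.coprime_iff_gcd_eq_one.1 h1] at this
  obtain ⟨y, hy⟩ := Int.mod_coprime hq
  set q : ℤ := ((d ^ k - m ^ s : ℕ) : ℤ) with hqdef
  have hqeq : q = (d : ℤ) ^ k - (m : ℤ) ^ s := by
    rw [hqdef, Nat.cast_sub hlt.le]; push_cast; ring
  set t : ℤ := y % d with ht
  have hqt : q * t ≡ 1 [ZMOD (d : ℤ)] := ((Int.mod_modEq y d).mul_left q).trans hy
  have ht0 : 0 ≤ t := Int.emod_nonneg _ hd0.ne'
  have htd : t < d := Int.emod_lt_of_pos _ hd0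
  have htpos : 0 < t := by
    rcases ht0.lt_or_eq with h | h
    · exact h
    · exfalso
      rw [← h, mul_zero] at hqt
      have := (Int.modEq_iff_dvd.1 hqt)
      rw [sub_zero] at this
      have := Int.le_of_dvd one_pos this
      omega
  have hq0 : 0 < q := by
    rw [hqdef]
    have := Nat.sub_pos_of_lt hlt
    exact_mod_cast this
  refine ⟨q, t, fun j => t * ((-(m * j)) % d), fun j => -(q * (t * ((-(m * j)) % d))),
    ⟨hd, hm, hs, hqeq, hq0, hqt, ?_, ?_, ?_, fun j => rfl⟩, ?_⟩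
  · intro j
    have h1 : t * ((-(m * j)) % d) ≡ t * (-(m * j)) [ZMOD (d : ℤ)] :=
      (Int.mod_modEq _ _).mul_left _
    have h2 : t * (-((m : ℤ) * j)) = -(t * (m * j)) := by ring
    exact h2 ▸ h1
  · simp
  · intro j hj1 hj2
    have h1 : 0 ≤ (-((m : ℤ) * j)) % d := Int.emod_nonneg _ hd0.ne'
    have h2 : (-((m : ℤ) * j)) % d ≠ 0 := by
      intro h
      have h3 : (d : ℤ) ∣ (m : ℤ) * j := by
        have := Int.dvd_of_emod_eq_zero h
        rwa [dvd_neg] at this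
      have h4 : (d : ℤ) ∣ j := by
        refine Int.dvd_of_dvd_mul_right_of_gcd_one h3 ?_
        rw [Int.gcd_natCast_natCast, Nat.gcd_comm]; exact hcop
      have := Int.le_of_dvd hj1 h4
      omega
    have h3 : 0 < (-((m : ℤ) * j)) % d := lt_of_le_of_ne h1 (Ne.symm h2)
    positivity
  · intro j _ _
    have h1 : (-((m : ℤ) * j)) % d < d := Int.emod_lt_of_pos _ hd0
    have h0 : 0 ≤ (-((m : ℤ) * j)) % d := Int.emod_nonneg _ hd0.ne'
    have h2 : q ≤ (d : ℤ) ^ k := by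
      rw [hqeq]
      have : (0 : ℤ) ≤ (m : ℤ) ^ s := by positivity
      omega
    have h3 : t * ((-((m : ℤ) * j)) % d) ≤ d * d := mul_le_mul htd.le h1.le h0 hd0.le
    have h4 : q * (t * ((-((m : ℤ) * j)) % d)) ≤ (d : ℤ) ^ k * (d * d) :=
      mul_le_mul h2 h3 (mul_nonneg ht0 h0) (by positivity)
    have h5 : (d : ℤ) ^ (k + 2) = (d : ℤ) ^ k * (d * d) := by ring
    rw [h5]
    simpa using h4

end Cycles

/-- The condition `m ≤ d ^ (d / (d - 1))` with `m` coprime to `d` is strict. -/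
theorem strict {d m : ℕ} (hd : 2 ≤ d) (hcop : Nat.Coprime m d)
    (hle : (m : ℝ) ≤ (d : ℝ) ^ ((d : ℝ) / ((d : ℝ) - 1))) : m ^ (d - 1) < d ^ d := by
  have hd0 : (0 : ℝ) < d := by positivity
  have hd2 : (2 : ℝ) ≤ d := by exact_mod_cast hd
  have h1 : (m : ℝ) ^ (d - 1) ≤ (d : ℝ) ^ d := by
    calc (m : ℝ) ^ (d - 1) ≤ ((d : ℝ) ^ ((d : ℝ) / ((d : ℝ) - 1))) ^ (d - 1) :=
          pow_le_pow_left₀ (by positivity) hle _
      _ = (d : ℝ) ^ d := by
          rw [← Real.rpow_natCast, ← Real.rpow_mul hd0.le, Nat.cast_sub (by omega), Nat.cast_one,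
            div_mul_cancel₀ _ (by linarith : (d : ℝ) - 1 ≠ 0), Real.rpow_natCast]
  have h2 : m ^ (d - 1) ≤ d ^ d := by exact_mod_cast h1
  refine lt_of_le_of_ne h2 fun h3 => ?_
  have h4 : Nat.Coprime (m ^ (d - 1)) d := Nat.Coprime.pow_left _ hcop
  rw [h3] at h4
  have h5 : Nat.Coprime d d := Nat.Coprime.coprime_dvd_left (dvd_pow_self d (by omega)) h4
  rw [Nat.coprime_self] at h5
  omega

/-- **Growth of the exceptional set over the admissible families.** -/
theorem result (d m : ℕ) (hd : 2 ≤ d) (hm : 1 ≤ m) (hcop : Nat.Coprime m d)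
    (hle : (m : ℝ) ≤ (d : ℝ) ^ ((d : ℝ) / ((d : ℝ) - 1))) :
    ∃ c : ℝ, 0 < c ∧ ∃ B₀ : ℕ, ∀ B : ℕ, B₀ ≤ B → ∃ r : ℤ → ℤ, Admissible d m r ∧
      (∀ j : ℤ, 0 < j → j < (d : ℤ) → -(B : ℤ) ≤ r j ∧ r j < 0) ∧
      ∃ S : Finset ℤ, (∀ n ∈ S, n ∈ E d m r ∧ ∃ p, 1 ≤ p ∧ (H d m r)^[p] n = n) ∧
        c * B / Real.log B ^ (3 / 2 : ℝ) ≤ S.card := by
  have hd0 : (0 : ℝ) < d := by positivity
  have hd2 : (2 : ℝ) ≤ d := by exact_mod_cast hd
  have hlogd : 0 < Real.log d := Real.log_pos (by linarith)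
  obtain ⟨K, hK⟩ := Helper8.BinCount.exists_good hd hm (strict hd hcop hle)
  refine ⟨Real.log d ^ (3 / 2 : ℝ) / (4 * d ^ 3), by positivity, d ^ (K + 3), fun B hB => ?_⟩
  have hB0 : B ≠ 0 := by
    have : 0 < d ^ (K + 3) := by positivity
    omega
  have hlog : K + 3 ≤ Nat.log d B := Nat.le_log_of_pow_le (by omega) hB
  obtain ⟨k, hk⟩ : ∃ k, Nat.log d B = k + 2 := ⟨Nat.log d B - 2, by omega⟩
  have hkB : d ^ (k + 2) ≤ B := by rw [← hk]; exact Nat.pow_log_le_self d hB0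
  have hBk : B < d ^ (k + 3) := by
    have := Nat.lt_pow_succ_log_self (by omega : 1 < d) B
    rw [hk] at this
    exact this
  have hk1 : 1 ≤ k := by omega
  obtain ⟨s, hs1, hsk, hlt, hmass⟩ := hK k (by omega)
  obtain ⟨q, t, e, r, D, hrB⟩ := exists_data hd hm hcop hk1 hs1 hlt
  obtain ⟨S, hS, hScard⟩ := D.many
  refine ⟨r, D.adm, fun j h1 h2 => ⟨?_, D.neg j h1 h2⟩, S, hS, ?_⟩
  · have h3 : ((d ^ (k + 2) : ℕ) : ℤ) ≤ B := by exact_mod_cast hkB
    push_cast at h3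
    have := hrB j h1 h2
    omega
  · have hk0 : (0 : ℝ) < k := by exact_mod_cast hk1
    have hsqk : 0 < √(k : ℝ) := Real.sqrt_pos.2 hk0
    have h1 : (k.choose s : ℝ) * ((d : ℝ) - 1) ^ s ≤ k * S.card := by
      have h2 : ((k.choose s * (d - 1) ^ s : ℕ) : ℝ) ≤ ((k * S.card : ℕ) : ℝ) := by
        exact_mod_cast hScard
      push_cast [Nat.cast_sub (by omega : 1 ≤ d)] at h2
      exact h2
    have h2 : (d : ℝ) ^ k / (4 * √k) ≤ k * S.card := hmass.trans h1
    have hBR : (B : ℝ) < (d : ℝ) ^ (k + 3) := by exact_mod_cast hBk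
    have hkBR : (d : ℝ) ^ k ≤ B := by
      have : d ^ k ≤ B := (Nat.pow_le_pow_right (by omega) (by omega)).trans hkB
      exact_mod_cast this
    have hlogB : (k : ℝ) * Real.log d ≤ Real.log B := by
      rw [← Real.log_pow]
      exact Real.log_le_log (by positivity) hkBR
    have hkle : (k : ℝ) ≤ Real.log B / Real.log d := by rwa [le_div_iff₀ hlogd]
    have hlogB0 : 0 < Real.log B := lt_of_lt_of_le (by positivity) hlogB
    have hk32 : (k : ℝ) * √k ≤ Real.log B ^ (3 / 2 : ℝ) / Real.log d ^ (3 / 2 : ℝ) := by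
      rw [← Real.div_rpow hlogB0.le hlogd.le]
      calc (k : ℝ) * √k = (k : ℝ) ^ (3 / 2 : ℝ) := by
            rw [Real.sqrt_eq_rpow, show (3 / 2 : ℝ) = 1 + 1 / 2 by norm_num,
              Real.rpow_add hk0, Real.rpow_one]
        _ ≤ _ := Real.rpow_le_rpow hk0.le hkle (by norm_num)
    have hk32pos : 0 < (k : ℝ) * √k := by positivity
    have h3 : (d : ℝ) ^ k / (4 * ((k : ℝ) * √k)) ≤ S.card := by
      rw [div_le_iff₀ (by positivity)]
      rw [div_le_iff₀ (by positivity)] at h2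
      linarith
    refine le_trans ?_ h3
    have hL : 0 < Real.log B ^ (3 / 2 : ℝ) := by positivity
    have hl : 0 < Real.log d ^ (3 / 2 : ℝ) := by positivity
    rw [div_le_div_iff₀ hL (by positivity)]
    rw [le_div_iff₀ hl] at hk32
    have hB3 : (B : ℝ) ≤ (d : ℝ) ^ k * (d : ℝ) ^ 3 := by rw [← pow_add]; exact hBR.le
    calc Real.log d ^ (3 / 2 : ℝ) / (4 * (d : ℝ) ^ 3) * B * (4 * ((k : ℝ) * √k))
        = (B / (d : ℝ) ^ 3) * ((k : ℝ) * √k * Real.log d ^ (3 / 2 : ℝ)) := by field_simp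
      _ ≤ (d : ℝ) ^ k * Real.log B ^ (3 / 2 : ℝ) := by
          refine mul_le_mul ?_ hk32 (by positivity) (by positivity)
          rw [div_le_iff₀ (by positivity)]
          exact hB3

end Pool.Agent.Helper8.GrowthInR
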