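import Mathlib

/-!
# The affine group of a ring

`Aff R = R ⋊ Rˣ` for a (not necessarily commutative) ring `R`, and its basic properties.
-/

set_option autoImplicit false

universe u v

open scoped commutatorElement

namespace Pool.Agent.Helper8

/-- The group of affine maps `x ↦ u x + v` of a ring `R`, with `u` a unit. -/
@[ext] structure Aff (R : Type u) [Ring R] where
  /-- linear part -/
  u : Rˣ
  /-- translation part -/
  v : R

namespace Aff

variable {R : Type u} [Ring R]

instance : Mul (Aff R) := ⟨fun g h => ⟨g.u * h.u, g.v + g.u * h.v⟩⟩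
instance : One (Aff R) := ⟨⟨1, 0⟩⟩
instance : Inv (Aff R) := ⟨fun g => ⟨g.u⁻¹, -(((g.u⁻¹ : Rˣ) : R) * g.v)⟩⟩

@[simp] lemma mul_u (g h : Aff R) : (g * h).u = g.u * h.u := rfl
@[simp] lemma mul_v (g h : Aff R) : (g * h).v = g.v + g.u * h.v := rfl
@[simp] lemma one_u : (1 : Aff R).u = 1 := rfl
@[simp] lemma one_v : (1 : Aff R).v = 0 := rfl
@[simp] lemma inv_u (g : Aff R) : (g⁻¹).u = g.u⁻¹ := rfl
@[simp] lemma inv_v (g : Aff R) : (g⁻¹).v = -(((g.u⁻¹ : Rˣ) : R) * g.v) := rfl

instance : Group (Aff R) :=
  Group.ofLeftAxioms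
    (fun a b c => by
      ext
      · simp [mul_assoc]
      · simp [mul_add, mul_assoc, add_assoc])
    (fun a => by ext <;> simp)
    (fun a => by ext <;> simp)

/-- Translations. -/
def T (v : R) : Aff R := ⟨1, v⟩

/-- Homotheties. -/
def D (u : Rˣ) : Aff R := ⟨u, 0⟩

@[simp] lemma T_u (v : R) : (T v).u = 1 := rfl
@[simp] lemma T_v (v : R) : (T v).v = v := rfl
@[simp] lemma D_u (u : Rˣ) : (D u).u = u := rfl
@[simp] lemma D_v (u : Rˣ) : (D u).v = 0 := rfl

lemma T_add (v w : R) : T (v + w) = T v * T w := by ext <;> simp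
lemma T_zero : T (0 : R) = 1 := by ext <;> simp
lemma T_neg (v : R) : T (-v) = (T v)⁻¹ := by ext <;> simp
lemma T_injective : Function.Injective (T : R → Aff R) := fun _ _ h => congrArg Aff.v h

lemma conj_T (g : Aff R) (v : R) : g * T v * g⁻¹ = T (g.u * v) := by
  ext
  · simp
  · simp

/-- A translation, as a condition on the linear part. -/
lemma eq_T_of_u_eq_one {g : Aff R} (h : g.u = 1) : g = T g.v := by
  ext
  · simp [h]
  · simp

/-- Functoriality in ring isomorphisms. -/
def congr {R' : Type v} [Ring R'] (e : R ≃+* R') : Aff R ≃* Aff R' where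
  toFun g := ⟨Units.map e.toMonoidHom g.u, e g.v⟩
  invFun g := ⟨Units.map e.symm.toMonoidHom g.u, e.symm g.v⟩
  left_inv g := by ext <;> simp
  right_inv g := by ext <;> simp
  map_mul' g h := by ext <;> simp

/-- The unit `2`, when it exists. -/
lemma center_eq_bot (h2 : IsUnit (2 : R)) : Subgroup.center (Aff R) = ⊥ := by
  obtain ⟨t, ht⟩ := h2
  rw [eq_bot_iff]
  intro g hg
  rw [Subgroup.mem_center_iff] at hg
  have h1 := congrArg Aff.v (hg (D t))
  simp only [mul_v, D_v, zero_add, D_u, mul_zero, add_zero, ht, two_mul] at h1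
  have hv : g.v = 0 := by simpa using h1
  have h3 := congrArg Aff.v (hg (T 1))
  simp only [mul_v, T_v, T_u, Units.val_one, one_mul, mul_one, hv, add_zero, zero_add] at h3
  have hu : g.u = 1 := Units.ext h3.symm
  rw [Subgroup.mem_bot]
  ext
  · simp [hu]
  · simp [hv]

lemma comm_two (t : Rˣ) (ht : (t : R) = 2) (g : Aff R) : D t * g * (D t)⁻¹ * g⁻¹ = T g.v := by
  have hc : ∀ x : R, (t : R) * x = x * (t : R) := by
    intro x; rw [ht]; rw [two_mul, mul_two]
  have hu : t * g.u * t⁻¹ * g.u⁻¹ = 1 := by
    have : t * g.u = g.u * t := Units.ext (hc g.u)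
    rw [this]; group
  ext
  · simp only [mul_u, D_u, inv_u, T_u]; exact congrArg Units.val hu
  · simp only [mul_v, D_v, zero_add, D_u, inv_v, mul_zero, neg_zero, add_zero, mul_u, inv_u, T_v,
      mul_neg]
    have : ((t * g.u * t⁻¹ : Rˣ) : R) * (((g.u⁻¹ : Rˣ) : R) * g.v) = g.v := by
      rw [← mul_assoc, ← Units.val_mul, hu]; simp
    rw [this, ht]
    noncomm_ring

/-- In a local ring with `2` invertible, `Aff R` is directly indecomposable even as an
abstract group. -/
lemma indecomposable (hloc : ∀ a : R, IsUnit a ∨ IsUnit (1 - a)) (h2 : IsUnit (2 : R))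
    {A B : Type v} [Group A] [Group B] (e : Aff R ≃* A × B) : Subsingleton A ∨ Subsingleton B := by
  obtain ⟨t, ht⟩ := h2
  -- the components of a translation are translations
  have hA : ∀ v : R, ∃ w : R, e (T w) = ((e (T v)).1, 1) := by
    intro v
    have h1 : T v = D t * T v * (D t)⁻¹ * (T v)⁻¹ := (comm_two t ht (T v)).symm
    set g := e.symm ((e (T v)).1, 1) with hg
    have h3 : D t * g * (D t)⁻¹ * g⁻¹ = g := by
      apply e.injective
      have h4 := congrArg e h1
      simp only [map_mul, map_inv] at h4
      simp only [map_mul, map_inv, hg, e.apply_symm_apply]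
      ext
      · simpa using (congrArg Prod.fst h4).symm
      · simp
    rw [comm_two t ht g] at h3
    exact ⟨g.v, by rw [h3, hg, e.apply_symm_apply]⟩
  have hB : ∀ v : R, ∃ w : R, e (T w) = (1, (e (T v)).2) := by
    intro v
    have h1 : T v = D t * T v * (D t)⁻¹ * (T v)⁻¹ := (comm_two t ht (T v)).symm
    set g := e.symm (1, (e (T v)).2) with hg
    have h3 : D t * g * (D t)⁻¹ * g⁻¹ = g := by
      apply e.injective
      have h4 := congrArg e h1
      simp only [map_mul, map_inv] at h4
      simp only [map_mul, map_inv, hg, e.apply_symm_apply]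
      ext
      · simp
      · simpa using (congrArg Prod.snd h4).symm
    rw [comm_two t ht g] at h3
    exact ⟨g.v, by rw [h3, hg, e.apply_symm_apply]⟩
  -- the two sets of translations
  obtain ⟨a, ha⟩ := hA 1
  obtain ⟨b, hb⟩ := hB 1
  have hab : a + b = 1 := by
    apply T_injective (R := R)
    apply e.injective
    rw [T_add, map_mul, ha, hb]
    ext <;> simp
  have key : ∀ (v : R), IsUnit v → ((e (T v)).2 = 1 → ∀ w : R, (e (T w)).2 = 1) ∧
      ((e (T v)).1 = 1 → ∀ w : R, (e (T w)).1 = 1) := by
    intro v hv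
    obtain ⟨s, rfl⟩ := hv
    constructor
    · intro h w
      have hun : ∀ r : Rˣ, (e (T (r : R))).2 = 1 := by
        intro r
        have h5 : T (r : R) = D (r * s⁻¹) * T (s : R) * (D (r * s⁻¹))⁻¹ := by
          rw [conj_T]; simp
        rw [h5]
        simp only [map_mul, map_inv, Prod.snd_mul, Prod.snd_inv, h]
        group
      rcases hloc w with h6 | h6
      · obtain ⟨r, rfl⟩ := h6; exact hun r
      · obtain ⟨r, hr⟩ := h6
        have h7 : T w = T (((1 : Rˣ) : R)) * (T (r : R))⁻¹ := by
          rw [← T_neg, ← T_add, hr]; congr 1; simp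
        rw [h7]
        simp only [map_mul, map_inv, Prod.snd_mul, Prod.snd_inv, hun]
        group
    · intro h w
      have hun : ∀ r : Rˣ, (e (T (r : R))).1 = 1 := by
        intro r
        have h5 : T (r : R) = D (r * s⁻¹) * T (s : R) * (D (r * s⁻¹))⁻¹ := by
          rw [conj_T]; simp
        rw [h5]
        simp only [map_mul, map_inv, Prod.fst_mul, Prod.fst_inv, h]
        group
      rcases hloc w with h6 | h6
      · obtain ⟨r, rfl⟩ := h6; exact hun r
      · obtain ⟨r, hr⟩ := h6
        have h7 : T w = T (((1 : Rˣ) : R)) * (T (r : R))⁻¹ := by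
          rw [← T_neg, ← T_add, hr]; congr 1; simp
        rw [h7]
        simp only [map_mul, map_inv, Prod.fst_mul, Prod.fst_inv, hun]
        group
  -- an element commuting with all translations is a translation
  have hcent : ∀ g : Aff R, (∀ w : R, g * T w = T w * g) → g = T g.v := by
    intro g hg
    apply eq_T_of_u_eq_one
    have h8 := congrArg Aff.v (hg 1)
    simp only [mul_v, T_v, mul_one, T_u, Units.val_one, one_mul] at h8
    apply Units.ext
    have h9 : g.v + (g.u : R) = g.v + 1 := by rw [h8, add_comm]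
    simpa using h9
  rcases hloc a with h | h
  · right
    have h10 := (key a h).1 (by rw [ha])
    constructor
    intro x y
    have hx : ∀ x : B, x = 1 := by
      intro x
      have h11 := hcent (e.symm (1, x)) (by
        intro w
        apply e.injective
        simp only [map_mul, e.apply_symm_apply]
        ext
        · simp
        · simp [h10 w])
      have h12 := h10 (e.symm (1, x)).v
      rw [← h11, e.apply_symm_apply] at h12
      exact h12
    rw [hx x, hx y]
  · left
    have hb' : (1 : R) - a = b := by rw [← hab]; abel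
    rw [hb'] at h
    have h10 := (key b h).2 (by rw [hb])
    constructor
    intro x y
    have hx : ∀ x : A, x = 1 := by
      intro x
      have h11 := hcent (e.symm (x, 1)) (by
        intro w
        apply e.injective
        simp only [map_mul, e.apply_symm_apply]
        ext
        · simp [h10 w]
        · simp)
      have h12 := h10 (e.symm (x, 1)).v
      rw [← h11, e.apply_symm_apply] at h12
      exact h12
    rw [hx x, hx y]

/-- The projection to the linear part. -/
def toUnits : Aff R →* Rˣ where
  toFun g := g.u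
  map_one' := rfl
  map_mul' _ _ := rfl

/-- If the unit group is nilpotent of class at most two and `2` is invertible, the translations
are the third term of the lower central series. -/
lemma mem_gamma_three (h2 : IsUnit (2 : R))
    (hcl : ∀ u w x : Rˣ, u * w * u⁻¹ * w⁻¹ * x = x * (u * w * u⁻¹ * w⁻¹)) (g : Aff R) :
    g ∈ (⁅(⊤ : Subgroup (Aff R)), ⁅(⊤ : Subgroup (Aff R)), (⊤ : Subgroup (Aff R))⁆⁆) ↔
      g.u = 1 := by
  obtain ⟨t, ht⟩ := h2
  constructor
  · intro hg
    have h1 : toUnits g ∈ Subgroup.map toUnits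
        (⁅(⊤ : Subgroup (Aff R)), ⁅(⊤ : Subgroup (Aff R)), (⊤ : Subgroup (Aff R))⁆⁆) :=
      Subgroup.mem_map_of_mem _ hg
    rw [Subgroup.map_commutator, Subgroup.map_commutator] at h1
    have h3 : (⁅Subgroup.map toUnits (⊤ : Subgroup (Aff R)),
        ⁅Subgroup.map toUnits (⊤ : Subgroup (Aff R)),
          Subgroup.map toUnits (⊤ : Subgroup (Aff R))⁆⁆ : Subgroup Rˣ) ≤ ⊥ := by
      rw [Subgroup.commutator_le]
      intro x _ y hy
      have hy' : ∀ z : Rˣ, y * z = z * y := by
        have h4 : (⁅Subgroup.map toUnits (⊤ : Subgroup (Aff R)),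
          Subgroup.map toUnits (⊤ : Subgroup (Aff R))⁆ : Subgroup Rˣ) ≤ Subgroup.center Rˣ := by
          rw [Subgroup.commutator_le]
          intro a _ b _
          rw [Subgroup.mem_center_iff]
          intro z
          rw [commutatorElement_def]
          exact (hcl a b z).symm
        intro z
        exact (Subgroup.mem_center_iff.mp (h4 hy) z).symm
      rw [Subgroup.mem_bot, commutatorElement_def, ← hy' x]
      group
    have h5 := h3 h1
    rw [Subgroup.mem_bot] at h5
    exact h5
  · intro hu
    rw [eq_T_of_u_eq_one hu]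
    have hT : ∀ v : R, T v = ⁅D t, T v⁆ := by
      intro v
      rw [commutatorElement_def, comm_two t ht (T v)]
      rfl
    rw [hT g.v]
    apply Subgroup.commutator_mem_commutator (Subgroup.mem_top _)
    rw [hT g.v]
    exact Subgroup.commutator_mem_commutator (Subgroup.mem_top _) (Subgroup.mem_top _)

end Aff

end Pool.Agent.Helper8
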