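import Pool.Agent.Helper28.BE.Main
import Pool.Agent.Helper28.BE.EBeyond
import Pool.Agent.Helper28.BE.TransBeyond
import Pool.Agent.Helper28.BE.Orbits

/-!
# Beyond the entropy exponent for Möller's exceptional sets

Let `d < m ≤ d ^ (d / (d - 1))` be coprime, and let `eta d m = (h(p) + p log (d - 1)) / log d`,
`p = log d / log m`, be the exponent obtained by counting the words of length `N` with at least `p N`
nonzero digits (`0.94995...` for `3x + 1`). We prove that there is an exponent `η < eta d m`, depending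
only on `d` and `m`, such that for every admissible `R` every interval of length `Y` contains at most
`C Y ^ η` elements of the exceptional set `E(d, m, R)`, and the same holds for every set of integers on
which all iterates of the map `T` are injective.

Structure of the proof (`Pool.Agent.Helper28.BE`). The points of an interval of length `d ^ N` whose
words stay above the critical line for `(1 + 1/400) N` steps are divided into three blocks of steps.
* `fejer`, `block_one`: the Fejér kernel converts the coincidence of the last block into a Fourier sum;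
  the first block has a good mean square, by Parseval modulo a power of `m`.
* `psi_le`, `chunk_gain`: the middle block gives a factor `(1 - κ) ^ w`, where `w` is the number of
  chunks at which the frequency is far from the integers.
* `count_residues`, `wr_le_wh`: frequencies with few such chunks are few (an Erdős-Kahane type
  argument), provided that they are not too close to each other.
* `exists_noRes`: the exceptional coincidences `s' m ^ k = s d ^ N + ζ` are excluded by explicit Padé
  approximants of `(1 - z) ^ n` (the method of Thue and Siegel).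
-/

set_option autoImplicit false

namespace Pool.Agent.Results.MP_fd8838_nt.BeyondEntropy

open Pool.Agent.Helper68.Moeller Pool.Agent.Helper28.BE

/-- **Beyond the entropy exponent.** -/
theorem result (d m : ℕ) (hd : 2 ≤ d) (hdm : d < m) (hco : Nat.Coprime m d)
    (hm : (m : ℝ) ≤ (d : ℝ) ^ ((d : ℝ) / ((d : ℝ) - 1))) :
    ∃ η : ℝ, 0 < η ∧ η < eta d m ∧ eta d m < 1 ∧ ∀ r : ℤ → ℤ, Admissible d m r →
      ∃ C c : ℝ, 0 < c ∧
        -- the exceptional set, in every interval
        (∀ (X : ℤ) (Y : ℕ), 1 ≤ Y → ((E d m r ∩ Set.Ico X (X + Y)).ncard : ℝ) ≤ C * (Y : ℝ) ^ η) ∧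
        -- sets on which all iterates are injective
        (∀ S : Set ℤ, (∀ k, Set.InjOn ((T d m r)^[k]) S) → ∀ (X : ℤ) (Y : ℕ), 1 ≤ Y →
          ((S ∩ Set.Ico X (X + Y)).ncard : ℝ) ≤ C * (Y : ℝ) ^ η) ∧
        -- sets of integers whose orbits are pairwise disjoint
        (∀ S : Set ℤ, (∀ x ∈ S, ∀ y ∈ S, x ≠ y → ∀ i j : ℕ, (T d m r)^[i] x ≠ (T d m r)^[j] y) →
          ∀ (X : ℤ) (Y : ℕ), 1 ≤ Y → ((S ∩ Set.Ico X (X + Y)).ncard : ℝ) ≤ C * (Y : ℝ) ^ η) ∧
        -- infinite orbits, and their growth
        (∀ n : ℤ, (∀ i j : ℕ, (T d m r)^[i] n = (T d m r)^[j] n → i = j) →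
          (∀ (X : ℤ) (Y : ℕ), 1 ≤ Y →
            (({i : ℕ | (T d m r)^[i] n ∈ Set.Ico X (X + Y)}).ncard : ℝ) ≤ C * (Y : ℝ) ^ η) ∧
          ∀ k : ℕ, 1 ≤ k → ∃ i < k, c * (k : ℝ) ^ (1 / η) ≤ |((T d m r)^[i] n : ℝ)|) := by
  obtain ⟨η₁, δ, hη0, hη1, hδ, hcore⟩ := core hd hdm hco hm
  obtain ⟨η₂, hη20, hη21, htrans⟩ := transversals_beyond hd hdm hco hm hη0 hη1
    (by norm_num : (0 : ℝ) < 1 / 400) (by norm_num) hδ
  have hE := E_beyond hd hdm hco hm hη0 hη1 (by norm_num : (0 : ℝ) < 1 / 400) (by norm_num) hδ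
  set η := max η₁ η₂ with hη
  have hη' : 0 < η := lt_max_of_lt_left hη0
  refine ⟨η, hη', max_lt hη1 hη21, eta_lt_one hd hdm hco hm, ?_⟩
  intro r hr
  obtain ⟨C₁, hC₁, h1⟩ := hE r hr (hcore r hr)
  obtain ⟨C₂, hC₂, h2⟩ := htrans r hr (hcore r hr)
  set K := max C₁ C₂ with hK
  have hK0 : 0 < K := lt_max_of_lt_left hC₁
  have hgen : ∀ S : Set ℤ, (∀ k, Set.InjOn ((T d m r)^[k]) S) → ∀ (X : ℤ) (Y : ℕ), 1 ≤ Y →
      ((S ∩ Set.Ico X (X + Y)).ncard : ℝ) ≤ K * (Y : ℝ) ^ η := by
    intro S hS X Y hY
    have hY' : (1 : ℝ) ≤ Y := by exact_mod_cast hY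
    refine (h2 S hS X Y hY).trans ?_
    exact mul_le_mul (le_max_right _ _) (Real.rpow_le_rpow_of_exponent_le hY' (le_max_right _ _))
      (by positivity) hK0.le
  have horb := fun n hn => orbit_bound hgen n hn
  refine ⟨K, 1 / (2 * (5 * K ^ (1 / η))), by positivity, ?_, hgen, ?_, fun n hn => ⟨horb n hn, ?_⟩⟩
  · intro X Y hY
    have hY' : (1 : ℝ) ≤ Y := by exact_mod_cast hY
    refine (h1 X Y hY).trans ?_
    exact mul_le_mul (le_max_left _ _) (Real.rpow_le_rpow_of_exponent_le hY' (le_max_left _ _))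
      (by positivity) hK0.le
  · intro S hS X Y hY
    refine hgen S (fun k x hx y hy hxy => ?_) X Y hY
    by_contra hne
    exact hS x hx y hy hne k k hxy
  · intro k hk
    exact growth hK0 hη' horb n hn k hk

end Pool.Agent.Results.MP_fd8838_nt.BeyondEntropy
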