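import Mathlib

/-!
# Automorphisms of the dual numbers over a field of characteristic zero
-/

set_option autoImplicit false

universe u

namespace Pool.Agent.Helper8

open Polynomial

lemma formallySmooth_field (F K : Type*) [Field F] [Field K] [Algebra F K] [CharZero F] :
    Algebra.FormallySmooth F K := by
  obtain ⟨s, hs⟩ := exists_isTranscendenceBasis F K
  have h1 := hs.isAlgebraic_field
  have h2 : Algebra.IsSeparable (IntermediateField.adjoin F (Set.range ((↑) : s → K))) K :=
    inferInstance
  exact .of_algebraicIndependent_of_isSeparable hs.1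

lemma exists_lift {A K C : Type*} [CommRing A] [Field K] [CommRing C] (f : A →+* K)
    (hf : f.FormallySmooth) (g : C →+* K) (hg : Function.Surjective g)
    (hnil : IsNilpotent (RingHom.ker g)) (h : A →+* C) (hcomm : g.comp h = f) :
    ∃ s : K →+* C, (∀ x, g (s x) = x) ∧ ∀ x, s (f x) = h x := by
  let _ := f.toAlgebra
  let _ := h.toAlgebra
  have : Algebra.FormallySmooth A K := hf
  let g' : C →ₐ[A] K := { g with commutes' := fun a => RingHom.congr_fun hcomm a }
  let s := Algebra.FormallySmooth.liftOfSurjective (AlgHom.id A K) g' hg hnil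
  refine ⟨s.toRingHom, ?_, ?_⟩
  · intro x
    exact Algebra.FormallySmooth.liftOfSurjective_apply (AlgHom.id A K) g' hg hnil x
  · intro x
    exact s.commutes x

/-- A lift of the identity of `K` to the dual numbers, moving a transcendental constant. -/
lemma exists_section (K : Type u) [Field K] [CharZero K] (l : K)
    (hl : Transcendental ℚ l) :
    ∃ s : K →+* DualNumber K, (∀ x : K, (s x).fst = x) ∧
      s l = TrivSqZeroExt.inl l + DualNumber.eps := by
  let f : ℚ[X] →+* K := (aeval l : ℚ[X] →ₐ[ℚ] K).toRingHom
  have hinj : Function.Injective f := transcendental_iff_injective.mp hl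
  let g0 : FractionRing ℚ[X] →+* K := IsFractionRing.lift hinj
  have hf : f.FormallySmooth := by
    have h1 : f = g0.comp (algebraMap ℚ[X] (FractionRing ℚ[X])) := by
      apply RingHom.ext
      intro x
      exact (IsFractionRing.lift_algebraMap hinj x).symm
    rw [h1]
    apply RingHom.FormallySmooth.comp
    · rw [RingHom.formallySmooth_algebraMap]
      exact Algebra.FormallySmooth.of_isLocalization (nonZeroDivisors _)
    · let _ := g0.toAlgebra
      exact formallySmooth_field (FractionRing ℚ[X]) K
  let h : ℚ[X] →+* DualNumber K :=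
    (aeval (TrivSqZeroExt.inl l + DualNumber.eps : DualNumber K) : ℚ[X] →ₐ[ℚ] DualNumber K).toRingHom
  let g : DualNumber K →+* K := (TrivSqZeroExt.fstHom K K K).toRingHom
  have hgsurj : Function.Surjective g := fun x => ⟨TrivSqZeroExt.inl x, by simp [g]⟩
  have hnil : IsNilpotent (RingHom.ker g) := by
    refine ⟨2, ?_⟩
    refine (pow_two (RingHom.ker g)).trans ?_
    rw [Ideal.zero_eq_bot, eq_bot_iff, Ideal.mul_le]
    intro r hr s hs
    rw [RingHom.mem_ker] at hr hs
    have hr' : r.fst = 0 := hr
    have hs' : s.fst = 0 := hs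
    rw [Ideal.mem_bot]
    ext
    · simp [hr']
    · simp [hr', hs']
  obtain ⟨s, hs1, hs2⟩ := exists_lift f hf g hgsurj hnil h (by
    apply Polynomial.ringHom_ext
    · intro a; simp [g, h, f]
    · simp [g, h, f])
  refine ⟨s, fun x => hs1 x, ?_⟩
  have h3 := hs2 X
  have h4 : f X = l := by simp [f]
  have h5 : h X = TrivSqZeroExt.inl l + DualNumber.eps := by simp [h]
  rw [h4, h5] at h3
  exact h3

/-- An automorphism of the dual numbers moving a transcendental constant. -/
lemma exists_auto (K : Type u) [Field K] [CharZero K] (l : K)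
    (hl : Transcendental ℚ l) :
    ∃ ψ : DualNumber K ≃+* DualNumber K,
      ψ (TrivSqZeroExt.inl l) = TrivSqZeroExt.inl l + DualNumber.eps := by
  obtain ⟨s, hs1, hs2⟩ := exists_section K l hl
  refine ⟨{ toFun := fun z => s z.fst + TrivSqZeroExt.inr z.snd
            invFun := fun z => TrivSqZeroExt.inl z.fst + TrivSqZeroExt.inr (z.snd - (s z.fst).snd)
            left_inv := ?_
            right_inv := ?_
            map_mul' := ?_
            map_add' := ?_ }, ?_⟩
  · intro z
    ext
    · simp [hs1]
    · simp [hs1]
  · intro z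
    ext
    · simp [hs1]
    · simp [hs1]
  · intro z w
    ext
    · simp [hs1]
    · simp [hs1]
      ring
  · intro z w
    ext
    · simp [hs1]
    · simp [hs1]
      ring
  · simp [hs2]

end Pool.Agent.Helper8
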