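import Mathlib

/-!
# Holland's embedding theorem for lattice-ordered groups (pointwise form)

For every non-trivial element `a` of a lattice-ordered group `F` there is a chain `Ω` and an
action of `F` on `Ω` by order automorphisms, compatible with the lattice operations, in which
`a` moves a point.
-/

set_option autoImplicit false
set_option linter.unusedSectionVars false

namespace Pool.Agent.Helper8.Holland

variable {F : Type} [Group F] [Lattice F] [MulLeftMono F] [MulRightMono F]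

/-- Convex subgroups closed under joins. -/
structure IsConvexL (Q : Subgroup F) : Prop where
  sup_mem : ∀ g ∈ Q, ∀ h ∈ Q, g ⊔ h ∈ Q
  convex : ∀ g ∈ Q, ∀ h ∈ Q, ∀ k, g ≤ k → k ≤ h → k ∈ Q

lemma riesz {a b c : F} (ha : 1 ≤ a) (hb : 1 ≤ b) (hc : 1 ≤ c) :
    a ⊓ (b * c) ≤ (a ⊓ b) * (a ⊓ c) := by
  rw [inf_mul, mul_inf, mul_inf]
  refine le_inf (le_inf ?_ ?_) (le_inf ?_ ?_)
  · exact inf_le_left.trans (le_mul_of_one_le_right' ha)
  · exact inf_le_left.trans (le_mul_of_one_le_right' hc)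
  · exact inf_le_left.trans (le_mul_of_one_le_left' hb)
  · exact inf_le_right

lemma inf_pow_le {a b : F} (ha : 1 ≤ a) (hb : 1 ≤ b) (n : ℕ) :
    a ⊓ b ^ n ≤ (a ⊓ b) ^ n := by
  induction n with
  | zero => simp
  | succ n ih =>
    rw [pow_succ, pow_succ]
    calc a ⊓ (b ^ n * b) ≤ (a ⊓ b ^ n) * (a ⊓ b) := riesz ha (one_le_pow_of_one_le' hb n) hb
      _ ≤ (a ⊓ b) ^ n * (a ⊓ b) := mul_le_mul_left ih _

lemma pow_inf_pow_le {a b : F} (ha : 1 ≤ a) (hb : 1 ≤ b) (n : ℕ) :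
    a ^ n ⊓ b ^ n ≤ (a ⊓ b) ^ (n * n) := by
  calc a ^ n ⊓ b ^ n ≤ (a ^ n ⊓ b) ^ n := inf_pow_le (one_le_pow_of_one_le' ha n) hb n
    _ ≤ ((a ⊓ b) ^ n) ^ n := by
        apply pow_le_pow_left'
        rw [inf_comm, inf_comm a b]
        exact inf_pow_le hb ha n
    _ = (a ⊓ b) ^ (n * n) := by rw [← pow_mul]

lemma IsConvexL.inf_mem {Q : Subgroup F} (hQ : IsConvexL Q) {g h : F} (hg : g ∈ Q) (hh : h ∈ Q) :
    g ⊓ h ∈ Q := by
  have h1 : g⁻¹ ⊔ h⁻¹ ∈ Q := hQ.sup_mem _ (Q.inv_mem hg) _ (Q.inv_mem hh)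
  have h2 : (g⁻¹ ⊔ h⁻¹)⁻¹ = g ⊓ h := by rw [inv_sup, inv_inv, inv_inv]
  rw [← h2]
  exact Q.inv_mem h1

lemma IsConvexL.exists_bound {Q : Subgroup F} (hQ : IsConvexL Q) {g : F} (hg : g ∈ Q) :
    ∃ q ∈ Q, 1 ≤ q ∧ g ≤ q ∧ g⁻¹ ≤ q :=
  ⟨(g ⊔ g⁻¹) ⊔ 1, hQ.sup_mem _ (hQ.sup_mem _ hg _ (Q.inv_mem hg)) _ Q.one_mem,
    le_sup_right, le_sup_left.trans le_sup_left, le_sup_right.trans le_sup_left⟩

/-- The bound `(q x q) ^ n`. -/
def bd (x q : F) (n : ℕ) : F := (q * x * q) ^ n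

lemma one_le_qxq {x q : F} (hx : 1 ≤ x) (hq : 1 ≤ q) : 1 ≤ q * x * q :=
  one_le_mul (one_le_mul hq hx) hq

lemma bd_mono {x q q' : F} {n n' : ℕ} (hx : 1 ≤ x) (hq : 1 ≤ q) (hqq : q ≤ q') (hn : n ≤ n') :
    bd x q n ≤ bd x q' n' := by
  have h1 : q * x * q ≤ q' * x * q' := mul_le_mul' (mul_le_mul' hqq le_rfl) hqq
  calc (q * x * q) ^ n ≤ (q' * x * q') ^ n := pow_le_pow_left' h1 n
    _ ≤ (q' * x * q') ^ n' := pow_le_pow_right' (one_le_qxq hx (hq.trans hqq)) hn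

/-- The convex subgroup generated by `Q` and `x`. -/
def gen (Q : Subgroup F) (x : F) (hx : 1 ≤ x) : Subgroup F where
  carrier := {g | ∃ q ∈ Q, 1 ≤ q ∧ ∃ n : ℕ, g ≤ bd x q n ∧ g⁻¹ ≤ bd x q n}
  one_mem' := ⟨1, Q.one_mem, le_rfl, 0, by simp [bd], by simp [bd]⟩
  inv_mem' := by
    rintro g ⟨q, hq, hq1, n, h1, h2⟩
    exact ⟨q, hq, hq1, n, h2, by rwa [inv_inv]⟩
  mul_mem' := by
    rintro g h ⟨q, hq, hq1, n, h1, h2⟩ ⟨r, hr, hr1, m, h3, h4⟩
    have hqr : q ≤ q * r := le_mul_of_one_le_right' hr1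
    have hrr : r ≤ q * r := le_mul_of_one_le_left' hq1
    have e1 : bd x q n ≤ bd x (q * r) n := bd_mono hx hq1 hqr le_rfl
    have e2 : bd x r m ≤ bd x (q * r) m := bd_mono hx hr1 hrr le_rfl
    refine ⟨q * r, Q.mul_mem hq hr, one_le_mul hq1 hr1, n + m, ?_, ?_⟩
    · calc g * h ≤ bd x (q * r) n * bd x (q * r) m :=
            mul_le_mul' (h1.trans e1) (h3.trans e2)
        _ = bd x (q * r) (n + m) := by simp [bd, pow_add]
    · calc (g * h)⁻¹ = h⁻¹ * g⁻¹ := mul_inv_rev g h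
        _ ≤ bd x (q * r) m * bd x (q * r) n := mul_le_mul' (h4.trans e2) (h2.trans e1)
        _ = bd x (q * r) (n + m) := by simp [bd, ← pow_add, add_comm]

lemma gen_isConvexL (Q : Subgroup F) (x : F) (hx : 1 ≤ x) :
    IsConvexL (gen Q x hx) := by
  have key : ∀ g ∈ gen Q x hx, ∀ h ∈ gen Q x hx, ∃ q ∈ Q, 1 ≤ q ∧ ∃ n : ℕ,
      (g ≤ bd x q n ∧ g⁻¹ ≤ bd x q n) ∧ (h ≤ bd x q n ∧ h⁻¹ ≤ bd x q n) := by
    rintro g ⟨q, hq, hq1, n, h1, h2⟩ h ⟨r, hr, hr1, m, h3, h4⟩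
    have hqr : q ≤ q * r := le_mul_of_one_le_right' hr1
    have hrr : r ≤ q * r := le_mul_of_one_le_left' hq1
    have e1 : bd x q n ≤ bd x (q * r) (n + m) := bd_mono hx hq1 hqr (by omega)
    have e2 : bd x r m ≤ bd x (q * r) (n + m) := bd_mono hx hr1 hrr (by omega)
    exact ⟨q * r, Q.mul_mem hq hr, one_le_mul hq1 hr1, n + m,
      ⟨h1.trans e1, h2.trans e1⟩, ⟨h3.trans e2, h4.trans e2⟩⟩
  constructor
  · intro g hg h hh
    obtain ⟨q, hq, hq1, n, ⟨h1, h2⟩, ⟨h3, h4⟩⟩ := key g hg h hh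
    refine ⟨q, hq, hq1, n, sup_le h1 h3, ?_⟩
    rw [inv_sup]
    exact inf_le_left.trans h2
  · intro g hg h hh k hgk hkh
    obtain ⟨q, hq, hq1, n, ⟨h1, h2⟩, ⟨h3, h4⟩⟩ := key g hg h hh
    refine ⟨q, hq, hq1, n, hkh.trans h3, ?_⟩
    exact (inv_le_inv_iff.2 hgk).trans h2

lemma le_gen {Q : Subgroup F} (hQ : IsConvexL Q) (x : F) (hx : 1 ≤ x) : Q ≤ gen Q x hx := by
  intro g hg
  obtain ⟨q, hq, hq1, h1, h2⟩ := hQ.exists_bound hg
  have h3 : q ≤ bd x q 1 := by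
    rw [bd, pow_one]
    exact (le_mul_of_one_le_right' hx).trans (le_mul_of_one_le_right' hq1)
  exact ⟨q, hq, hq1, 1, h1.trans h3, h2.trans h3⟩

lemma mem_gen (Q : Subgroup F) (x : F) (hx : 1 ≤ x) : x ∈ gen Q x hx := by
  refine ⟨1, Q.one_mem, le_rfl, 1, by simp [bd], ?_⟩
  have : x⁻¹ ≤ 1 := inv_le_one'.mpr hx
  simpa [bd] using this.trans hx

/-- A value of `a` : a maximal convex `l`-subgroup not containing `a`. -/
lemma exists_value (a : F) (ha : a ≠ 1) :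
    ∃ Q : Subgroup F, IsConvexL Q ∧ a ∉ Q ∧
      ∀ R : Subgroup F, IsConvexL R → Q ≤ R → a ∉ R → R ≤ Q := by
  let S : Set (Subgroup F) := {Q | IsConvexL Q ∧ a ∉ Q}
  have hbot : (⊥ : Subgroup F) ∈ S := by
    refine ⟨⟨?_, ?_⟩, by simpa [Subgroup.mem_bot] using ha⟩
    · intro g hg h hh
      rw [Subgroup.mem_bot] at *
      rw [hg, hh, sup_idem]
    · intro g hg h hh k h1 h2
      rw [Subgroup.mem_bot] at *
      subst hg; subst hh
      exact le_antisymm h2 h1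
  obtain ⟨Q, -, hQ⟩ := zorn_le_nonempty₀ S (fun c hcS hc y hyc => by
    have hdir : DirectedOn (· ≤ ·) c := hc.directedOn
    have hne : c.Nonempty := ⟨y, hyc⟩
    refine ⟨sSup c, ⟨⟨?_, ?_⟩, ?_⟩, fun z hz => le_sSup hz⟩
    · intro g hg h hh
      rw [Subgroup.mem_sSup_of_directedOn hne hdir] at *
      obtain ⟨s, hs, hgs⟩ := hg
      obtain ⟨t, ht, hht⟩ := hh
      obtain ⟨u, hu, hsu, htu⟩ := hdir s hs t ht
      exact ⟨u, hu, (hcS hu).1.sup_mem _ (hsu hgs) _ (htu hht)⟩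
    · intro g hg h hh k h1 h2
      rw [Subgroup.mem_sSup_of_directedOn hne hdir] at *
      obtain ⟨s, hs, hgs⟩ := hg
      obtain ⟨t, ht, hht⟩ := hh
      obtain ⟨u, hu, hsu, htu⟩ := hdir s hs t ht
      exact ⟨u, hu, (hcS hu).1.convex _ (hsu hgs) _ (htu hht) k h1 h2⟩
    · rw [Subgroup.mem_sSup_of_directedOn hne hdir]
      rintro ⟨s, hs, has⟩
      exact (hcS hs).2 has) ⊥ hbot
  exact ⟨Q, hQ.prop.1, hQ.prop.2, fun R hR hQR haR => hQ.le_of_ge ⟨hR, haR⟩ hQR⟩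

lemma value_prime {a : F} {Q : Subgroup F} (hQ : IsConvexL Q) (haQ : a ∉ Q)
    (hmax : ∀ R : Subgroup F, IsConvexL R → Q ≤ R → a ∉ R → R ≤ Q) {x y : F}
    (hxy : x ⊓ y = 1) : x ∈ Q ∨ y ∈ Q := by
  by_contra hcon
  rw [not_or] at hcon
  obtain ⟨hxQ, hyQ⟩ := hcon
  have hx : 1 ≤ x := hxy ▸ inf_le_left
  have hy : 1 ≤ y := hxy ▸ inf_le_right
  have hax : a ∈ gen Q x hx := by
    by_contra h
    exact hxQ (hmax _ (gen_isConvexL Q x hx) (le_gen hQ x hx) h (mem_gen Q x hx))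
  have hay : a ∈ gen Q y hy := by
    by_contra h
    exact hyQ (hmax _ (gen_isConvexL Q y hy) (le_gen hQ y hy) h (mem_gen Q y hy))
  obtain ⟨q, hq, hq1, n, h1, h2⟩ := hax
  obtain ⟨r, hr, hr1, m, h3, h4⟩ := hay
  have hqr : q ≤ q * r := le_mul_of_one_le_right' hr1
  have hrr : r ≤ q * r := le_mul_of_one_le_left' hq1
  have e1 : bd x q n ≤ bd x (q * r) (n + m) := bd_mono hx hq1 hqr (by omega)
  have e2 : bd y r m ≤ bd y (q * r) (n + m) := bd_mono hy hr1 hrr (by omega)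
  set s := q * r with hs
  set N := n + m with hN
  have hs1 : 1 ≤ s := one_le_mul hq1 hr1
  have hsQ : s ∈ Q := Q.mul_mem hq hr
  have hinf : bd x s N ⊓ bd y s N ≤ (s * s) ^ (N * N) := by
    calc bd x s N ⊓ bd y s N ≤ (s * x * s ⊓ s * y * s) ^ (N * N) :=
          pow_inf_pow_le (one_le_qxq hx hs1) (one_le_qxq hy hs1) N
      _ = (s * s) ^ (N * N) := by
          rw [← inf_mul, ← mul_inf, hxy, mul_one]
  have hb1 : a ≤ (s * s) ^ (N * N) := (le_inf (h1.trans e1) (h3.trans e2)).trans hinf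
  have hb2 : a⁻¹ ≤ (s * s) ^ (N * N) := (le_inf (h2.trans e1) (h4.trans e2)).trans hinf
  have hc : (s * s) ^ (N * N) ∈ Q := Q.pow_mem (Q.mul_mem hsQ hsQ) _
  refine haQ (hQ.convex _ (Q.inv_mem hc) _ hc a ?_ hb1)
  exact inv_le_of_inv_le' hb2

/-- The order on left cosets. -/
def cosetLE (Q : Subgroup F) (A B : F ⧸ Q) : Prop :=
  ∃ x y : F, (x : F ⧸ Q) = A ∧ (y : F ⧸ Q) = B ∧ x ≤ y

lemma cosetLE_mk {Q : Subgroup F} {x y : F} :
    cosetLE Q (x : F ⧸ Q) (y : F ⧸ Q) ↔ ∃ q ∈ Q, x ≤ y * q := by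
  constructor
  · rintro ⟨x', y', hx, hy, hle⟩
    rw [QuotientGroup.eq] at hx hy
    -- x'⁻¹ * x ∈ Q, y'⁻¹ * y ∈ Q
    refine ⟨(y'⁻¹ * y)⁻¹ * (x'⁻¹ * x), Q.mul_mem (Q.inv_mem hy) hx, ?_⟩
    have h1 : y * ((y'⁻¹ * y)⁻¹ * (x'⁻¹ * x)) = y' * (x'⁻¹ * x) := by group
    have h2 : x = x' * (x'⁻¹ * x) := by group
    rw [h1]
    nth_rewrite 1 [h2]
    exact mul_le_mul_left hle _
  · rintro ⟨q, hq, hle⟩
    refine ⟨x, y * q, rfl, ?_, hle⟩
    rw [QuotientGroup.eq]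
    simpa using hq

lemma exists_chain {Q : Subgroup F} (hQ : IsConvexL Q)
    (hprime : ∀ x y : F, x ⊓ y = 1 → x ∈ Q ∨ y ∈ Q) :
    ∃ (_ : LinearOrder (F ⧸ Q)), ∀ A B : F ⧸ Q, A ≤ B ↔ cosetLE Q A B := by
  classical
  refine ⟨{ le := cosetLE Q
            le_refl := ?_
            le_trans := ?_
            le_antisymm := ?_
            le_total := ?_
            toDecidableLE := Classical.decRel _ }, fun A B => Iff.rfl⟩
  · intro A
    induction A using QuotientGroup.induction_on with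
    | H x => exact cosetLE_mk.2 ⟨1, Q.one_mem, by simp⟩
  · intro A B C
    induction A using QuotientGroup.induction_on with
    | H x =>
    induction B using QuotientGroup.induction_on with
    | H y =>
    induction C using QuotientGroup.induction_on with
    | H z =>
    intro h1 h2
    obtain ⟨q, hq, h1⟩ := cosetLE_mk.1 h1
    obtain ⟨r, hr, h2⟩ := cosetLE_mk.1 h2
    refine cosetLE_mk.2 ⟨r * q, Q.mul_mem hr hq, h1.trans ?_⟩
    rw [← mul_assoc]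
    exact mul_le_mul_left h2 _
  · intro A B
    induction A using QuotientGroup.induction_on with
    | H x =>
    induction B using QuotientGroup.induction_on with
    | H y =>
    intro h1 h2
    obtain ⟨q, hq, h1⟩ := cosetLE_mk.1 h1
    obtain ⟨r, hr, h2⟩ := cosetLE_mk.1 h2
    rw [QuotientGroup.eq]
    -- x⁻¹ * y ∈ Q : q⁻¹ ≤ x⁻¹ * y ≤ r
    have h3 : x⁻¹ * y ≤ r := by rwa [inv_mul_le_iff_le_mul]
    have h4 : y⁻¹ * x ≤ q := by rwa [inv_mul_le_iff_le_mul]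
    refine hQ.convex _ (Q.inv_mem hq) _ hr _ ?_ h3
    have h5 := inv_le_inv_iff.2 h4
    rwa [mul_inv_rev, inv_inv] at h5
  · intro A B
    induction A using QuotientGroup.induction_on with
    | H x =>
    induction B using QuotientGroup.induction_on with
    | H y =>
    have h : ((x ⊓ y)⁻¹ * x) ⊓ ((x ⊓ y)⁻¹ * y) = 1 := by
      rw [← mul_inf, inv_mul_cancel]
    rcases hprime _ _ h with h1 | h1
    · left
      refine cosetLE_mk.2 ⟨(x ⊓ y)⁻¹ * x, h1, ?_⟩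
      calc x = (x ⊓ y) * ((x ⊓ y)⁻¹ * x) := by group
        _ ≤ y * ((x ⊓ y)⁻¹ * x) := mul_le_mul_left inf_le_right _
    · right
      refine cosetLE_mk.2 ⟨(x ⊓ y)⁻¹ * y, h1, ?_⟩
      calc y = (x ⊓ y) * ((x ⊓ y)⁻¹ * y) := by group
        _ ≤ x * ((x ⊓ y)⁻¹ * y) := mul_le_mul_left inf_le_left _

/-- **Holland's theorem**, pointwise form. -/
theorem holland (F : Type) [Group F] [Lattice F] [MulLeftMono F] [MulRightMono F] (a : F)
    (ha : a ≠ 1) : ∃ (Ω : Type) (_ : LinearOrder Ω) (θ : F →* (Ω ≃o Ω)),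
      (∀ a b x, θ (a ⊔ b) x = max (θ a x) (θ b x)) ∧
      (∀ a b x, θ (a ⊓ b) x = min (θ a x) (θ b x)) ∧ ∃ x, θ a x ≠ x := by
  obtain ⟨Q, hQ, haQ, hmax⟩ := exists_value a ha
  obtain ⟨inst, hle⟩ := exists_chain hQ (fun x y h => value_prime hQ haQ hmax h)
  have hlemk : ∀ x y : F, ((x : F ⧸ Q) ≤ (y : F ⧸ Q)) ↔ ∃ q ∈ Q, x ≤ y * q :=
    fun x y => (hle _ _).trans cosetLE_mk
  have hsmul : ∀ (g : F) (A B : F ⧸ Q), g • A ≤ g • B ↔ A ≤ B := by
    intro g A B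
    induction A using QuotientGroup.induction_on with
    | H x =>
    induction B using QuotientGroup.induction_on with
    | H y =>
    have e1 : g • (x : F ⧸ Q) = ((g * x : F) : F ⧸ Q) := rfl
    have e2 : g • (y : F ⧸ Q) = ((g * y : F) : F ⧸ Q) := rfl
    rw [e1, e2, hlemk, hlemk]
    simp only [mul_assoc, mul_le_mul_iff_left]
  let θ : F →* ((F ⧸ Q) ≃o (F ⧸ Q)) :=
    { toFun := fun g =>
        { toFun := fun A => g • A
          invFun := fun A => g⁻¹ • A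
          left_inv := fun A => inv_smul_smul g A
          right_inv := fun A => smul_inv_smul g A
          map_rel_iff' := fun {A B} => hsmul g A B }
      map_one' := by ext A; exact one_smul F A
      map_mul' := fun g h => by ext A; exact mul_smul g h A }
  have hθ : ∀ (g x : F), θ g (x : F ⧸ Q) = ((g * x : F) : F ⧸ Q) := fun g x => rfl
  have hsup : ∀ u v : F, (u : F ⧸ Q) ≤ (v : F ⧸ Q) → ((u ⊔ v : F) : F ⧸ Q) = v := by
    intro u v huv
    obtain ⟨q, hq, h1⟩ := (hlemk u v).1 huv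
    apply le_antisymm
    · rw [hlemk]
      refine ⟨q ⊔ 1, hQ.sup_mem _ hq _ Q.one_mem, ?_⟩
      rw [mul_sup, mul_one]
      exact sup_le_sup_right h1 v
    · rw [hlemk]
      exact ⟨1, Q.one_mem, by rw [mul_one]; exact le_sup_right⟩
  have hinf : ∀ u v : F, (u : F ⧸ Q) ≤ (v : F ⧸ Q) → ((u ⊓ v : F) : F ⧸ Q) = u := by
    intro u v huv
    obtain ⟨q, hq, h1⟩ := (hlemk u v).1 huv
    apply le_antisymm
    · rw [hlemk]
      exact ⟨1, Q.one_mem, by rw [mul_one]; exact inf_le_left⟩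
    · rw [hlemk]
      refine ⟨(q⁻¹ ⊓ 1)⁻¹, Q.inv_mem (hQ.inf_mem (Q.inv_mem hq) Q.one_mem), ?_⟩
      rw [← mul_inv_le_iff_le_mul, inv_inv, mul_inf, mul_one]
      apply le_inf inf_le_right
      apply inf_le_left.trans
      rwa [mul_inv_le_iff_le_mul]
  refine ⟨F ⧸ Q, inst, θ, ?_, ?_, ((1 : F) : F ⧸ Q), ?_⟩
  · intro g h A
    induction A using QuotientGroup.induction_on with
    | H x =>
    rw [hθ, hθ, hθ, sup_mul]
    rcases le_total ((g * x : F) : F ⧸ Q) ((h * x : F) : F ⧸ Q) with hc | hc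
    · rw [hsup _ _ hc, max_eq_right hc]
    · rw [sup_comm, hsup _ _ hc, max_eq_left hc]
  · intro g h A
    induction A using QuotientGroup.induction_on with
    | H x =>
    rw [hθ, hθ, hθ, inf_mul]
    rcases le_total ((g * x : F) : F ⧸ Q) ((h * x : F) : F ⧸ Q) with hc | hc
    · rw [hinf _ _ hc, min_eq_left hc]
    · rw [inf_comm, hinf _ _ hc, min_eq_right hc]
  · intro h
    rw [hθ, mul_one] at h
    have : (a : F ⧸ Q) = ((1 : F) : F ⧸ Q) := h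
    rw [QuotientGroup.eq] at this
    apply haQ
    have h2 := Q.inv_mem this
    simpa using h2

end Pool.Agent.Helper8.Holland
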