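import Pool.Agent.Helper8.ND.HSets

/-!
# The invariant sets of every Möller map have a natural density

`H` is the generalized Hasse-Syracuse map of the problem and `D` the set of the positive integers not
divisible by `d`. For all coprime `2 ≤ d < m ≤ d ^ (d / (d - 1))` and all admissible residues, every
set `A ⊆ D` which is invariant under `H` (from some point on) has a natural density, uniformly in `A`;
for instance the set of the integers whose orbit contains a given integer. Natural density is a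
countably additive measure on the invariant sets; in particular the densities of the classes of the
relation that the orbits of `n` and `n'` meet have the sum `1 - 1 / d`.

Structure of the proof.
* `Helper52.Tao`: fine-scale mixing of the Syracuse random variables of the map (all `(d, m, R)`).
* `ND.Flow`, `ND.Sets`: the density `g u` of an invariant set in `[e ^ u, 2 e ^ u)` is, up to
  `O(t ^ (-8))`, the average of its values at `u + (log m) S - (log d) t`, `S` binomial.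
* `ND.Shift` (Stein's identity), `ND.Approx` (`log m / log d` is irrational), `ND.Near`: `g` varies by
  `O(1 / log u)` on intervals of length `u ^ (1/4)`.
* `ND.MaxP`: the maximum principle for the random walk, which has a negative drift.
* `ND.Conv`, `ND.Density`, `ND.HSets`: convergence, natural density, from `T` to `H`.
-/

set_option autoImplicit false

namespace Pool.Agent.Results.MP_fd8838_nt.NaturalDensity

open Pool.Agent.Helper68.Moeller Pool.Agent.Helper8 Filter Topology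

/-- The set `D` of the positive integers not divisible by `d`. -/
def D (d : ℕ) : Set ℤ := {n | 0 < n ∧ ¬ (d : ℤ) ∣ n}

/-- `A ⊆ D`, and for `n ∈ D`, `n > x₀`, such that `H(n)` is defined, `n ∈ A` if and only if
`H(n) ∈ A`. -/
def InvBeyond (d m : ℕ) (r : ℤ → ℤ) (A : Set ℤ) (x₀ : ℝ) : Prop :=
  A ⊆ D d ∧ ∀ n ∈ D d, x₀ < n → r (n % (d : ℤ)) < (m : ℤ) * n → (n ∈ A ↔ H d m r n ∈ A)

/-- The number of positive elements `≤ x` of a set. -/
noncomputable def count (A : Set ℤ) (x : ℝ) : ℝ :=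
  ({n : ℤ | n ∈ A ∧ 0 < n ∧ (n : ℝ) ≤ x}.ncard : ℝ)

/-- `A` has the natural density `δ`. -/
def HasDensity (A : Set ℤ) (δ : ℝ) : Prop :=
  Tendsto (fun x : ℝ => count A x / x) atTop (𝓝 δ)

/-- `H^(k)(n)` is defined. -/
def Defd (d m : ℕ) (r : ℤ → ℤ) (n : ℤ) (k : ℕ) : Prop :=
  ∀ i < k, r ((H d m r)^[i] n % (d : ℤ)) < (m : ℤ) * (H d m r)^[i] n

/-- The orbit of `n` contains `a`. -/
def Reaches (d m : ℕ) (r : ℤ → ℤ) (n a : ℤ) : Prop :=
  ∃ k : ℕ, Defd d m r n k ∧ (H d m r)^[k] n = a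

/-- The orbits of `n` and `n'` meet. -/
def Meet (d m : ℕ) (r : ℤ → ℤ) (n n' : ℤ) : Prop :=
  ∃ a : ℤ, Reaches d m r n a ∧ Reaches d m r n' a

/-- The least elements of the classes of the relation that the orbits meet on `D`. -/
def Least (d m : ℕ) (r : ℤ → ℤ) : Set ℤ := {a | a ∈ D d ∧ ∀ b ∈ D d, Meet d m r b a → a ≤ b}

section basic

theorem count_eq (A : Set ℤ) (x : ℝ) : count A x = ND.cN A x := rfl

theorem inv_iff {d m : ℕ} {r : ℤ → ℤ} {A : Set ℤ} {x₀ : ℝ} :
    InvBeyond d m r A x₀ ↔ ND.InvBeyond d m r A x₀ := Iff.rfl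

theorem InvBeyond.mono {d m : ℕ} {r : ℤ → ℤ} {A : Set ℤ} {x₀ x₁ : ℝ} (h : InvBeyond d m r A x₀)
    (h1 : x₀ ≤ x₁) : InvBeyond d m r A x₁ :=
  ⟨h.1, fun n hn hx => h.2 n hn (lt_of_le_of_lt h1 hx)⟩

theorem count_nonneg (A : Set ℤ) (x : ℝ) : 0 ≤ count A x := by unfold count; positivity

theorem HasDensity.nonneg {A : Set ℤ} {δ : ℝ} (h : HasDensity A δ) : 0 ≤ δ := by
  refine ge_of_tendsto h ?_
  filter_upwards [eventually_gt_atTop 0] with x hx
  exact div_nonneg (count_nonneg A x) hx.le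

theorem HasDensity.unique {A : Set ℤ} {δ δ' : ℝ} (h : HasDensity A δ) (h' : HasDensity A δ') :
    δ = δ' := tendsto_nhds_unique h h'

/-- The error term. -/
theorem tendsto_err (C : ℝ) : Tendsto (fun x : ℝ => C / Real.log (Real.log x)) atTop (𝓝 0) :=
  (Real.tendsto_log_atTop.comp Real.tendsto_log_atTop).const_div_atTop C

/-- From the estimate with an error term to the natural density. -/
theorem hasDensity_of_le {A : Set ℤ} {δ C X : ℝ}
    (h : ∀ x : ℝ, X ≤ x → |count A x - δ * x| ≤ C * x / Real.log (Real.log x)) :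
    HasDensity A δ := by
  unfold HasDensity
  rw [tendsto_iff_norm_sub_tendsto_zero]
  refine squeeze_zero' (Eventually.of_forall fun x => norm_nonneg _) ?_ (tendsto_err C)
  filter_upwards [eventually_ge_atTop X, eventually_gt_atTop 0] with x hx hx0
  have h1 := h x hx
  rw [Real.norm_eq_abs]
  have e : count A x / x - δ = (count A x - δ * x) / x := by field_simp
  rw [e, abs_div, abs_of_pos hx0, div_le_iff₀ hx0]
  refine h1.trans (le_of_eq ?_)
  ring

end basic

section additivity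

variable {ι : Type}

theorem count_union {A B : Set ℤ} (h : Disjoint A B) (x : ℝ) :
    count (A ∪ B) x = count A x + count B x := by
  have h1 : {n : ℤ | n ∈ A ∪ B ∧ 0 < n ∧ (n : ℝ) ≤ x} =
      {n : ℤ | n ∈ A ∧ 0 < n ∧ (n : ℝ) ≤ x} ∪ {n : ℤ | n ∈ B ∧ 0 < n ∧ (n : ℝ) ≤ x} := by
    ext n
    simp only [Set.mem_union, Set.mem_ofPred_eq]
    tauto
  have h2 : Disjoint {n : ℤ | n ∈ A ∧ 0 < n ∧ (n : ℝ) ≤ x} {n : ℤ | n ∈ B ∧ 0 < n ∧ (n : ℝ) ≤ x} :=
    Set.disjoint_left.2 fun n hn hn' => Set.disjoint_left.1 h hn.1 hn'.1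
  unfold count
  rw [h1, Set.ncard_union_eq h2 (ND.finite_cN A x) (ND.finite_cN B x)]
  push_cast
  rfl

/-- Finite additivity. -/
theorem hasDensity_finset {A : ι → Set ℤ} (hdis : Pairwise (Function.onFun Disjoint A)) {δ : ι → ℝ}
    (hδ : ∀ i, HasDensity (A i) (δ i)) (s : Finset ι) :
    HasDensity (⋃ i ∈ s, A i) (∑ i ∈ s, δ i) := by
  classical
  induction s using Finset.induction_on with
  | empty =>
    have : (⋃ i ∈ (∅ : Finset ι), A i) = ∅ := by simp
    rw [this, Finset.sum_empty]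
    have h1 : ∀ x : ℝ, count (∅ : Set ℤ) x / x = 0 := by
      intro x
      unfold count
      simp
    unfold HasDensity
    simp only [h1]
    exact tendsto_const_nhds
  | insert i s his ih =>
    rw [Finset.set_biUnion_insert, Finset.sum_insert his]
    have h1 : Disjoint (A i) (⋃ j ∈ s, A j) := by
      rw [Set.disjoint_iUnion₂_right]
      intro j hj
      exact hdis (fun h => his (h ▸ hj))
    unfold HasDensity at *
    simp only [count_union h1, add_div]
    exact (hδ i).add ih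

end additivity

theorem invBeyond_iUnion {ι : Type} {d m : ℕ} {r : ℤ → ℤ} {A : ι → Set ℤ} {x₀ : ℝ}
    (h : ∀ i, InvBeyond d m r (A i) x₀) : InvBeyond d m r (⋃ i, A i) x₀ := by
  refine ⟨Set.iUnion_subset fun i => (h i).1, ?_⟩
  intro n hn hx hr
  simp only [Set.mem_iUnion]
  exact exists_congr fun i => (h i).2 n hn hx hr

theorem invBeyond_biUnion {ι : Type} {d m : ℕ} {r : ℤ → ℤ} {A : ι → Set ℤ} {x₀ : ℝ}
    (h : ∀ i, InvBeyond d m r (A i) x₀) (s : Finset ι) :
    InvBeyond d m r (⋃ i ∈ s, A i) x₀ := by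
  refine ⟨Set.iUnion₂_subset fun i _ => (h i).1, ?_⟩
  intro n hn hx hr
  simp only [Set.mem_iUnion]
  exact exists_congr fun i => exists_congr fun _ => (h i).2 n hn hx hr

/-- Countable additivity. -/
theorem sigma_additive {d m : ℕ} {r : ℤ → ℤ} {K : ℝ}
    (hK : ∀ x₀ : ℝ, 1 ≤ x₀ → ∀ A : Set ℤ, InvBeyond d m r A x₀ →
      ∃ δ : ℝ, 0 ≤ δ ∧ ∀ x : ℝ, K * x₀ ^ 16 ≤ x →
        |count A x - δ * x| ≤ K * x / Real.log (Real.log x))
    {x₀ : ℝ} {ι : Type} {A : ι → Set ℤ} (hA : ∀ i, InvBeyond d m r (A i) x₀)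
    (hdis : Pairwise (Function.onFun Disjoint A)) {δ : ι → ℝ} (hδ : ∀ i, HasDensity (A i) (δ i))
    {δ' : ℝ} (hδ' : HasDensity (⋃ i, A i) δ') : HasSum δ δ' := by
  classical
  have hA' : ∀ i, InvBeyond d m r (A i) (max 1 x₀) := fun i => (hA i).mono (le_max_right _ _)
  set x₁ := max 1 x₀ with hx₁
  have h1 : 1 ≤ x₁ := le_max_left _ _
  rw [HasSum, SummationFilter.unconditional_filter, Metric.tendsto_atTop]
  intro ε hε
  -- the choice of `x`
  have hlim := tendsto_err (2 * K)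
  obtain ⟨x, ⟨hx1, hx2⟩, hx3⟩ := ((hlim.eventually (gt_mem_nhds hε)).and
    (eventually_ge_atTop (K * x₁ ^ 16))).and (eventually_gt_atTop 0) |>.exists
  -- the finitely many sets which meet `[1, x]`
  set U := {n : ℤ | n ∈ (⋃ i, A i) ∧ 0 < n ∧ (n : ℝ) ≤ x} with hU
  have hUfin : U.Finite := ND.finite_cN _ x
  have hch : ∀ n ∈ U, ∃ i, n ∈ A i := fun n hn => Set.mem_iUnion.1 hn.1
  choose f hf using hch
  refine ⟨hUfin.toFinset.attach.image (fun n => f n.1 (hUfin.mem_toFinset.1 n.2)),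
    fun s hs => ?_⟩
  have hcount : count (⋃ i ∈ s, A i) x = count (⋃ i, A i) x := by
    unfold count
    congr 2
    ext n
    simp only [Set.mem_ofPred_eq]
    constructor
    · rintro ⟨a1, a2, a3⟩
      refine ⟨?_, a2, a3⟩
      simp only [Set.mem_iUnion] at a1 ⊢
      obtain ⟨i, _, a4⟩ := a1
      exact ⟨i, a4⟩
    · rintro ⟨a1, a2, a3⟩
      refine ⟨?_, a2, a3⟩
      have hn : n ∈ U := ⟨a1, a2, a3⟩
      simp only [Set.mem_iUnion]
      refine ⟨f n hn, ?_, hf n hn⟩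
      apply hs
      exact Finset.mem_image.2 ⟨⟨n, hUfin.mem_toFinset.2 hn⟩, Finset.mem_attach _ _, rfl⟩
  obtain ⟨δ₁, _, hδ₁⟩ := hK x₁ h1 _ (invBeyond_biUnion hA' s)
  obtain ⟨δ₂, _, hδ₂⟩ := hK x₁ h1 _ (invBeyond_iUnion hA')
  have e1 : δ₁ = ∑ i ∈ s, δ i := (hasDensity_of_le hδ₁).unique (hasDensity_finset hdis hδ s)
  have e2 : δ₂ = δ' := (hasDensity_of_le hδ₂).unique hδ'
  have e3 := hδ₁ x hx2
  have e4 := hδ₂ x hx2
  rw [hcount, e1] at e3
  rw [e2] at e4
  rw [Real.dist_eq]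
  have e5 : |(∑ i ∈ s, δ i - δ') * x| ≤ 2 * K / Real.log (Real.log x) * x := by
    have e6 : (∑ i ∈ s, δ i - δ') * x =
        (count (⋃ i, A i) x - δ' * x) - (count (⋃ i, A i) x - (∑ i ∈ s, δ i) * x) := by ring
    rw [e6]
    refine (abs_sub _ _).trans ((add_le_add e4 e3).trans (le_of_eq ?_))
    ring
  rw [abs_mul, abs_of_pos hx3] at e5
  exact lt_of_le_of_lt (le_of_mul_le_mul_right e5 hx3) hx1

section orbits

variable {d m : ℕ} {r : ℤ → ℤ}

theorem defd_succ {n : ℤ} {k : ℕ} :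
    Defd d m r n (k + 1) ↔ r (n % (d : ℤ)) < (m : ℤ) * n ∧ Defd d m r (H d m r n) k := by
  constructor
  · intro h
    refine ⟨by simpa using h 0 (by omega), fun i hi => ?_⟩
    have := h (i + 1) (by omega)
    rwa [Function.iterate_succ_apply] at this
  · rintro ⟨h1, h2⟩ i hi
    rcases i with _ | i
    · simpa using h1
    · rw [Function.iterate_succ_apply]
      exact h2 i (by omega)

theorem defd_add {n : ℤ} {k l : ℕ} :
    Defd d m r n (k + l) ↔ Defd d m r n k ∧ Defd d m r ((H d m r)^[k] n) l := by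
  induction k generalizing n with
  | zero =>
    rw [Nat.zero_add]
    exact ⟨fun h => ⟨fun i hi => absurd hi (by omega), h⟩, fun h => h.2⟩
  | succ k ih =>
    rw [Nat.add_right_comm, defd_succ, ih, defd_succ, Function.iterate_succ_apply, and_assoc]

theorem reaches_refl (n : ℤ) : Reaches d m r n n := ⟨0, fun i hi => absurd hi (by omega), rfl⟩

theorem Reaches.trans {n a b : ℤ} (h1 : Reaches d m r n a) (h2 : Reaches d m r a b) :
    Reaches d m r n b := by
  obtain ⟨k, hk, rfl⟩ := h1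
  obtain ⟨l, hl, rfl⟩ := h2
  exact ⟨k + l, defd_add.2 ⟨hk, hl⟩, by rw [Nat.add_comm, Function.iterate_add_apply]⟩

/-- Two points of an orbit. -/
theorem Reaches.total {n a b : ℤ} (h1 : Reaches d m r n a) (h2 : Reaches d m r n b) :
    Reaches d m r a b ∨ Reaches d m r b a := by
  obtain ⟨k, hk, rfl⟩ := h1
  obtain ⟨l, hl, rfl⟩ := h2
  rcases le_total k l with h | h
  · left
    obtain ⟨j, rfl⟩ := Nat.exists_eq_add_of_le h
    exact ⟨j, (defd_add.1 hl).2, by rw [Nat.add_comm, Function.iterate_add_apply]⟩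
  · right
    obtain ⟨j, rfl⟩ := Nat.exists_eq_add_of_le h
    exact ⟨j, (defd_add.1 hk).2, by rw [Nat.add_comm, Function.iterate_add_apply]⟩

theorem meet_refl (n : ℤ) : Meet d m r n n := ⟨n, reaches_refl n, reaches_refl n⟩

theorem Meet.symm {n n' : ℤ} (h : Meet d m r n n') : Meet d m r n' n := by
  obtain ⟨a, h1, h2⟩ := h
  exact ⟨a, h2, h1⟩

theorem Meet.trans {n n' n'' : ℤ} (h : Meet d m r n n') (h' : Meet d m r n' n'') :
    Meet d m r n n'' := by
  obtain ⟨a, h1, h2⟩ := h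
  obtain ⟨b, h3, h4⟩ := h'
  rcases h2.total h3 with h | h
  · exact ⟨b, h1.trans h, h4⟩
  · exact ⟨a, h1, h4.trans h⟩

theorem reaches_H {n : ℤ} (h : r (n % (d : ℤ)) < (m : ℤ) * n) : Reaches d m r n (H d m r n) :=
  ⟨1, by intro i hi; have : i = 0 := by omega
         subst this; simpa using h, rfl⟩

/-- `H` maps `D` to `D`. -/
theorem H_mem (hd : 2 ≤ d) (hr : Admissible d m r) {n : ℤ} (hn : n ∈ D d)
    (h : r (n % (d : ℤ)) < (m : ℤ) * n) : H d m r n ∈ D d := by
  obtain ⟨h1, c, h2⟩ := H_spec hr hd hn.2 h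
  refine ⟨?_, h1⟩
  have h3 := d_mul_T_of_not_dvd hr hd hn.2
  have hd0 : (0 : ℤ) < d := by omega
  have h4 : 0 < (d : ℤ) * T d m r n := by rw [h3]; omega
  have h5 : 0 < T d m r n := (mul_pos_iff_of_pos_left hd0).1 h4
  rw [h2] at h5
  have h6 : (0 : ℤ) < (d : ℤ) ^ c := by positivity
  exact (mul_pos_iff_of_pos_left h6).1 h5

/-- The set of the integers whose orbit contains `a`. -/
theorem inv_reaches (hd : 2 ≤ d) (hr : Admissible d m r) (a : ℤ) :
    InvBeyond d m r {n | n ∈ D d ∧ Reaches d m r n a} a := by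
  refine ⟨fun n hn => hn.1, fun n hn hx hdef => ?_⟩
  have hne : n ≠ a := by
    rintro rfl
    exact lt_irrefl _ hx
  constructor
  · rintro ⟨_, k, h1, h2⟩
    refine ⟨H_mem hd hr hn hdef, ?_⟩
    rcases k with _ | k
    · exact absurd h2 hne
    · refine ⟨k, (defd_succ.1 h1).2, ?_⟩
      rwa [Function.iterate_succ_apply] at h2
  · rintro ⟨_, h⟩
    exact ⟨hn, (reaches_H hdef).trans h⟩

/-- The classes of the relation that the orbits meet. -/
theorem inv_meet (hd : 2 ≤ d) (hr : Admissible d m r) (a : ℤ) (x₀ : ℝ) :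
    InvBeyond d m r {n | n ∈ D d ∧ Meet d m r n a} x₀ := by
  refine ⟨fun n hn => hn.1, fun n hn _ hdef => ?_⟩
  have h1 : Meet d m r n (H d m r n) := ⟨_, reaches_H hdef, reaches_refl _⟩
  constructor
  · rintro ⟨_, h⟩
    exact ⟨H_mem hd hr hn hdef, h1.symm.trans h⟩
  · rintro ⟨_, h⟩
    exact ⟨hn, h1.trans h⟩

theorem inv_D (hd : 2 ≤ d) (hr : Admissible d m r) (x₀ : ℝ) : InvBeyond d m r (D d) x₀ :=
  ⟨subset_rfl, fun _ hn _ hdef => ⟨fun _ => H_mem hd hr hn hdef, fun _ => hn⟩⟩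

/-- Every class has a least element. -/
theorem exists_least {n : ℤ} (hn : n ∈ D d) : ∃ a ∈ Least d m r, Meet d m r n a := by
  have hne : ∃ k : ℕ, ((k : ℤ) ∈ D d ∧ Meet d m r k n) :=
    ⟨n.toNat, by rw [Int.toNat_of_nonneg hn.1.le]; exact ⟨hn, meet_refl n⟩⟩
  classical
  obtain ⟨h1, h2⟩ := Nat.find_spec hne
  refine ⟨(Nat.find hne : ℤ), ⟨h1, fun b hb hb' => ?_⟩, h2.symm⟩
  by_contra hcon
  push Not at hcon
  have hb0 : ((b.toNat : ℕ) : ℤ) = b := Int.toNat_of_nonneg hb.1.le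
  have h3 : b.toNat < Nat.find hne := by omega
  apply Nat.find_min hne h3
  rw [hb0]
  exact ⟨hb, hb'.trans h2⟩

end orbits

/-- The density of `D`. -/
theorem hasDensity_D {d : ℕ} (hd : 2 ≤ d) : HasDensity (D d) (1 - 1 / d) := by
  have hd2 : (2 : ℝ) ≤ d := by exact_mod_cast hd
  have hd0 : (0 : ℝ) < d := by linarith
  -- the lift of `D` is the set of all positive integers
  have hall : ∀ x : ℝ, 0 ≤ x → |ND.cN (ND.lift d (D d)) x - x| ≤ 1 := by
    intro x hx
    have h1 : {n : ℤ | n ∈ ND.lift d (D d) ∧ 0 < n ∧ (n : ℝ) ≤ x} =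
        ((Finset.Icc (1 : ℤ) ⌊x⌋ : Finset ℤ) : Set ℤ) := by
      ext n
      rw [Finset.mem_coe, Finset.mem_Icc]
      constructor
      · rintro ⟨_, a1, a2⟩
        exact ⟨a1, Int.le_floor.2 a2⟩
      · rintro ⟨a1, a2⟩
        have a1' : 0 < n := a1
        obtain ⟨k, a, hk, ha, ha0⟩ := ND.exists_decomp hd a1'
        exact ⟨⟨k, a, ⟨ha0, ha⟩, hk⟩, a1', Int.le_floor.1 a2⟩
    have h3 : ((⌊x⌋ + 1 - 1).toNat : ℤ) = ⌊x⌋ := by
      rw [add_sub_cancel_right]
      exact Int.toNat_of_nonneg (Int.floor_nonneg.2 hx)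
    have h4 : ND.cN (ND.lift d (D d)) x = (⌊x⌋ : ℝ) := by
      unfold ND.cN
      rw [h1, Set.ncard_coe_finset, Int.card_Icc]
      exact_mod_cast h3
    have h5 := Int.floor_le x
    have h6 := Int.lt_floor_add_one x
    rw [h4, abs_le]
    constructor <;> linarith
  have hcount : ∀ x : ℝ, 0 ≤ x → |count (D d) x - (1 - 1 / d) * x| ≤ 2 := by
    intro x hx
    have h1 : ND.cN (ND.lift d (D d)) x = count (D d) x + ND.cN (ND.lift d (D d)) (x / d) :=
      ND.cN_lift hd subset_rfl x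
    have h2 := abs_le.1 (hall x hx)
    have h3 := abs_le.1 (hall (x / d) (by positivity))
    have e : (1 - 1 / d) * x = x - x / d := by field_simp
    rw [e, abs_le]
    constructor <;> linarith
  unfold HasDensity
  rw [tendsto_iff_norm_sub_tendsto_zero]
  have hlim : Tendsto (fun x : ℝ => 2 / x) atTop (𝓝 0) := tendsto_id.const_div_atTop 2
  refine squeeze_zero' (Eventually.of_forall fun x => norm_nonneg _) ?_ hlim
  filter_upwards [eventually_gt_atTop 0] with x hx0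
  rw [Real.norm_eq_abs]
  have e : count (D d) x / x - (1 - 1 / d) = (count (D d) x - (1 - 1 / d) * x) / x := by field_simp
  rw [e, abs_div, abs_of_pos hx0]
  exact div_le_div_of_nonneg_right (hcount x hx0.le) hx0.le

/-- **The invariant sets have a natural density.** -/
theorem result (d m : ℕ) (hd : 2 ≤ d) (hdm : d < m) (hco : Nat.Coprime m d)
    (hm : (m : ℝ) ≤ (d : ℝ) ^ ((d : ℝ) / ((d : ℝ) - 1))) (r : ℤ → ℤ) (hr : Admissible d m r) :
    (∃ C : ℝ, ∀ x₀ : ℝ, 1 ≤ x₀ → ∀ A : Set ℤ, InvBeyond d m r A x₀ → ∃ δ : ℝ, 0 ≤ δ ∧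
      ∀ x : ℝ, C * x₀ ^ 16 ≤ x → |count A x - δ * x| ≤ C * x / Real.log (Real.log x)) ∧
    (∀ a : ℤ, ∃ δ : ℝ, HasDensity {n | n ∈ D d ∧ Reaches d m r n a} δ) ∧
    (∀ (x₀ : ℝ) (ι : Type) (A : ι → Set ℤ), (∀ i, InvBeyond d m r (A i) x₀) →
      Pairwise (Function.onFun Disjoint A) → ∃ (δ : ι → ℝ) (δ' : ℝ), (∀ i, HasDensity (A i) (δ i)) ∧
        HasDensity (⋃ i, A i) δ' ∧ HasSum δ δ') ∧
    (∃ δ : ℤ → ℝ, (∀ a ∈ D d, HasDensity {n | n ∈ D d ∧ Meet d m r n a} (δ a)) ∧
      HasSum (fun a : Least d m r => δ a) (1 - 1 / (d : ℝ)) ∧ ∃ a ∈ D d, 0 < δ a) := by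
  obtain ⟨K, _, _, hK⟩ := ND.density_H hd hdm hco hm hr
  have hK' : ∀ x₀ : ℝ, 1 ≤ x₀ → ∀ A : Set ℤ, InvBeyond d m r A x₀ →
      ∃ δ : ℝ, 0 ≤ δ ∧ ∀ x : ℝ, K * x₀ ^ 16 ≤ x →
        |count A x - δ * x| ≤ K * x / Real.log (Real.log x) := hK
  have hex : ∀ (x₀ : ℝ) (A : Set ℤ), InvBeyond d m r A x₀ → ∃ δ, HasDensity A δ := by
    intro x₀ A hA
    obtain ⟨δ, _, hδ⟩ := hK' (max 1 x₀) (le_max_left _ _) A (hA.mono (le_max_right _ _))
    exact ⟨δ, hasDensity_of_le hδ⟩
  refine ⟨⟨K, hK'⟩, ?_, ?_, ?_⟩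
  · intro a
    exact hex _ _ (inv_reaches hd hr a)
  · intro x₀ ι A hA hdis
    have h1 : ∀ i, ∃ δ, HasDensity (A i) δ := fun i => hex _ _ (hA i)
    choose δ hδ using h1
    obtain ⟨δ', hδ'⟩ := hex x₀ _ (invBeyond_iUnion hA)
    exact ⟨δ, δ', hδ, hδ', sigma_additive hK' hA hdis hδ hδ'⟩
  · have h1 : ∀ a : ℤ, ∃ δ, HasDensity {n | n ∈ D d ∧ Meet d m r n a} δ :=
      fun a => hex 1 _ (inv_meet hd hr a 1)
    choose δ hδ using h1
    refine ⟨δ, fun a _ => hδ a, ?_⟩
    have hun : (⋃ a : Least d m r, {n | n ∈ D d ∧ Meet d m r n a}) = D d := by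
      ext n
      simp only [Set.mem_iUnion, Set.mem_ofPred_eq]
      constructor
      · rintro ⟨_, h, _⟩; exact h
      · intro hn
        obtain ⟨a, ha, h⟩ := exists_least hn
        exact ⟨⟨a, ha⟩, hn, h⟩
    have hsum : HasSum (fun a : Least d m r => δ a) (1 - 1 / (d : ℝ)) := by
      refine sigma_additive hK' (x₀ := 1)
        (A := fun a : Least d m r => {n | n ∈ D d ∧ Meet d m r n a})
        (fun a => inv_meet hd hr a 1) ?_ (fun a => hδ a) (by rw [hun]; exact hasDensity_D hd)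
      intro a b hab
      refine Set.disjoint_left.2 fun n hn hn' => hab ?_
      have h2 : Meet d m r a b := hn.2.symm.trans hn'.2
      have h3 := b.2.2 a a.2.1 h2
      have h4 := a.2.2 b b.2.1 h2.symm
      exact Subtype.ext (le_antisymm h4 h3)
    refine ⟨hsum, ?_⟩
    by_contra hcon
    push Not at hcon
    have h0 : ∀ a : Least d m r, δ a = 0 := fun a =>
      le_antisymm (hcon a a.2.1) (hδ a).nonneg
    have h2 : (1 - 1 / (d : ℝ)) = 0 := by
      have h3 : HasSum (fun a : Least d m r => δ a) 0 := by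
        simp only [h0]
        exact hasSum_zero
      exact hsum.unique h3
    have h4 : (2 : ℝ) ≤ d := by exact_mod_cast hd
    have h5 : 1 / (d : ℝ) ≤ 1 / 2 := one_div_le_one_div_of_le (by norm_num) h4
    linarith

end Pool.Agent.Results.MP_fd8838_nt.NaturalDensity
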