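import Pool.Agent.Helper8.PRE.Cons
import Pool.Agent.Helper91.PL.D3

/-!
# The predecessor exponent is one

`T n = n / d` if `d ∣ n`, `T n = (m n - r_j) / d` if `n ≡ j (mod d)`, `1 ≤ j ≤ d - 1`, as in the problem file; `Pred a` is the set
of the integers whose `T`-orbit contains `a`. Let `2 ≤ d < m ≤ d ^ (d / (d - 1))` be coprime and `R`
admissible. For every `γ < 1` there is `c > 0` such that every positive integer `a` which is not dead has at least
`c (x / a) ^ γ` elements of `Pred a` up to `x`, for all `x ≥ a`. For `3x + 1` the dead integers are the multiples of `3`.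

Consequences. The exceptional set `E(d, m, R)` is finite if and only if, for some `B` and some `γ < 1`, there
are arbitrarily large `x` such that fewer than `x ^ γ` of the integers `n ≤ x` have `T^[k] n > B` for all `k`. If the
`3x + 1` conjecture fails for one integer then it fails for at least `c x ^ γ` integers up to `x`, for every `γ < 1`.

Structure of the proof.
* `Helper28/ED` (with parts of `Helper28/EC`): affine letter systems over the integers, expanding by `m^b`. If the mean value of
  `log Z1` (`Z1 a` the total weight of the valid letters at `a`) over every alive residue class is at least `cs > 0`,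
  then the weighted number of valid chains of length `t` is at least `exp (cs t / 2)` at every alive point, for some `t ≥ 1`.
  Otherwise the chain which follows the letters with probabilities proportional to their weights has a stationary
  measure for which the mean of `log Z1` is smaller; but the entropy of a stationary measure grows too fast unless the measure is
  locally uniform (different chains have different offsets; entropy of convolutions on `Z / m^w`), and then the mean is
  an average of the means over the residue classes.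
* `Helper8/PRE/P1a`-`P1e`, `P2`: the systems attached to the map: letters are words with `b` non-zero digits.
* `P5a`-`P5d`: by the fine-scale mixing of the Syracuse random variables (`Helper52.Tao`) and the positivity
  of the limit law at almost all points which are not dead (`Helper91.PL`), typical points have a large `Z1`.
* `P6`, `P7r`-`P7b`, `P9`: from chains to predecessors. `P8a`-`P8e`: being dead is decided modulo a power of `m`.
  `Stay`, `Cons`: the consequences.
-/

set_option autoImplicit false

namespace Pool.Agent.Helper8.PredecessorExponentReserve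

open Pool.Agent.Helper68.Moeller Pool.Agent.Helper91 Pool.Agent.Helper8

/-- The number of the positive elements `≤ x`. -/
noncomputable def count (A : Set ℤ) (x : ℝ) : ℝ := ({n : ℤ | n ∈ A ∧ 0 < n ∧ (n : ℝ) ≤ x}.ncard : ℝ)

/-- The integers whose orbit under `T` contains `a`. -/
def Pred (d m : ℕ) (r : ℤ → ℤ) (a : ℤ) : Set ℤ := {n | ∃ t : ℕ, (T d m r)^[t] n = a}

/-- `a` is dead: the number of the points not divisible by `d` on the path from `n` to `a` is bounded,
for the integers `n` whose orbit contains `a`. -/
def Dead (d m : ℕ) (r : ℤ → ℤ) (a : ℤ) : Prop :=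
  ∃ k : ℕ, ∀ (n : ℤ) (t : ℕ), (T d m r)^[t] n = a →
    ((Finset.range t).filter (fun i => ¬ (d : ℤ) ∣ (T d m r)^[i] n)).card < k

/-- The integers whose whole orbit under `T` is `> B`. -/
def Above (d m : ℕ) (r : ℤ → ℤ) (B : ℝ) : Set ℤ := {n | ∀ k : ℕ, B < ((T d m r)^[k] n : ℝ)}

/-- The map `(3x + 1) / 2`, `x / 2`. -/
def T3 : ℤ → ℤ := T 2 3 (fun _ => -1)

/-- **The predecessor exponent is one.** -/
theorem result :
    (∀ (d m : ℕ), 2 ≤ d → d < m → Nat.Coprime m d →
      (m : ℝ) ≤ (d : ℝ) ^ ((d : ℝ) / ((d : ℝ) - 1)) → ∀ r : ℤ → ℤ, Admissible d m r →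
      -- the predecessors
      (∀ γ : ℝ, γ < 1 → ∃ c : ℝ, 0 < c ∧ ∀ (a : ℤ) (x : ℝ), 1 ≤ a → ¬ Dead d m r a → (a : ℝ) ≤ x →
        c * (x / a) ^ γ ≤ count (Pred d m r a) x) ∧
      -- the exceptional set
      ((E d m r).Finite ↔ ∃ B γ : ℝ, γ < 1 ∧ ∀ X : ℝ, ∃ x : ℝ, X ≤ x ∧
        count (Above d m r B) x < x ^ γ)) ∧
    -- the map `3x + 1`
    (∀ a : ℤ, Dead 2 3 (fun _ => -1) a ↔ (3 : ℤ) ∣ a) ∧
    ((∃ n : ℤ, 0 < n ∧ ∀ t : ℕ, T3^[t] n ≠ 1) → ∀ γ : ℝ, γ < 1 → ∃ c : ℝ, 0 < c ∧ ∃ X : ℝ,
      ∀ x : ℝ, X ≤ x → c * x ^ γ ≤ count {n | ∀ t : ℕ, T3^[t] n ≠ 1} x) := by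
  refine ⟨?_, fun a => PL.dead_three a, ?_⟩
  · intro d m hd hdm hco hw r hr
    refine ⟨?_, ?_, ?_⟩
    · intro γ hγ
      obtain ⟨c, hc, h⟩ := PRE.exponent_one hd hdm hco hw hr hγ
      exact ⟨c, hc, fun a x ha hdead hx => h a x ha hdead hx⟩
    · intro hfin
      obtain ⟨B, hB⟩ := PRE.stay_empty hd hr hfin
      refine ⟨B, 0, by norm_num, fun X => ⟨X, le_refl X, ?_⟩⟩
      have h0 : {n : ℤ | n ∈ Above d m r B ∧ 0 < n ∧ (n : ℝ) ≤ X} = ∅ := by
        ext n
        constructor
        · rintro ⟨h, -⟩
          exact hB n ⟨0, fun k _ => h k⟩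
        · intro h
          exact absurd h (Set.notMem_empty n)
      unfold count
      rw [h0, Set.ncard_empty, Real.rpow_zero]
      norm_num
    · rintro ⟨B, γ, hγ, h⟩
      by_contra hinf
      obtain ⟨g, hg1, hg2⟩ := exists_between hγ
      obtain ⟨c, hc, X, hX⟩ := PRE.stay_large hd hdm hco hw hr hinf B hg2
      -- `c x ^ g > x ^ γ` for large `x`
      have hlim : Filter.Tendsto (fun x : ℝ => x ^ (g - γ)) Filter.atTop Filter.atTop :=
        tendsto_rpow_atTop (by linarith)
      obtain ⟨Y, hY⟩ := Filter.eventually_atTop.1 (hlim.eventually_ge_atTop (1 / c))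
      obtain ⟨x, hx, hlt⟩ := h (max (max X Y) 1)
      have hx1 : X ≤ x := le_trans (le_trans (le_max_left _ _) (le_max_left _ _)) hx
      have hx2 : Y ≤ x := le_trans (le_trans (le_max_right _ _) (le_max_left _ _)) hx
      have hx3 : 1 ≤ x := le_trans (le_max_right _ _) hx
      have h1 := hX x hx1
      have h2 := hY x hx2
      have h3 : x ^ g = x ^ (g - γ) * x ^ γ := by
        rw [← Real.rpow_add (by linarith)]
        congr 1
        ring
      have h4 : 0 < x ^ γ := Real.rpow_pos_of_pos (by linarith) _
      have h5 : x ^ γ ≤ c * x ^ g := by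
        rw [h3, ← mul_assoc]
        have h6 : 1 ≤ c * x ^ (g - γ) := by
          have := mul_le_mul_of_nonneg_left h2 hc.le
          rwa [mul_one_div_cancel hc.ne'] at this
        nlinarith
      have h7 : c * x ^ g ≤ count (Above d m r B) x := h1
      linarith
  · rintro ⟨n, hn, hn1⟩ γ hγ
    exact PRE.three_many hn hn1 hγ

end Pool.Agent.Helper8.PredecessorExponentReserve
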