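import Pool.Agent.Helper91.PL.FIN
import Pool.Agent.Helper91.PL.D3
import Pool.Agent.Helper91.PL.MU
import Pool.Agent.Helper52.Tao.U3
import Pool.Agent.Helper52.Tao.FD
import Pool.Agent.Helper52.Tao.MX1
import Pool.Agent.Helper52.Tao.MX2

/-!
# The predecessor law for the Möller maps

`T n = n / d` if `d ∣ n`, `T n = (m n - r_j) / d` if `n ≡ j (mod d)`, `1 ≤ j ≤ d - 1`, as in the problem
file; `Pred a` is the set of the integers whose `T`-orbit contains `a`. For all coprime
`2 ≤ d < m ≤ d ^ (d / (d - 1))` and all admissible residues, the set `Pred a` has a natural density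
`c a`, and for almost all `a`, in the sense of natural density, `γ a c a` is close to `f k a`, where
`γ = log d - (1 - 1/d) log m` is the negative drift and `f k` the density of the limit law of
`T^[t] n` modulo `m ^ k` (the law of the Syracuse random variable). Consequently `a c a` has a limit
distribution `μ`, of mean `1 / γ`. The mass of `0` under `μ` is the natural density of the dead
integers `a` (those which do not have predecessors with arbitrarily many points not divisible by `d` on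
the way to `a`; for `3x + 1` these are the multiples of `3`), and for almost all other integers `a` one
has `c a ≥ δ / a`.

Structure of the proof (`Pool.Agent.Helper91.PL`; the number of visits of sets in `[y, 2y)`).
* `NUa`, `NUb`, `NUc`: the limit law and its densities `fk` modulo `m ^ k`; by the fine-scale mixing of
  the Syracuse random variables (`Helper52.Tao`) the `fk` form a Cauchy sequence in `L¹`.
* `SW`, `DT`, `EX`, `P2L`, `P2U`, `HT`: the expected number of visits of a set `B ⊆ [y, 2y)`, for `n` random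
  at a logarithmic scale, is `γ⁻¹ ∑_{b ∈ B} fk b / b` up to small errors.
* `VC`, `P3`, `LOW`: the second moment of the number of visits and the lower bound.
* `TR`, `U2a`, `U2b`, `QB`, `BAD`, `UPP`: an orbit which has left the window rarely comes back (flow
  inequality, iterated finitely often), apart from few exceptional points, and the upper bound.
* `ST1`, `ST2`, `ST3`: the densities of the invariant sets in `[A, 2A)` stabilise early.
* `TWO`, `FIN`: the law. `FD`, `MU`: the limit distribution. `POS`, `DE`, `D3`: positivity, dead points.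
-/

set_option autoImplicit false

namespace Pool.Agent.Results.MP_fd8838_nt.PredecessorLaw

open Pool.Agent.Helper68.Moeller Pool.Agent.Helper52.Tao Pool.Agent.Helper8 Pool.Agent.Helper91
  MeasureTheory Filter Topology

/-- The number of the positive elements `≤ x`. -/
noncomputable def count (A : Set ℤ) (x : ℝ) : ℝ := ({n : ℤ | n ∈ A ∧ 0 < n ∧ (n : ℝ) ≤ x}.ncard : ℝ)

/-- `A` has the natural density `δ` (in the positive integers). -/
def HasDensity (A : Set ℤ) (δ : ℝ) : Prop := Tendsto (fun x : ℝ => count A x / x) atTop (𝓝 δ)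

/-- The negative drift `γ = log d - (1 - 1 / d) log m` of the walk `log (T^[k] n)`. -/
noncomputable def drift (d m : ℕ) : ℝ := Real.log d - (1 - 1 / (d : ℝ)) * Real.log m

/-- The integers whose orbit under `T` contains `a`. -/
def Pred (d m : ℕ) (r : ℤ → ℤ) (a : ℤ) : Set ℤ := {n | ∃ t : ℕ, (T d m r)^[t] n = a}

/-- `a` is dead: the number of the points not divisible by `d` on the path from `n` to `a` is bounded,
for the integers `n` whose orbit contains `a`. -/
def Dead (d m : ℕ) (r : ℤ → ℤ) (a : ℤ) : Prop :=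
  ∃ k : ℕ, ∀ (n : ℤ) (t : ℕ), (T d m r)^[t] n = a →
    ((Finset.range t).filter (fun i => ¬ (d : ℤ) ∣ (T d m r)^[i] n)).card < k

/-- `f k b` is the limit, as `t → ∞`, of `m ^ k` times the proportion of the `n` modulo `d ^ t m ^ k`
such that `T^[t] n` is congruent to `b` modulo `m ^ k`. -/
def IsLimitLaw (d m : ℕ) (r : ℤ → ℤ) (f : ℕ → ℤ → ℝ) : Prop :=
  ∀ (k : ℕ) (b : ℤ), Tendsto (fun t : ℕ => (((Finset.range (d ^ t * m ^ k)).filter
    (fun n : ℕ => (m : ℤ) ^ k ∣ (T d m r)^[t] (n : ℤ) - b)).card : ℝ) / (d : ℝ) ^ t) atTop (𝓝 (f k b))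

theorem dead_iff (d m : ℕ) (r : ℤ → ℤ) (a : ℤ) : PL.Dead d m r a ↔ Dead d m r a := Iff.rfl

/-- **The predecessor law.** -/
theorem result :
    (∀ (d m : ℕ), 2 ≤ d → d < m → Nat.Coprime m d →
      (m : ℝ) ≤ (d : ℝ) ^ ((d : ℝ) / ((d : ℝ) - 1)) → ∀ r : ℤ → ℤ, Admissible d m r →
      0 < drift d m ∧ ∃ (c : ℤ → ℝ) (f : ℕ → ℤ → ℝ) (μ : Measure ℝ),
        -- the densities, and the limit law
        (∀ a, HasDensity (Pred d m r a) (c a)) ∧ IsLimitLaw d m r f ∧
        -- the predecessor law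
        (∀ ε : ℝ, 0 < ε → ∃ k₀ : ℕ, ∀ k : ℕ, k₀ ≤ k → ∃ X : ℝ, ∀ x : ℝ, X ≤ x →
          count {a | ε < |drift d m * a * c a - f k a|} x ≤ ε * x) ∧
        -- the limit distribution
        (IsProbabilityMeasure μ ∧ (∀ᵐ s ∂μ, 0 ≤ s) ∧ Integrable (fun s => s) μ ∧
          ∫ s, s ∂μ = 1 / drift d m ∧
          ∀ φ : ℝ → ℝ, Continuous φ → (∃ M, ∀ s, |φ s| ≤ M) →
            Tendsto (fun x : ℝ => (∑ a ∈ Finset.Icc 1 ⌊x⌋₊, φ (a * c a)) / x) atTop
              (𝓝 (∫ s, φ s ∂μ))) ∧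
        -- the dead integers
        (∀ a, Dead d m r a → c a = 0) ∧ HasDensity {a | Dead d m r a} (μ.real {0}) ∧
        μ.real {0} < 1 ∧
        -- positivity for almost all other integers
        (∀ ε : ℝ, 0 < ε → ∃ δ : ℝ, 0 < δ ∧ ∃ X : ℝ, ∀ x : ℝ, X ≤ x →
          count {a | ¬ Dead d m r a ∧ c a < δ / a} x ≤ ε * x)) ∧
    -- the dead integers of the map `3x + 1`
    (∀ a : ℤ, Dead 2 3 (fun _ => -1) a ↔ (3 : ℤ) ∣ a) := by
  refine ⟨?_, fun a => (dead_iff 2 3 _ a).symm.trans (PL.dead_three a)⟩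
  intro d m hd hdm hco hm r hr
  have hd2 : (2 : ℝ) ≤ d := by exact_mod_cast hd
  have hd0 : (0 : ℝ) < d := by linarith
  have hm1 : 1 ≤ m := by omega
  have hmix : Mixing d m r := mixing hd hdm hco (mixing_step hd hdm hco hm hr
    (fourier_decay hd hdm hco hm hr (one_block hd hdm hco hm)))
  have hγ' : (1 - 1 / (d : ℝ)) * Real.log m < Real.log d := by
    have h1 := log_m_lt hd hdm hco hm
    have e : (1 - 1 / (d : ℝ)) * Real.log m = (((d : ℝ) - 1) * Real.log m) / d := by
      field_simp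
    rw [e, div_lt_iff₀ hd0]
    linarith
  have hγ : 0 < drift d m := by unfold drift; linarith
  have hg : 0 < PL.gam d m := hγ
  -- the densities
  have hdens : ∀ a, HasDensity (Pred d m r a) (PL.dens (PL.Pr d m r a)) := by
    intro a
    exact PL.hasDensity_of_fd (PL.stab_tendsto hd hdm hco hr hg hmix (PL.tinv_Pr d m r a))
  have hc0 : ∀ a, 0 ≤ PL.dens (PL.Pr d m r a) := by
    intro a
    refine ge_of_tendsto (hdens a) ?_
    filter_upwards [eventually_gt_atTop 0] with x hx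
    exact div_nonneg (by unfold count; positivity) hx.le
  have hlaw : ∀ ε : ℝ, 0 < ε → ∃ k₀ : ℕ, ∀ k : ℕ, k₀ ≤ k → ∃ X : ℝ, ∀ x : ℝ, X ≤ x →
      ND.cN {a : ℤ | ε < |PL.gam d m * a * PL.dens (PL.Pr d m r a) - PL.fk d m r k a|} x ≤
        ε * x := fun ε hε => PL.law hd hdm hco hm hr hg hmix hε
  have hf0 : ∀ (k : ℕ) (b : ℤ), 0 ≤ PL.fk d m r k b := fun k b => PL.fk_nonneg k b
  have hper : ∀ (k : ℕ) (b b' : ℤ), (m : ℤ) ^ k ∣ b - b' → PL.fk d m r k b = PL.fk d m r k b' := by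
    intro k b b' h
    unfold PL.fk
    rw [PL.nu_congr h]
  have hmean : ∀ k, ∑ b ∈ Finset.range (m ^ k), PL.fk d m r k b = (m : ℝ) ^ k :=
    fun k => PL.sum_fk7 hd hm1 hco k
  have hcau : ∀ ε : ℝ, 0 < ε → ∃ k0 : ℕ, ∀ K : ℕ, k0 ≤ K →
      ∑ b ∈ Finset.range (m ^ K), |PL.fk d m r K b - PL.fk d m r k0 b| ≤ ε * (m : ℝ) ^ K := by
    intro ε hε
    obtain ⟨k0, h⟩ := PL.nu_cauchy (r := r) hd hdm hco hmix hε
    refine ⟨k0, fun K hK => ?_⟩
    have h1 := h k0 K le_rfl hK
    have hmK : (0 : ℝ) < (m : ℝ) ^ K := by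
      have : (0 : ℝ) < m := by exact_mod_cast hm1
      positivity
    have h2 : ∑ b ∈ Finset.range (m ^ K), |PL.fk d m r K b - PL.fk d m r k0 b| =
        (m : ℝ) ^ K * ∑ c ∈ Finset.range (m ^ K),
          |PL.nu d m r K c - PL.nu d m r k0 c / (m : ℝ) ^ (K - k0)| := by
      rw [Finset.mul_sum]
      refine Finset.sum_congr rfl fun b _ => ?_
      have h4 : ∀ z : ℝ, (m : ℝ) ^ K * |z| = |(m : ℝ) ^ K * z| := fun z => by
        rw [abs_mul, abs_of_pos hmK]
      rw [h4]
      congr 1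
      unfold PL.fk
      have e : (m : ℝ) ^ K = (m : ℝ) ^ k0 * (m : ℝ) ^ (K - k0) := by
        rw [← pow_add]; congr 1; omega
      have h3 : (m : ℝ) ^ (K - k0) ≠ 0 := by
        have : (0 : ℝ) < m := by exact_mod_cast hm1
        positivity
      rw [e]
      field_simp
    rw [h2, mul_comm ε]
    exact mul_le_mul_of_nonneg_left h1 hmK.le
  have hlim := fun (φ : ℝ → ℝ) (hφ : Continuous φ) (hM : ∃ M, ∀ s, |φ s| ≤ M) =>
    PL.limit_law hm1 hg hf0 hper hmean hlaw hφ hM.choose_spec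
  obtain ⟨μ, hμ1, hμ2, hμ3, hμ4, hμ5⟩ := PL.exists_measure hm1 hg hf0 hper hmean hcau
    fun φ hφ hM => by
      obtain ⟨L, _, h⟩ := hlim φ hφ hM
      exact ⟨L, h⟩
  have hφ : ∀ φ : ℝ → ℝ, Continuous φ → (∃ M, ∀ s, |φ s| ≤ M) →
      Tendsto (fun x : ℝ => (∑ a ∈ Finset.Icc 1 ⌊x⌋₊, φ (a * PL.dens (PL.Pr d m r a))) / x) atTop
        (𝓝 (∫ s, φ s ∂μ)) := by
    intro φ hφ hM
    obtain ⟨L, h1, h2⟩ := hlim φ hφ hM
    rw [tendsto_nhds_unique (hμ5 φ hφ hM) h2]
    exact h1
  have hposl : ∀ ε : ℝ, 0 < ε → ∃ δ : ℝ, 0 < δ ∧ ∃ X : ℝ, ∀ x : ℝ, X ≤ x →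
      ND.cN {a : ℤ | a ∉ {a | PL.Dead d m r a} ∧ PL.dens (PL.Pr d m r a) < δ / a} x ≤ ε * x :=
    fun ε hε => PL.positivity_law hd hdm hco hm hr hg hmix hε
  have hdead : ∀ a, PL.Dead d m r a → PL.dens (PL.Pr d m r a) = 0 :=
    fun a ha => PL.dead_dens hd hdm hco hr ha
  have hdd : Tendsto (fun x : ℝ => ND.cN {a | PL.Dead d m r a} x / x) atTop (𝓝 (μ.real {0})) :=
    PL.dead_density (c := fun a => PL.dens (PL.Pr d m r a)) (S := {a | PL.Dead d m r a})
      hφ hdead hposl hc0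
  refine ⟨hγ, fun a => PL.dens (PL.Pr d m r a), PL.fk d m r, μ, hdens, ?_, ?_, ?_, ?_, ?_, ?_, ?_⟩
  · exact fun k b => PL.fk_limit hd hdm hco hr k b
  · exact hlaw
  · exact ⟨hμ1, hμ2, hμ3, hμ4, hφ⟩
  · exact hdead
  · exact hdd
  · refine PL.mass_zero_lt ?_
    rw [hμ4]
    exact one_div_pos.2 hg
  · exact hposl

end Pool.Agent.Results.MP_fd8838_nt.PredecessorLaw
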