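import Mathlib

/-!
# The quantum exterior algebra on two generators

`QAlg B q` is the free `B`-module with basis `1, x, y, z` and the multiplication
`x² = y² = 0`, `y x = z`, `x y = q z`, all other products of basis vectors of `{x, y, z}` zero.
-/

set_option autoImplicit false

universe u v

namespace Pool.Agent.Helper8

/-- The algebra with `B`-basis `1, x, y, z`, `x² = y² = 0`, `y x = z`, `x y = q z`. -/
@[ext] structure QAlg (B : Type u) (q : B) where
  /-- coefficient of `1` -/
  r : B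
  /-- coefficient of `x` -/
  a : B
  /-- coefficient of `y` -/
  b : B
  /-- coefficient of `z` -/
  c : B

namespace QAlg

variable {B : Type u} [CommRing B] {q : B}

instance : Zero (QAlg B q) := ⟨⟨0, 0, 0, 0⟩⟩
instance : One (QAlg B q) := ⟨⟨1, 0, 0, 0⟩⟩
instance : Add (QAlg B q) := ⟨fun f g => ⟨f.r + g.r, f.a + g.a, f.b + g.b, f.c + g.c⟩⟩
instance : Neg (QAlg B q) := ⟨fun f => ⟨-f.r, -f.a, -f.b, -f.c⟩⟩
instance : Mul (QAlg B q) := ⟨fun f g => ⟨f.r * g.r, f.r * g.a + f.a * g.r, f.r * g.b + f.b * g.r,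
  f.r * g.c + f.c * g.r + f.b * g.a + q * f.a * g.b⟩⟩

@[simp] lemma zero_r : (0 : QAlg B q).r = 0 := rfl
@[simp] lemma zero_a : (0 : QAlg B q).a = 0 := rfl
@[simp] lemma zero_b : (0 : QAlg B q).b = 0 := rfl
@[simp] lemma zero_c : (0 : QAlg B q).c = 0 := rfl
@[simp] lemma one_r : (1 : QAlg B q).r = 1 := rfl
@[simp] lemma one_a : (1 : QAlg B q).a = 0 := rfl
@[simp] lemma one_b : (1 : QAlg B q).b = 0 := rfl
@[simp] lemma one_c : (1 : QAlg B q).c = 0 := rfl
@[simp] lemma add_r (f g : QAlg B q) : (f + g).r = f.r + g.r := rfl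
@[simp] lemma add_a (f g : QAlg B q) : (f + g).a = f.a + g.a := rfl
@[simp] lemma add_b (f g : QAlg B q) : (f + g).b = f.b + g.b := rfl
@[simp] lemma add_c (f g : QAlg B q) : (f + g).c = f.c + g.c := rfl
@[simp] lemma neg_r (f : QAlg B q) : (-f).r = -f.r := rfl
@[simp] lemma neg_a (f : QAlg B q) : (-f).a = -f.a := rfl
@[simp] lemma neg_b (f : QAlg B q) : (-f).b = -f.b := rfl
@[simp] lemma neg_c (f : QAlg B q) : (-f).c = -f.c := rfl
@[simp] lemma mul_r (f g : QAlg B q) : (f * g).r = f.r * g.r := rfl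
@[simp] lemma mul_a (f g : QAlg B q) : (f * g).a = f.r * g.a + f.a * g.r := rfl
@[simp] lemma mul_b (f g : QAlg B q) : (f * g).b = f.r * g.b + f.b * g.r := rfl
@[simp] lemma mul_c (f g : QAlg B q) :
    (f * g).c = f.r * g.c + f.c * g.r + f.b * g.a + q * f.a * g.b := rfl

instance : Ring (QAlg B q) where
  add_assoc f g h := by ext <;> simp [add_assoc]
  zero_add f := by ext <;> simp
  add_zero f := by ext <;> simp
  add_comm f g := by ext <;> simp [add_comm]
  mul_assoc f g h := by ext <;> simp <;> ring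
  one_mul f := by ext <;> simp
  mul_one f := by ext <;> simp
  left_distrib f g h := by ext <;> simp <;> ring
  right_distrib f g h := by ext <;> simp <;> ring
  zero_mul f := by ext <;> simp
  mul_zero f := by ext <;> simp
  neg_add_cancel f := by ext <;> simp
  nsmul := nsmulRec
  zsmul := zsmulRec

@[simp] lemma sub_r (f g : QAlg B q) : (f - g).r = f.r - g.r := by rw [sub_eq_add_neg]; simp [sub_eq_add_neg]
@[simp] lemma sub_a (f g : QAlg B q) : (f - g).a = f.a - g.a := by rw [sub_eq_add_neg]; simp [sub_eq_add_neg]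
@[simp] lemma sub_b (f g : QAlg B q) : (f - g).b = f.b - g.b := by rw [sub_eq_add_neg]; simp [sub_eq_add_neg]
@[simp] lemma sub_c (f g : QAlg B q) : (f - g).c = f.c - g.c := by rw [sub_eq_add_neg]; simp [sub_eq_add_neg]

/-- An element is invertible as soon as its constant coefficient is. -/
lemma isUnit_of_isUnit_r {f : QAlg B q} (h : IsUnit f.r) : IsUnit f := by
  obtain ⟨s, hs⟩ := h
  have h1 : f.r * ((s⁻¹ : Bˣ) : B) = 1 := by rw [← hs]; simp
  set t : B := ((s⁻¹ : Bˣ) : B) with ht
  refine ⟨⟨f, ⟨t, -(t ^ 2 * f.a), -(t ^ 2 * f.b),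
    -(t ^ 2 * f.c) + t ^ 3 * (1 + q) * f.a * f.b⟩, ?_, ?_⟩, rfl⟩
  · ext
    · simpa using h1
    · simp only [mul_a, one_a]
      linear_combination (-t * f.a) * h1
    · simp only [mul_b, one_b]
      linear_combination (-t * f.b) * h1
    · simp only [mul_c, one_c]
      linear_combination (-t * f.c + t ^ 2 * (1 + q) * f.a * f.b) * h1
  · ext
    · simp only [mul_r, one_r]; rw [mul_comm]; exact h1
    · simp only [mul_a, one_a]
      linear_combination (-t * f.a) * h1
    · simp only [mul_b, one_b]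
      linear_combination (-t * f.b) * h1
    · simp only [mul_c, one_c]
      linear_combination (-t * f.c + t ^ 2 * (1 + q) * f.a * f.b) * h1

lemma isUnit_r {f : QAlg B q} (h : IsUnit f) : IsUnit f.r := by
  obtain ⟨s, rfl⟩ := h
  have h1 : (s : QAlg B q).r * ((s⁻¹ : (QAlg B q)ˣ) : QAlg B q).r = 1 :=
    congrArg QAlg.r s.mul_inv
  exact IsUnit.of_mul_eq_one _ h1

lemma isUnit_iff {f : QAlg B q} : IsUnit f ↔ IsUnit f.r := ⟨isUnit_r, isUnit_of_isUnit_r⟩

/-- The commutator of two elements is a multiple of `z`. -/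
lemma comm_eq (f g : QAlg B q) : f * g - g * f = ⟨0, 0, 0, (1 - q) * (f.b * g.a - f.a * g.b)⟩ := by
  ext
  · simp; ring
  · simp; ring
  · simp; ring
  · simp; ring

/-- The unit group is nilpotent of class at most two. -/
lemma class_two (u w x : (QAlg B q)ˣ) :
    u * w * u⁻¹ * w⁻¹ * x = x * (u * w * u⁻¹ * w⁻¹) := by
  have h1 : ((u * w * u⁻¹ * w⁻¹ : (QAlg B q)ˣ) : QAlg B q) =
      1 + (((u : QAlg B q) * w - w * u)) * ((u⁻¹ : (QAlg B q)ˣ) * (w⁻¹ : (QAlg B q)ˣ)) := by
    rw [sub_mul]
    have : (w : QAlg B q) * u * ((u⁻¹ : (QAlg B q)ˣ) * (w⁻¹ : (QAlg B q)ˣ)) = 1 := by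
      rw [mul_assoc, ← mul_assoc (u : QAlg B q), Units.mul_inv, one_mul, Units.mul_inv]
    rw [this]
    simp only [Units.val_mul, mul_assoc]
    abel
  apply Units.ext
  rw [Units.val_mul, Units.val_mul x, h1, comm_eq]
  generalize ((u⁻¹ : (QAlg B q)ˣ) : QAlg B q) * ((w⁻¹ : (QAlg B q)ˣ) : QAlg B q) = p
  ext
  · simp [mul_comm]
  · simp
  · simp
  · simp; ring

/-- Functoriality in the base. -/
def congr {B' : Type v} [CommRing B'] (e : B ≃+* B') (q : B) : QAlg B q ≃+* QAlg B' (e q) where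
  toFun f := ⟨e f.r, e f.a, e f.b, e f.c⟩
  invFun f := ⟨e.symm f.r, e.symm f.a, e.symm f.b, e.symm f.c⟩
  left_inv f := by ext <;> simp
  right_inv f := by ext <;> simp
  map_add' f g := by ext <;> simp
  map_mul' f g := by ext <;> simp

section algebra

variable {K : Type v} [Field K] [Algebra K B]

instance : SMul K (QAlg B q) := ⟨fun k f => ⟨k • f.r, k • f.a, k • f.b, k • f.c⟩⟩

@[simp] lemma smul_r (k : K) (f : QAlg B q) : (k • f).r = k • f.r := rfl
@[simp] lemma smul_a (k : K) (f : QAlg B q) : (k • f).a = k • f.a := rfl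
@[simp] lemma smul_b (k : K) (f : QAlg B q) : (k • f).b = k • f.b := rfl
@[simp] lemma smul_c (k : K) (f : QAlg B q) : (k • f).c = k • f.c := rfl

instance : Module K (QAlg B q) where
  one_smul f := by ext <;> simp
  mul_smul k l f := by ext <;> simp [mul_smul]
  smul_zero k := by ext <;> simp
  smul_add k f g := by ext <;> simp
  add_smul k l f := by ext <;> simp [add_smul]
  zero_smul f := by ext <;> simp

instance : Algebra K (QAlg B q) :=
  Algebra.ofModule
    (fun k f g => by
      ext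
      · simp
      · simp
      · simp
      · simp [smul_add])
    (fun k f g => by
      ext
      · simp
      · simp
      · simp
      · simp [smul_add])

lemma smul_mul (k : K) (f g : QAlg B q) : (k • f) * g = k • (f * g) := by
  ext
  · simp
  · simp
  · simp
  · simp [smul_add]

/-- The underlying module is `B⁴`. -/
def linEquiv : QAlg B q ≃ₗ[K] B × B × B × B where
  toFun f := (f.r, f.a, f.b, f.c)
  invFun f := ⟨f.1, f.2.1, f.2.2.1, f.2.2.2⟩
  left_inv f := by ext <;> rfl
  right_inv f := by rfl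
  map_add' f g := by rfl
  map_smul' k f := by rfl

lemma finiteDimensional [FiniteDimensional K B] : FiniteDimensional K (QAlg B q) :=
  Module.Finite.equiv (linEquiv (q := q) (K := K)).symm

end algebra

/-- The key computation: over the dual numbers, if `q` is not constant then there are no
`X, Y, E` with `X² = Y² = E² = 0`, `E` central, `X Y = μ Y X` with a constant `μ`, and
`E X Y ≠ 0`. -/
lemma key {K : Type u} [Field K] [CharZero K] {q : DualNumber K} (hq1 : q.snd ≠ 0)
    (h1 : q.fst ≠ 1) (h2 : q.fst ≠ -1)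
    {X Y E : QAlg (DualNumber K) q} (hX : X * X = 0) (hY : Y * Y = 0) (hE : E * E = 0)
    (hEc : ∀ w, E * w = w * E) (μ : K) (hXY : X * Y = μ • (Y * X)) :
    E * (X * Y) = 0 := by
  have e1 : ∀ Z : QAlg (DualNumber K) q, Z * Z = 0 → Z.r.fst = 0 ∧ Z.r.snd * Z.a.fst = 0 ∧
      Z.r.snd * Z.b.fst = 0 ∧ Z.a.fst * Z.b.fst = 0 := by
    intro Z hZ
    have hr : Z.r * Z.r = 0 := congrArg QAlg.r hZ
    have ha : Z.r * Z.a + Z.a * Z.r = 0 := congrArg QAlg.a hZ
    have hb : Z.r * Z.b + Z.b * Z.r = 0 := congrArg QAlg.b hZ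
    have hc : Z.r * Z.c + Z.c * Z.r + Z.b * Z.a + q * Z.a * Z.b = 0 := congrArg QAlg.c hZ
    have hr0 : Z.r.fst = 0 := by
      have := congrArg TrivSqZeroExt.fst hr
      simpa using this
    have ha' := congrArg TrivSqZeroExt.snd ha
    have hb' := congrArg TrivSqZeroExt.snd hb
    have hc' := congrArg TrivSqZeroExt.fst hc
    simp only [TrivSqZeroExt.snd_add, TrivSqZeroExt.snd_mul, hr0, smul_eq_mul, zero_mul,
      MulOpposite.op_zero, zero_smul, add_zero, zero_add, op_smul_eq_mul,
      TrivSqZeroExt.snd_zero, TrivSqZeroExt.fst_add, TrivSqZeroExt.fst_mul,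
      TrivSqZeroExt.fst_zero, mul_zero] at ha' hb' hc'
    refine ⟨hr0, ?_, ?_, ?_⟩
    · have : (2 : K) * (Z.r.snd * Z.a.fst) = 0 := by linear_combination ha'
      simpa using this
    · have : (2 : K) * (Z.r.snd * Z.b.fst) = 0 := by linear_combination hb'
      simpa using this
    · have h3 : (1 + q.fst) * (Z.a.fst * Z.b.fst) = 0 := by linear_combination hc'
      rcases mul_eq_zero.mp h3 with h4 | h4
      · exact absurd (by linear_combination h4) h2
      · exact h4
  obtain ⟨x1, x2, x3, x4⟩ := e1 X hX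
  obtain ⟨y1, y2, y3, y4⟩ := e1 Y hY
  obtain ⟨z1, -, -, -⟩ := e1 E hE
  -- `E` is `ρ ε + c z`
  have hEa : E.a = 0 ∧ E.b = 0 := by
    have hu : IsUnit (1 - q) := by
      rw [TrivSqZeroExt.isUnit_iff_isUnit_fst]
      simp only [TrivSqZeroExt.fst_sub, TrivSqZeroExt.fst_one]
      exact (sub_ne_zero.mpr h1.symm).isUnit
    constructor
    · have h5 := comm_eq E (⟨0, 0, 1, 0⟩ : QAlg (DualNumber K) q)
      rw [hEc, sub_self] at h5
      have h6 : (0 : DualNumber K) = (1 - q) * (E.b * 0 - E.a * 1) := congrArg QAlg.c h5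
      have h7 : (1 - q) * E.a = 0 := by linear_combination h6
      exact (hu.mul_right_eq_zero).mp h7
    · have h5 := comm_eq E (⟨0, 1, 0, 0⟩ : QAlg (DualNumber K) q)
      rw [hEc, sub_self] at h5
      have h6 : (0 : DualNumber K) = (1 - q) * (E.b * 1 - E.a * 0) := congrArg QAlg.c h5
      have h7 : (1 - q) * E.b = 0 := by linear_combination -h6
      exact (hu.mul_right_eq_zero).mp h7
  -- the relevant coefficient
  have hS : X.b.fst * Y.a.fst + q.fst * (X.a.fst * Y.b.fst) = 0 := by
    by_contra hne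
    have hc : X.r * Y.c + X.c * Y.r + X.b * Y.a + q * X.a * Y.b =
        μ • (Y.r * X.c + Y.c * X.r + Y.b * X.a + q * Y.a * X.b) := congrArg QAlg.c hXY
    have hc0 := congrArg TrivSqZeroExt.fst hc
    have hc1 := congrArg TrivSqZeroExt.snd hc
    simp only [TrivSqZeroExt.snd_add, TrivSqZeroExt.snd_mul, smul_eq_mul, op_smul_eq_mul,
      TrivSqZeroExt.fst_add, TrivSqZeroExt.fst_mul, TrivSqZeroExt.fst_smul,
      TrivSqZeroExt.snd_smul, x1, y1, zero_mul, mul_zero, add_zero, zero_add] at hc0 hc1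
    by_cases ha : X.a.fst = 0
    · rw [ha] at hne hc0 hc1
      simp only [zero_mul, mul_zero, add_zero, zero_add] at hne hc0 hc1
      have hb : X.b.fst ≠ 0 := left_ne_zero_of_mul hne
      have ha' : Y.a.fst ≠ 0 := right_ne_zero_of_mul hne
      have hb' : Y.b.fst = 0 := (mul_eq_zero.mp y4).resolve_left ha'
      have hr : X.r.snd = 0 := (mul_eq_zero.mp x3).resolve_right hb
      have hr' : Y.r.snd = 0 := (mul_eq_zero.mp y2).resolve_right ha'
      rw [hb', hr, hr'] at hc1
      have hμ : μ * q.fst = 1 := by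
        have : (μ * q.fst - 1) * (X.b.fst * Y.a.fst) = 0 := by linear_combination -hc0
        have := (mul_eq_zero.mp this).resolve_right hne
        linear_combination this
      have h8 : (μ * q.snd) * (X.b.fst * Y.a.fst) = 0 := by
        linear_combination (X.b.snd * Y.a.fst + X.b.fst * Y.a.snd) * (-hμ) - hc1
      have h9 := (mul_eq_zero.mp h8).resolve_right hne
      rcases mul_eq_zero.mp h9 with h10 | h10
      · rw [h10, zero_mul] at hμ; exact zero_ne_one hμ
      · exact hq1 h10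
    · have hb : X.b.fst = 0 := (mul_eq_zero.mp x4).resolve_left ha
      rw [hb] at hne hc0 hc1
      simp only [zero_mul, mul_zero, add_zero, zero_add] at hne hc0 hc1
      have hne2 : X.a.fst * Y.b.fst ≠ 0 := right_ne_zero_of_mul hne
      have hb' : Y.b.fst ≠ 0 := right_ne_zero_of_mul hne2
      have ha' : Y.a.fst = 0 := (mul_eq_zero.mp y4).resolve_right hb'
      have hr : X.r.snd = 0 := (mul_eq_zero.mp x2).resolve_right ha
      have hr' : Y.r.snd = 0 := (mul_eq_zero.mp y3).resolve_right hb'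
      rw [ha', hr, hr'] at hc1
      have hμ : q.fst = μ := by
        have : (q.fst - μ) * (X.a.fst * Y.b.fst) = 0 := by linear_combination hc0
        have := (mul_eq_zero.mp this).resolve_right hne2
        linear_combination this
      have h8 : q.snd * (X.a.fst * Y.b.fst) = 0 := by
        linear_combination (X.a.snd * Y.b.fst + X.a.fst * Y.b.snd) * (-hμ) + hc1
      exact hq1 ((mul_eq_zero.mp h8).resolve_right hne2)
  have hfst : ∀ (c d : DualNumber K), c.fst = 0 → d.fst = 0 → c * d = 0 := by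
    intro c d hc hd
    ext
    · simp [hc]
    · simp [hc, hd]
  ext1
  · show E.r * (X.r * Y.r) = 0
    exact hfst _ _ z1 (by simp [x1])
  · show E.r * (X.r * Y.a + X.a * Y.r) + E.a * (X.r * Y.r) = 0
    rw [hEa.1, zero_mul, add_zero]
    exact hfst _ _ z1 (by simp [x1, y1])
  · show E.r * (X.r * Y.b + X.b * Y.r) + E.b * (X.r * Y.r) = 0
    rw [hEa.2, zero_mul, add_zero]
    exact hfst _ _ z1 (by simp [x1, y1])
  · show E.r * (X.r * Y.c + X.c * Y.r + X.b * Y.a + q * X.a * Y.b) + E.c * (X.r * Y.r) +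
      E.b * (X.r * Y.a + X.a * Y.r) + q * E.a * (X.r * Y.b + X.b * Y.r) = 0
    rw [hEa.1, hEa.2, zero_mul, mul_zero, zero_mul, add_zero, add_zero,
      hfst X.r Y.r x1 y1, mul_zero, add_zero]
    apply hfst _ _ z1
    simp only [TrivSqZeroExt.fst_add, TrivSqZeroExt.fst_mul, x1, y1]
    linear_combination hS

end QAlg

end Pool.Agent.Helper8
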