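import Pool.Agent.Helper8.CL.Stop
import Pool.Agent.Helper52.Tao.FIN

/-!
# The central limit theorem for the stopping times of the Möller maps

`T n = n / d` if `d ∣ n`, `T n = (m n - r_j) / d` if `n ≡ j (mod d)`, `1 ≤ j ≤ d - 1`, as in the
problem file. For all coprime `2 ≤ d < m ≤ d ^ (d / (d - 1))` and all admissible residues, the time
`τ n` at which the orbit of `n` attains its minimum (in absolute value) is asymptotically normal with
mean `log n / γ` and variance `σ ^ 2 log n`, in the sense of natural density and jointly with every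
invariant set; the same holds for the time of the first visit of a given integer `a`, for the integers
whose orbit contains `a`.

Structure of the proof.
* `CL.FlowGen`: by the fine-scale mixing of the Syracuse random variables (`Helper52.Tao`), the number
  of `n` in `[a, 2a)` with `T^[2t] n ∈ G` is an average of the numbers of `n` in `[b, 2b)` with
  `T^[t] n ∈ G`, `b = a m ^ S / d ^ t`, `S` binomial, for every set `G` of integers.
* `CL.Time`: hence the densities `F_k` of the set of the `n` whose orbit is above `z` up to time `k`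
  satisfy the equation of the random walk, up to small errors, for `k` of any size.
* `CL.MaxP2`, `CL.Bounds`: comparison with the law of the random walk by a maximum principle.
* `CL.Clt`, `CL.Clt2`: the central limit theorem for this law (Mathlib's Lévy theorem).
* `CL.Limit`, `CL.Stop`: passage to the limit; almost all orbits go below `z` for `z` large
  (`Helper52.Tao`), natural densities of the invariant sets (`Helper8.ND`).
-/

set_option autoImplicit false

namespace Pool.Agent.Helper8.StoppingTimeCLTReserve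

open Pool.Agent.Helper68.Moeller Pool.Agent.Helper52.Tao Pool.Agent.Helper8 ProbabilityTheory
  Filter Topology

/-- The number of the positive elements `≤ x`. -/
noncomputable def count (A : Set ℤ) (x : ℝ) : ℝ := ({n : ℤ | n ∈ A ∧ 0 < n ∧ (n : ℝ) ≤ x}.ncard : ℝ)

/-- `A` has the natural density `δ` (in the positive integers). -/
def HasDensity (A : Set ℤ) (δ : ℝ) : Prop := Tendsto (fun x : ℝ => count A x / x) atTop (𝓝 δ)

/-- The negative drift `γ = log d - (1 - 1 / d) log m` of the walk `log (T^[k] n)`. -/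
noncomputable def drift (d m : ℕ) : ℝ := Real.log d - (1 - 1 / (d : ℝ)) * Real.log m

/-- `σ = γ ^ (-3/2) (log m) √(d - 1) / d`. -/
noncomputable def sdev (d m : ℕ) : ℝ :=
  Real.log m * Real.sqrt ((d : ℝ) - 1) / d / drift d m ^ (3 / 2 : ℝ)

/-- `log n / γ + y σ √(log n)`. -/
noncomputable def thr (d m : ℕ) (y : ℝ) (n : ℤ) : ℝ :=
  Real.log n / drift d m + y * sdev d m * Real.sqrt (Real.log n)

/-- The standard normal distribution function. -/
noncomputable def Φ (y : ℝ) : ℝ := (gaussianReal 0 1).real (Set.Iic y)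

/-- The orbit of `n` under `T` attains its minimum, in absolute value, at the time `k`. -/
def MinAt (d m : ℕ) (r : ℤ → ℤ) (n : ℤ) (k : ℕ) : Prop :=
  ∀ i : ℕ, |(T d m r)^[k] n| ≤ |(T d m r)^[i] n|

variable {d m : ℕ} {r : ℤ → ℤ}

theorem exists_minAt (n : ℤ) : ∃ k : ℕ, MinAt d m r n k := by
  classical
  have hne : ∃ v : ℕ, ∃ k : ℕ, ((T d m r)^[k] n).natAbs = v := ⟨_, 0, rfl⟩
  obtain ⟨k, hk⟩ := Nat.find_spec hne
  refine ⟨k, fun i => ?_⟩
  have h1 := Nat.find_min' hne ⟨i, rfl⟩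
  rw [← hk] at h1
  rw [Int.abs_eq_natAbs, Int.abs_eq_natAbs]
  exact_mod_cast h1

open Classical in
/-- The first time at which the minimum is attained. -/
noncomputable def tmin (d m : ℕ) (r : ℤ → ℤ) (n : ℤ) : ℕ := Nat.find (exists_minAt (d := d) (m := m) (r := r) n)

open Classical in
theorem tmin_spec (n : ℤ) : MinAt d m r n (tmin d m r n) := Nat.find_spec (exists_minAt n)

open Classical in
theorem tmin_le {n : ℤ} {k : ℕ} (h : MinAt d m r n k) : tmin d m r n ≤ k :=
  Nat.find_min' (exists_minAt n) h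

/-- If the orbit is not above `z` up to time `k`, it has a first point in `(0, z]`. -/
theorem exists_first (hd : 2 ≤ d) (hm : 1 ≤ m) (hr : Admissible d m r) {B : ℕ}
    (hB : ∀ j : ℤ, 0 < j → j < (d : ℤ) → |r j| ≤ B) {z : ℝ} (hz : (B : ℝ) ≤ z) {n : ℤ} (hn : 0 < n)
    {k : ℕ} (h : n ∉ CL.SK d m r z k) : ∃ i : ℕ, i ≤ k ∧ 0 < (T d m r)^[i] n ∧
      ((T d m r)^[i] n : ℝ) ≤ z ∧ ∀ j : ℕ, j < i → z < ((T d m r)^[j] n : ℝ) := by
  classical
  have h1 : ∃ i : ℕ, i ≤ k ∧ ((T d m r)^[i] n : ℝ) ≤ z := by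
    simp only [CL.SK, Set.mem_ofPred_eq, not_forall, not_lt] at h
    obtain ⟨i, hi, hi'⟩ := h
    exact ⟨i, by exact_mod_cast hi, hi'⟩
  obtain ⟨h2, h3⟩ := Nat.find_spec h1
  set i := Nat.find h1 with hi
  have h4 : ∀ j : ℕ, j < i → z < ((T d m r)^[j] n : ℝ) := by
    intro j hj
    by_contra hcon
    push Not at hcon
    exact Nat.find_min h1 hj ⟨by omega, hcon⟩
  refine ⟨i, h2, ?_, h3, h4⟩
  rcases Nat.eq_zero_or_pos i with h0 | h0
  · rw [h0]; exact hn
  · obtain ⟨j, hj⟩ : ∃ j, i = j + 1 := ⟨i - 1, by omega⟩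
    have h5 := h4 j (by omega)
    rw [hj, Function.iterate_succ_apply']
    set x := (T d m r)^[j] n with hx
    have h6 : (B : ℤ) < x := by
      have : (B : ℝ) < x := by linarith
      exact_mod_cast this
    have hB0 : (0 : ℤ) ≤ B := by positivity
    have h7 := CL.T_ge hd hm hr hB (n := x) (by linarith)
    have hd0 : (0 : ℤ) < d := by omega
    have h8 : 0 < (d : ℤ) * T d m r x := by linarith
    exact (mul_pos_iff_of_pos_left hd0).1 h8

/-- Points with a large absolute value. -/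
theorem pos_of_abs (hd : 2 ≤ d) (hm : 1 ≤ m) (hr : Admissible d m r) {B : ℕ}
    (hB : ∀ j : ℤ, 0 < j → j < (d : ℤ) → |r j| ≤ B) {z : ℝ} (hz : (B : ℝ) ≤ z) {n : ℤ} (hn : 0 < n)
    (h : ∀ i : ℕ, z < ((|(T d m r)^[i] n| : ℤ) : ℝ)) : n ∈ CL.NZ d m r z := by
  have hpos : ∀ i : ℕ, 0 < (T d m r)^[i] n := by
    intro i
    induction i with
    | zero => exact hn
    | succ j ih =>
      rw [Function.iterate_succ_apply']
      set x := (T d m r)^[j] n with hx
      have h5 := h j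
      rw [← hx, abs_of_pos ih] at h5
      have h6 : (B : ℤ) < x := by
        have : (B : ℝ) < x := by linarith
        exact_mod_cast this
      have hB0 : (0 : ℤ) ≤ B := by positivity
      have h7 := CL.T_ge hd hm hr hB (n := x) (by linarith)
      have hd0 : (0 : ℤ) < d := by omega
      have h8 : 0 < (d : ℤ) * T d m r x := by linarith
      exact (mul_pos_iff_of_pos_left hd0).1 h8
  intro i
  have := h i
  rwa [abs_of_pos (hpos i)] at this

/-- The time of the minimum is close to the time at which the orbit becomes at most `z`. -/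
theorem tmin_close (hd : 2 ≤ d) (hm : 1 ≤ m) (hr : Admissible d m r) (z₁ : ℝ) :
    ∃ z : ℝ, z₁ ≤ z ∧ ∃ R : ℕ, ∀ n : ℤ, 0 < n → ∀ k : ℕ,
      (tmin d m r n ≤ k → n ∈ CL.SK d m r z k → n ∈ CL.NZ d m r z) ∧
      (n ∉ CL.SK d m r z k → tmin d m r n ≤ k + R) := by
  obtain ⟨B, hB⟩ := FL_exists_B d r
  refine ⟨max z₁ B, le_max_left _ _, (Finset.Icc (1 : ℤ) ⌊max z₁ B⌋).sup (tmin d m r), ?_⟩
  set z := max z₁ (B : ℝ) with hz
  have hzB : (B : ℝ) ≤ z := le_max_right _ _
  have hz0 : 0 ≤ z := le_trans (by positivity) hzB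
  intro n hn k
  constructor
  · intro h1 h2
    have h3 : z < ((T d m r)^[tmin d m r n] n : ℝ) := h2 _ (by exact_mod_cast h1)
    refine pos_of_abs hd hm hr hB hzB hn fun i => ?_
    have h4 := tmin_spec (d := d) (m := m) (r := r) n i
    have h5 : (((T d m r)^[tmin d m r n] n : ℤ) : ℝ) ≤ ((|(T d m r)^[i] n| : ℤ) : ℝ) := by
      exact_mod_cast (le_abs_self _).trans h4
    linarith
  · intro h1
    obtain ⟨i, hi, h2, h3, h4⟩ := exists_first hd hm hr hB hzB hn h1
    set n' := (T d m r)^[i] n with hn'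
    have h5 : MinAt d m r n (tmin d m r n' + i) := by
      intro j
      rw [Function.iterate_add_apply, ← hn']
      rcases lt_or_ge j i with hj | hj
      · have h6 := tmin_spec (d := d) (m := m) (r := r) n' 0
        simp only [Function.iterate_zero, id] at h6
        rw [abs_of_pos h2] at h6
        have h7 : (n' : ℝ) < ((T d m r)^[j] n : ℝ) := lt_of_le_of_lt h3 (h4 j hj)
        have h8 : n' < (T d m r)^[j] n := by exact_mod_cast h7
        exact h6.trans (h8.le.trans (le_abs_self _))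
      · obtain ⟨l, rfl⟩ := Nat.exists_eq_add_of_le hj
        rw [Nat.add_comm i l, Function.iterate_add_apply, ← hn']
        exact tmin_spec n' l
    have h6 := tmin_le h5
    have h7 : tmin d m r n' ≤ (Finset.Icc (1 : ℤ) ⌊z⌋).sup (tmin d m r) := by
      apply Finset.le_sup (f := tmin d m r)
      rw [Finset.mem_Icc]
      exact ⟨h2, Int.le_floor.2 h3⟩
    omega

open Classical in
/-- The time of the first visit of `a` (`0` if the orbit does not contain `a`). -/
noncomputable def thit (d m : ℕ) (r : ℤ → ℤ) (a n : ℤ) : ℕ :=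
  if h : ∃ k : ℕ, (T d m r)^[k] n = a then Nat.find h else 0

theorem thit_spec {a n : ℤ} (h : ∃ k : ℕ, (T d m r)^[k] n = a) :
    (T d m r)^[thit d m r a n] n = a := by
  classical
  unfold thit
  rw [dif_pos h]
  exact Nat.find_spec h

theorem thit_le {a n : ℤ} {k : ℕ} (h : (T d m r)^[k] n = a) : thit d m r a n ≤ k := by
  classical
  have h' : ∃ k : ℕ, (T d m r)^[k] n = a := ⟨k, h⟩
  unfold thit
  rw [dif_pos h']
  exact Nat.find_min' h' h

theorem thit_close (hd : 2 ≤ d) (hm : 1 ≤ m) (hr : Admissible d m r) (a : ℤ) (z₁ : ℝ) :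
    ∃ z : ℝ, z₁ ≤ z ∧ ∃ R : ℕ, ∀ n : ℤ, n ∈ {n : ℤ | ∃ k : ℕ, (T d m r)^[k] n = a} → 0 < n →
      ∀ k : ℕ, (thit d m r a n ≤ k → n ∈ CL.SK d m r z k → n ∈ CL.NZ d m r z) ∧
      (n ∉ CL.SK d m r z k → thit d m r a n ≤ k + R) := by
  obtain ⟨B, hB⟩ := FL_exists_B d r
  set z := max z₁ (max (B : ℝ) a) with hz
  refine ⟨z, le_max_left _ _, (Finset.Icc (1 : ℤ) ⌊z⌋).sup (thit d m r a), ?_⟩
  have hzB : (B : ℝ) ≤ z := (le_max_left _ _).trans (le_max_right _ _)
  have hza : (a : ℝ) ≤ z := (le_max_right _ _).trans (le_max_right _ _)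
  intro n hnG hn k
  constructor
  · intro h1 h2
    have h3 : z < ((T d m r)^[thit d m r a n] n : ℝ) := h2 _ (by exact_mod_cast h1)
    rw [thit_spec hnG] at h3
    linarith
  · intro h1
    obtain ⟨i, hi, h2, h3, h4⟩ := exists_first hd hm hr hB hzB hn h1
    obtain ⟨j, hj⟩ := hnG
    set n' := (T d m r)^[i] n with hn'
    have hij : i ≤ j := by
      by_contra hcon
      push Not at hcon
      have := h4 j hcon
      rw [hj] at this
      linarith
    obtain ⟨l, rfl⟩ := Nat.exists_eq_add_of_le hij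
    rw [Nat.add_comm i l, Function.iterate_add_apply, ← hn'] at hj
    have h5 : (T d m r)^[thit d m r a n' + i] n = a := by
      rw [Function.iterate_add_apply, ← hn']
      exact thit_spec ⟨l, hj⟩
    have h6 := thit_le h5
    have h7 : thit d m r a n' ≤ (Finset.Icc (1 : ℤ) ⌊z⌋).sup (thit d m r a) := by
      apply Finset.le_sup (f := thit d m r a)
      rw [Finset.mem_Icc]
      exact ⟨h2, Int.le_floor.2 h3⟩
    omega

/-- **The central limit theorem for the stopping times.** -/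
theorem result (d m : ℕ) (hd : 2 ≤ d) (hdm : d < m) (hco : Nat.Coprime m d)
    (hm : (m : ℝ) ≤ (d : ℝ) ^ ((d : ℝ) / ((d : ℝ) - 1))) (r : ℤ → ℤ) (hr : Admissible d m r) :
    0 < drift d m ∧ 0 < sdev d m ∧
    (∀ (A : Set ℤ) (x₀ : ℝ), (∀ n : ℤ, x₀ < n → (n ∈ A ↔ T d m r n ∈ A)) →
      ∃ δ : ℝ, 0 ≤ δ ∧ HasDensity A δ ∧ ∀ y : ℝ,
        HasDensity {n | n ∈ A ∧ ∃ k : ℕ, MinAt d m r n k ∧ (k : ℝ) ≤ thr d m y n} (δ * Φ y)) ∧
    (∀ a : ℤ, ∃ δ : ℝ, 0 ≤ δ ∧ HasDensity {n | ∃ k : ℕ, (T d m r)^[k] n = a} δ ∧ ∀ y : ℝ,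
        HasDensity {n | ∃ k : ℕ, (T d m r)^[k] n = a ∧ (k : ℝ) ≤ thr d m y n} (δ * Φ y)) := by
  have hd2 : (2 : ℝ) ≤ d := by exact_mod_cast hd
  have hd0 : (0 : ℝ) < d := by linarith
  have hm3 : (3 : ℝ) ≤ m := by exact_mod_cast (by omega : 3 ≤ m)
  have hμ : 0 < Real.log m := Real.log_pos (by linarith)
  have hmix : Mixing d m r := mixing hd hdm hco (mixing_step hd hdm hco hm hr
    (fourier_decay hd hdm hco hm hr (one_block hd hdm hco hm)))
  have hγ' : (1 - 1 / (d : ℝ)) * Real.log m < Real.log d := by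
    have h1 := log_m_lt hd hdm hco hm
    have e : (1 - 1 / (d : ℝ)) * Real.log m = (((d : ℝ) - 1) * Real.log m) / d := by
      field_simp
    rw [e, div_lt_iff₀ hd0]
    linarith
  have hγ : 0 < drift d m := by unfold drift; linarith
  -- the two forms of `σ`
  have hσ : sdev d m = Real.log m * Real.sqrt (ND.vv d) / (drift d m * Real.sqrt (drift d m)) := by
    unfold sdev
    have e1 : drift d m ^ (3 / 2 : ℝ) = drift d m * Real.sqrt (drift d m) := by
      rw [Real.sqrt_eq_rpow, show (3 / 2 : ℝ) = 1 + 1 / 2 by norm_num, Real.rpow_add hγ,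
        Real.rpow_one]
    have e2 : Real.sqrt (ND.vv d) = Real.sqrt ((d : ℝ) - 1) / d := by
      have e3 : ND.vv d = ((d : ℝ) - 1) / (d : ℝ) ^ 2 := by
        unfold ND.vv
        field_simp
      rw [e3, Real.sqrt_div (by linarith), Real.sqrt_sq hd0.le]
    rw [e1, e2]
    ring
  have hσ0 : 0 < sdev d m := by
    unfold sdev
    have : 0 < Real.sqrt ((d : ℝ) - 1) := Real.sqrt_pos.2 (by linarith)
    have : 0 < drift d m ^ (3 / 2 : ℝ) := Real.rpow_pos_of_pos hγ _
    positivity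
  have hN : ∀ ε : ℝ, 0 < ε → ∃ z₁ : ℝ, 1 ≤ z₁ ∧ ∀ z : ℝ, z₁ ≤ z → ∀ x : ℝ, 0 ≤ x →
      ND.fd (CL.NZ d m r z) (Real.exp x) ≤ ε := fun ε hε =>
    CL.fd_NZ (final hd hdm hco hm hr (flow hd hdm hco hr hmix)) (eta_lt_one hd hdm hco hm) hε
  -- the general statement
  have main : ∀ (G : Set ℤ) (x₀ : ℝ), ND.TInv d m r G x₀ → ∀ τ : ℤ → ℕ,
      (∀ z₁ : ℝ, ∃ z : ℝ, z₁ ≤ z ∧ ∃ R : ℕ, ∀ n : ℤ, n ∈ G → 0 < n → ∀ k : ℕ,
        (τ n ≤ k → n ∈ CL.SK d m r z k → n ∈ CL.NZ d m r z) ∧
        (n ∉ CL.SK d m r z k → τ n ≤ k + R)) →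
      ∃ δ : ℝ, 0 ≤ δ ∧ HasDensity G δ ∧ ∀ y : ℝ,
        HasDensity {n | n ∈ G ∧ (τ n : ℝ) ≤ thr d m y n} (δ * Φ y) := by
    intro G x₀ hG τ hτ
    obtain ⟨δ, hδ0, hδ2, hlim⟩ := CL.exists_lim hd hdm hco hγ' hr hmix hG
    refine ⟨δ, hδ0, CL.dens_of_fd hlim, fun y => ?_⟩
    refine CL.dens_of_fd (CL.lim_thr hγ (ys := y * sdev d m) fun j => ?_)
    refine CL.lim_time hγ hN hlim (fun ε hε => ?_) hτ y j
    rw [hσ]
    exact CL.lim_FK hd hdm hco rfl hγ hr hmix hN hG hδ0 hδ2 hlim hε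
  refine ⟨hγ, hσ0, ?_, ?_⟩
  · intro A x₀ hA
    obtain ⟨δ, hδ0, h1, h2⟩ := main A x₀ hA (tmin d m r) fun z₁ => by
      obtain ⟨z, hz, R, hR⟩ := tmin_close hd (by omega) hr z₁
      exact ⟨z, hz, R, fun n _ hn k => hR n hn k⟩
    refine ⟨δ, hδ0, h1, fun y => ?_⟩
    have e : {n | n ∈ A ∧ ∃ k : ℕ, MinAt d m r n k ∧ (k : ℝ) ≤ thr d m y n} =
        {n | n ∈ A ∧ (tmin d m r n : ℝ) ≤ thr d m y n} := by
      ext n
      simp only [Set.mem_ofPred_eq]
      constructor
      · rintro ⟨h3, k, h4, h5⟩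
        exact ⟨h3, le_trans (by exact_mod_cast tmin_le h4) h5⟩
      · rintro ⟨h3, h4⟩
        exact ⟨h3, _, tmin_spec n, h4⟩
    rw [e]
    exact h2 y
  · intro a
    have hA : ND.TInv d m r {n | ∃ k : ℕ, (T d m r)^[k] n = a} a := by
      intro n hn
      have hne : n ≠ a := by
        rintro rfl
        exact lt_irrefl _ hn
      simp only [Set.mem_ofPred_eq]
      constructor
      · rintro ⟨k, hk⟩
        rcases k with _ | k
        · exact absurd hk hne
        · exact ⟨k, by rwa [Function.iterate_succ_apply] at hk⟩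
      · rintro ⟨k, hk⟩
        exact ⟨k + 1, by rwa [Function.iterate_succ_apply]⟩
    obtain ⟨δ, hδ0, h1, h2⟩ := main _ _ hA (thit d m r a) (thit_close hd (by omega) hr a)
    refine ⟨δ, hδ0, h1, fun y => ?_⟩
    have e : {n | ∃ k : ℕ, (T d m r)^[k] n = a ∧ (k : ℝ) ≤ thr d m y n} =
        {n | n ∈ {n : ℤ | ∃ k : ℕ, (T d m r)^[k] n = a} ∧ (thit d m r a n : ℝ) ≤ thr d m y n} := by
      ext n
      simp only [Set.mem_ofPred_eq]
      constructor
      · rintro ⟨k, h4, h5⟩
        exact ⟨⟨k, h4⟩, le_trans (by exact_mod_cast thit_le h4) h5⟩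
      · rintro ⟨h3, h4⟩
        exact ⟨_, thit_spec h3, h4⟩
    rw [e]
    exact h2 y

end Pool.Agent.Helper8.StoppingTimeCLTReserve
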