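import Mathlib

/-!
# Loops in a window of a Schreier graph

* free groups are residually finite;
* a surjection from a free group of rank two onto a non-abelian free group is injective;
* a non-abelian window subgroup of a stabiliser which is free of rank two is everything.
-/

set_option autoImplicit false

namespace Pool.Agent.Helper8.Window

/-! ### Residual finiteness of free groups -/

section ResFinite

variable {α : Type} [DecidableEq α]

/-- The partial map of the letter `a` defined by the word `L`: `(i+1) ↦ i` if the `i`-th letter is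
`(a, true)` and `i ↦ i+1` if the `i`-th letter is `(a,false)`. -/
def Rel (L : List (α × Bool)) (a : α) (p q : ℕ) : Prop :=
  (∃ h : q < L.length, p = q + 1 ∧ L[q] = (a, true)) ∨
    (∃ h : p < L.length, q = p + 1 ∧ L[p] = (a, false))

omit [DecidableEq α] in
lemma reduced_adj {L : List (α × Bool)} (hL : FreeGroup.IsReduced L) {i : ℕ}
    (h : i + 1 < L.length) {a : α} {b : Bool} (h1 : L[i]'(by omega) = (a, b)) :
    L[i + 1] ≠ (a, !b) := by
  intro h2
  have := List.isChain_iff_getElem.1 hL i h
  rw [h1, h2] at this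
  simp at this

omit [DecidableEq α] in
lemma Rel.fun {L : List (α × Bool)} (hL : FreeGroup.IsReduced L) {a : α} {p q q' : ℕ}
    (h : Rel L a p q) (h' : Rel L a p q') : q = q' := by
  rcases h with ⟨hq, e1, e2⟩ | ⟨hp, e1, e2⟩ <;> rcases h' with ⟨hq', e1', e2'⟩ | ⟨hp', e1', e2'⟩
  · omega
  · subst e1
    exact absurd e2' (reduced_adj hL hp' e2)
  · subst e1'
    exact absurd e2 (reduced_adj hL hp e2')
  · omega

omit [DecidableEq α] in
lemma Rel.inj {L : List (α × Bool)} (hL : FreeGroup.IsReduced L) {a : α} {p p' q : ℕ}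
    (h : Rel L a p q) (h' : Rel L a p' q) : p = p' := by
  rcases h with ⟨hq, e1, e2⟩ | ⟨hp, e1, e2⟩ <;> rcases h' with ⟨hq', e1', e2'⟩ | ⟨hp', e1', e2'⟩
  · omega
  · subst e1'
    exact absurd e2 (reduced_adj hL hq e2')
  · subst e1
    exact absurd e2' (reduced_adj hL hq' e2)
  · omega

omit [DecidableEq α] in
lemma exists_perm {L : List (α × Bool)} (hL : FreeGroup.IsReduced L) (a : α) :
    ∃ g : Equiv.Perm (Fin (L.length + 1)), ∀ p q : Fin (L.length + 1),
      Rel L a p q → g p = q := by
  classical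
  let S : Set (Fin (L.length + 1)) := {p | ∃ q : Fin (L.length + 1), Rel L a p q}
  let f : Fin (L.length + 1) → Fin (L.length + 1) :=
    fun p => if h : ∃ q : Fin (L.length + 1), Rel L a p q then h.choose else p
  have hf : ∀ p q : Fin (L.length + 1), Rel L a p q → f p = q := by
    intro p q h
    have hex : ∃ q : Fin (L.length + 1), Rel L a p q := ⟨q, h⟩
    have : f p = hex.choose := dif_pos hex
    rw [this]
    exact Fin.ext (Rel.fun hL hex.choose_spec h)
  have hinj : Set.InjOn f S := by
    rintro p ⟨q, hq⟩ p' ⟨q', hq'⟩ h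
    rw [hf _ _ hq, hf _ _ hq'] at h
    subst h
    exact Fin.ext (Rel.inj hL hq hq')
  obtain ⟨g, hg⟩ := Set.MapsTo.exists_equiv_extend_of_card_eq
    (t := (Finset.univ : Finset (Fin (L.length + 1)))) (s := S) (f := f) (by simp)
    (fun x _ => by simp) hinj
  refine ⟨g.trans (Equiv.subtypeUnivEquiv (by simp)), fun p q h => ?_⟩
  have := hg p ⟨q, h⟩
  rw [hf _ _ h] at this
  simpa using this

/-- Free groups are residually finite. -/
theorem exists_finite_quotient (w : FreeGroup α) (hw : w ≠ 1) :
    ∃ (k : ℕ) (θ : FreeGroup α →* Equiv.Perm (Fin k)), θ w ≠ 1 := by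
  classical
  set L := w.toWord with hLdef
  have hL : FreeGroup.IsReduced L := FreeGroup.isReduced_toWord
  have hne : L ≠ [] := by
    intro h
    exact hw (FreeGroup.toWord_eq_nil_iff.1 h)
  choose g hg using fun a => exists_perm hL a
  refine ⟨L.length + 1, FreeGroup.lift g, fun h => ?_⟩
  have hmk : w = FreeGroup.mk L := FreeGroup.mk_toWord.symm
  have key : ∀ j : ℕ, ∀ hj : j ≤ L.length,
      ((L.drop j).map fun x => cond x.2 (g x.1) (g x.1)⁻¹).prod
        (⟨L.length, by omega⟩ : Fin (L.length + 1)) = ⟨j, by omega⟩ := by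
    intro j hj
    induction hk : L.length - j generalizing j with
    | zero =>
      have : j = L.length := by omega
      subst this
      simp
    | succ k ih =>
      have hj' : j < L.length := by omega
      rw [List.drop_eq_getElem_cons hj', List.map_cons, List.prod_cons, Equiv.Perm.mul_apply,
        ih (j + 1) (by omega) (by omega)]
      rcases hLj : L[j] with ⟨a, b⟩
      cases b with
      | true =>
        simp only [cond_true]
        apply hg
        left
        exact ⟨hj', rfl, hLj⟩
      | false =>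
        simp only [cond_false]
        rw [Equiv.Perm.inv_eq_iff_eq]
        symm
        apply hg
        right
        exact ⟨hj', rfl, hLj⟩
  have h0 := key 0 (Nat.zero_le _)
  rw [List.drop_zero, ← FreeGroup.lift_mk, ← hmk, h, Equiv.Perm.one_apply] at h0
  have : L.length = 0 := by simpa using congrArg Fin.val h0
  exact hne (List.length_eq_zero_iff.1 this)

end ResFinite

/-! ### A surjection from `F₂` onto a non-abelian free group is injective -/

/-- A surjection of a free group of rank two onto a free group with two different generators is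
injective. -/
theorem injective_of_surjective_two {S : Type} (ψ : FreeGroup (Fin 2) →* FreeGroup S)
    (hψ : Function.Surjective ψ) {s t : S} (hst : s ≠ t) : Function.Injective ψ := by
  classical
  rw [injective_iff_map_eq_one]
  intro k hk
  by_contra hk1
  obtain ⟨m, θ, hθ⟩ := exists_finite_quotient k hk1
  let Q := Equiv.Perm (Fin m)
  let ext : (Fin 2 → Q) → (S → Q) := fun q x => if x = s then q 0 else if x = t then q 1 else 1
  let Φ : (Fin 2 → Q) → (Fin 2 → Q) := fun q j => FreeGroup.lift (ext q) (ψ (FreeGroup.of j))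
  have hΦ : ∀ q, FreeGroup.lift (Φ q) = (FreeGroup.lift (ext q)).comp ψ := by
    intro q
    ext j
    simp [Φ]
  have hinj : Function.Injective Φ := by
    intro q q' h
    have h1 : (FreeGroup.lift (ext q)).comp ψ = (FreeGroup.lift (ext q')).comp ψ := by
      rw [← hΦ, ← hΦ, h]
    have h2 : FreeGroup.lift (ext q) = FreeGroup.lift (ext q') := by
      apply MonoidHom.ext
      intro y
      obtain ⟨x, rfl⟩ := hψ y
      exact DFunLike.congr_fun h1 x
    have h3 : ext q = ext q' := FreeGroup.lift.injective h2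
    funext j
    fin_cases j
    · have := congrFun h3 s
      simpa [ext] using this
    · have := congrFun h3 t
      simpa [ext, hst.symm] using this
  have hsurj : Function.Surjective Φ := Finite.injective_iff_surjective.1 hinj
  obtain ⟨q, hq⟩ := hsurj (fun j => θ (FreeGroup.of j))
  have h4 : θ = (FreeGroup.lift (ext q)).comp ψ := by
    rw [← hΦ, hq]
    ext j
    simp
  apply hθ
  rw [h4, MonoidHom.comp_apply, hk, map_one]

/-! ### The retraction -/

section Retract

variable {n : ℕ} {X : Type} [MulAction (FreeGroup (Fin n)) X] {A : Type} [Group A]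

/-- The permutation of `X × A` attached to a generator and a cochain `f`. -/
def genPerm (f : Fin n → X → A) (i : Fin n) : Equiv.Perm (X × A) where
  toFun p := (FreeGroup.of i • p.1, f i p.1 * p.2)
  invFun p := ((FreeGroup.of i)⁻¹ • p.1, (f i ((FreeGroup.of i)⁻¹ • p.1))⁻¹ * p.2)
  left_inv p := by simp
  right_inv p := by simp

/-- The action on `X × A` defined by a cochain. -/
def act (f : Fin n → X → A) : FreeGroup (Fin n) →* Equiv.Perm (X × A) :=
  FreeGroup.lift (genPerm f)

lemma act_of (f : Fin n → X → A) (i : Fin n) (p : X × A) :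
    act f (FreeGroup.of i) p = (FreeGroup.of i • p.1, f i p.1 * p.2) := by
  simp [act, genPerm]

lemma act_of_inv (f : Fin n → X → A) (i : Fin n) (p : X × A) :
    act f (FreeGroup.of i)⁻¹ p =
      ((FreeGroup.of i)⁻¹ • p.1, (f i ((FreeGroup.of i)⁻¹ • p.1))⁻¹ * p.2) := by
  simp [act, genPerm, Equiv.Perm.inv_def]

lemma act_spec (f : Fin n → X → A) (c : FreeGroup (Fin n)) :
    ∀ x a, act f c (x, a) = (c • x, (act f c (x, 1)).2 * a) := by
  induction c using FreeGroup.induction_on with
  | C1 => intro x a; simp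
  | of i => intro x a; simp [act_of]
  | inv_of i _ => intro x a; rw [act_of_inv, act_of_inv]; simp
  | mul c d hc hd =>
    intro x a
    have e3 : act f d (x, 1) = (d • x, (act f d (x, 1)).2) := by
      have := hd x 1
      rwa [mul_one] at this
    have e1 := hd x a
    generalize (act f d (x, 1)).2 = s at e3 e1
    rw [map_mul, Equiv.Perm.mul_apply, Equiv.Perm.mul_apply, e1, e3, hc (d • x) (s * a),
      hc (d • x) s, mul_smul, mul_assoc]

/-- The cocycle of a cochain. -/
def coc (f : Fin n → X → A) (c : FreeGroup (Fin n)) (x : X) : A := (act f c (x, 1)).2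

lemma coc_one (f : Fin n → X → A) (x : X) : coc f 1 x = 1 := by simp [coc]

lemma coc_mul (f : Fin n → X → A) (c d : FreeGroup (Fin n)) (x : X) :
    coc f (c * d) x = coc f c (d • x) * coc f d x := by
  have h1 := act_spec f d x 1
  rw [mul_one] at h1
  unfold coc
  rw [map_mul, Equiv.Perm.mul_apply, h1, act_spec f c (d • x)]

lemma coc_of (f : Fin n → X → A) (i : Fin n) (x : X) : coc f (FreeGroup.of i) x = f i x := by
  simp [coc, act_of]

lemma coc_inv (f : Fin n → X → A) (c : FreeGroup (Fin n)) (x : X) :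
    coc f c⁻¹ (c • x) = (coc f c x)⁻¹ := by
  have := coc_mul f c⁻¹ c x
  rw [inv_mul_cancel, coc_one] at this
  exact (inv_eq_of_mul_eq_one_left this.symm).symm

end Retract

/-- (L-EL) -/
theorem windowLoops {n : ℕ} {X : Type} [MulAction (FreeGroup (Fin n)) X] (v : X)
    (B : Finset (FreeGroup (Fin n))) (h1 : (1 : FreeGroup (Fin n)) ∈ B)
    (hB : ∀ g ∈ B, g ≠ 1 → ∃ i : Fin n, (FreeGroup.of i)⁻¹ * g ∈ B ∧
        ((FreeGroup.of i)⁻¹ * g).norm < g.norm ∨ FreeGroup.of i * g ∈ B ∧
        (FreeGroup.of i * g).norm < g.norm)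
    (hrank : Nonempty (MulAction.stabilizer (FreeGroup (Fin n)) v ≃* FreeGroup (Fin 2)))
    (H : Subgroup (FreeGroup (Fin n)))
    (hH : H = Subgroup.closure {c | ∃ g ∈ B, ∃ h ∈ B, g • v = h • v ∧ c = h⁻¹ * g})
    (hna : ∃ a ∈ H, ∃ b ∈ H, a * b ≠ b * a) :
    H = MulAction.stabilizer (FreeGroup (Fin n)) v := by
  classical
  have hHle : H ≤ MulAction.stabilizer (FreeGroup (Fin n)) v := by
    rw [hH, Subgroup.closure_le]
    rintro c ⟨g, -, h, -, hgh, rfl⟩
    rw [SetLike.mem_coe, MulAction.mem_stabilizer_iff, mul_smul, hgh, inv_smul_smul]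
  -- representatives
  let rep : X → FreeGroup (Fin n) := fun x =>
    if x = v then 1 else if h : ∃ g ∈ B, g • v = x then h.choose else 1
  have hrepv : rep v = 1 := by simp [rep]
  have hrep : ∀ x, (∃ g ∈ B, g • v = x) → rep x ∈ B ∧ rep x • v = x := by
    intro x hx
    by_cases hxv : x = v
    · subst hxv
      rw [hrepv]
      exact ⟨h1, one_smul _ _⟩
    · have : rep x = hx.choose := by
        simp only [rep, if_neg hxv]
        exact dif_pos hx
      rw [this]
      exact hx.choose_spec
  have hgen : ∀ g ∈ B, ∀ h ∈ B, g • v = h • v → h⁻¹ * g ∈ H := by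
    intro g hg h hh he
    rw [hH]
    exact Subgroup.subset_closure ⟨g, hg, h, hh, he, rfl⟩
  have hedge : ∀ (i : Fin n) (x : X), (∃ g ∈ B, g • v = x ∧ FreeGroup.of i * g ∈ B) →
      (rep (FreeGroup.of i • x))⁻¹ * (FreeGroup.of i * rep x) ∈ H := by
    rintro i x ⟨g, hg, hgx, hig⟩
    have ha := hrep x ⟨g, hg, hgx⟩
    have hb := hrep (FreeGroup.of i • x) ⟨FreeGroup.of i * g, hig, by rw [mul_smul, hgx]⟩
    have e1 : (rep (FreeGroup.of i • x))⁻¹ * (FreeGroup.of i * g) ∈ H :=
      hgen _ hig _ hb.1 (by rw [mul_smul, hgx, hb.2])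
    have e2 : g⁻¹ * rep x ∈ H := hgen _ ha.1 _ hg (by rw [ha.2, hgx])
    have := H.mul_mem e1 e2
    have e3 : (rep (FreeGroup.of i • x))⁻¹ * (FreeGroup.of i * g) * (g⁻¹ * rep x) =
      (rep (FreeGroup.of i • x))⁻¹ * (FreeGroup.of i * rep x) := by group
    rwa [e3] at this
  -- cochain
  let f : Fin n → X → H := fun i x =>
    if h : ∃ g ∈ B, g • v = x ∧ FreeGroup.of i * g ∈ B then
      ⟨(rep (FreeGroup.of i • x))⁻¹ * (FreeGroup.of i * rep x), hedge i x h⟩ else 1
  have hf : ∀ i x, (∃ g ∈ B, g • v = x ∧ FreeGroup.of i * g ∈ B) →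
      ((f i x : H) : FreeGroup (Fin n)) =
        (rep (FreeGroup.of i • x))⁻¹ * (FreeGroup.of i * rep x) := by
    intro i x h
    simp only [f, dif_pos h]
  have hcoc : ∀ m : ℕ, ∀ g ∈ B, g.norm = m →
      ((coc f g v : H) : FreeGroup (Fin n)) = (rep (g • v))⁻¹ * g := by
    intro m
    induction m using Nat.strong_induction_on with
    | _ m ih =>
      intro g hg hm
      by_cases hg1 : g = 1
      · subst hg1
        rw [coc_one, one_smul, hrepv]
        simp
      obtain ⟨i, ⟨hmem, hlt⟩ | ⟨hmem, hlt⟩⟩ := hB g hg hg1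
      · set g' := (FreeGroup.of i)⁻¹ * g with hg'
        have hgg : g = FreeGroup.of i * g' := by rw [hg']; group
        have ih' := ih g'.norm (by omega) g' hmem rfl
        have hex : ∃ k ∈ B, k • v = g' • v ∧ FreeGroup.of i * k ∈ B :=
          ⟨g', hmem, rfl, by rw [← hgg]; exact hg⟩
        have hsm : FreeGroup.of i • g' • v = g • v := by rw [smul_smul, ← hgg]
        calc ((coc f g v : H) : FreeGroup (Fin n))
            = ((coc f (FreeGroup.of i * g') v : H) : FreeGroup (Fin n)) := by rw [← hgg]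
          _ = ((f i (g' • v) : H) : FreeGroup (Fin n)) * ((rep (g' • v))⁻¹ * g') := by
              rw [coc_mul, coc_of, Subgroup.coe_mul, ih']
          _ = (rep (g • v))⁻¹ * (FreeGroup.of i * rep (g' • v)) * ((rep (g' • v))⁻¹ * g') := by
              rw [hf i _ hex, hsm]
          _ = (rep (g • v))⁻¹ * (FreeGroup.of i * g') := by group
          _ = (rep (g • v))⁻¹ * g := by rw [← hgg]
      · set g' := FreeGroup.of i * g with hg'
        have ih' := ih g'.norm (by omega) g' hmem rfl
        have hex : ∃ k ∈ B, k • v = g • v ∧ FreeGroup.of i * k ∈ B := ⟨g, hg, rfl, hmem⟩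
        have hsm : FreeGroup.of i • g • v = g' • v := by rw [smul_smul]
        have e1 : ((coc f g' v : H) : FreeGroup (Fin n)) =
            ((f i (g • v) : H) : FreeGroup (Fin n)) * ((coc f g v : H) : FreeGroup (Fin n)) := by
          rw [hg', coc_mul, coc_of, Subgroup.coe_mul]
        rw [ih', hf i _ hex, hsm] at e1
        have e2 : ((coc f g v : H) : FreeGroup (Fin n)) =
            ((rep (g' • v))⁻¹ * (FreeGroup.of i * rep (g • v)))⁻¹ * ((rep (g' • v))⁻¹ * g') := by
          rw [e1]; group
        rw [e2, hg']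
        group
  -- the retraction
  let Λ : MulAction.stabilizer (FreeGroup (Fin n)) v →* H :=
    { toFun := fun c => coc f c.1 v
      map_one' := coc_one f v
      map_mul' := fun c d => by
        have hd : (d : FreeGroup (Fin n)) • v = v := d.2
        rw [Subgroup.coe_mul, coc_mul, hd] }
  have hΛH : ∀ c (hc : c ∈ H), ((Λ ⟨c, hHle hc⟩ : H) : FreeGroup (Fin n)) = c := by
    let K : Subgroup (FreeGroup (Fin n)) :=
      { carrier := {c | ∃ hc : c ∈ MulAction.stabilizer (FreeGroup (Fin n)) v,
          ((Λ ⟨c, hc⟩ : H) : FreeGroup (Fin n)) = c}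
        one_mem' := ⟨Subgroup.one_mem _, by
          have : Λ ⟨1, Subgroup.one_mem _⟩ = 1 := Λ.map_one
          rw [this]; rfl⟩
        mul_mem' := by
          rintro c d ⟨hc, hc'⟩ ⟨hd, hd'⟩
          refine ⟨Subgroup.mul_mem _ hc hd, ?_⟩
          have : Λ ⟨c * d, Subgroup.mul_mem _ hc hd⟩ = Λ ⟨c, hc⟩ * Λ ⟨d, hd⟩ :=
            Λ.map_mul ⟨c, hc⟩ ⟨d, hd⟩
          rw [this, Subgroup.coe_mul, hc', hd']
        inv_mem' := by
          rintro c ⟨hc, hc'⟩
          refine ⟨Subgroup.inv_mem _ hc, ?_⟩
          have : Λ ⟨c⁻¹, Subgroup.inv_mem _ hc⟩ = (Λ ⟨c, hc⟩)⁻¹ := Λ.map_inv ⟨c, hc⟩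
          rw [this, Subgroup.coe_inv, hc'] }
    have hHK : H ≤ K := by
      rw [hH, Subgroup.closure_le]
      rintro c ⟨g, hg, h, hh, hgh, rfl⟩
      have hst : h⁻¹ * g ∈ MulAction.stabilizer (FreeGroup (Fin n)) v := by
        rw [MulAction.mem_stabilizer_iff, mul_smul, hgh, inv_smul_smul]
      refine ⟨hst, ?_⟩
      have e1 : Λ ⟨h⁻¹ * g, hst⟩ = coc f (h⁻¹ * g) v := rfl
      have e2 : coc f (h⁻¹ * g) v = (coc f h v)⁻¹ * coc f g v := by
        rw [coc_mul, hgh, coc_inv]
      rw [e1, e2, Subgroup.coe_mul, Subgroup.coe_inv, hcoc _ g hg rfl, hcoc _ h hh rfl, hgh]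
      group
    intro c hc
    obtain ⟨h, h'⟩ := hHK hc
    exact h'
  have hΛsurj : Function.Surjective Λ := by
    rintro ⟨c, hc⟩
    exact ⟨⟨c, hHle hc⟩, Subtype.ext (hΛH c hc)⟩
  -- `H` is free
  obtain ⟨e⟩ := hrank
  let b := IsFreeGroup.toFreeGroup H
  let ψ : FreeGroup (Fin 2) →* FreeGroup (IsFreeGroup.Generators H) :=
    (b.toMonoidHom.comp Λ).comp e.symm.toMonoidHom
  have hψ : Function.Surjective ψ := by
    intro y
    obtain ⟨x, hx⟩ := hΛsurj (b.symm y)
    refine ⟨e x, ?_⟩
    simp [ψ, hx]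
  obtain ⟨s, t, hst⟩ : ∃ s t : IsFreeGroup.Generators H, s ≠ t := by
    by_contra hcon
    push Not at hcon
    have hsub : Subsingleton (IsFreeGroup.Generators H) := ⟨hcon⟩
    obtain ⟨x, hx, y, hy, hxy⟩ := hna
    apply hxy
    have hcomm : ∀ p q : FreeGroup (IsFreeGroup.Generators H), p * q = q * p := by
      intro p
      induction p using FreeGroup.induction_on with
      | C1 => intro q; simp
      | of i =>
        intro q
        induction q using FreeGroup.induction_on with
        | C1 => simp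
        | of j => rw [hcon i j]
        | inv_of j _ => rw [hcon i j]; simp
        | mul p q hp hq => rw [← mul_assoc, hp, mul_assoc, hq, mul_assoc]
      | inv_of i hi =>
        intro q
        have := hi q
        calc (FreeGroup.of i)⁻¹ * q
            = (FreeGroup.of i)⁻¹ * (q * FreeGroup.of i) * (FreeGroup.of i)⁻¹ := by group
          _ = (FreeGroup.of i)⁻¹ * (FreeGroup.of i * q) * (FreeGroup.of i)⁻¹ := by
              rw [← this]
          _ = q * (FreeGroup.of i)⁻¹ := by group
      | mul p p' hp hp' =>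
        intro q
        rw [mul_assoc, hp', ← mul_assoc, hp, mul_assoc]
    have h3 := hcomm (b ⟨x, hx⟩) (b ⟨y, hy⟩)
    rw [← map_mul, ← map_mul] at h3
    have h4 := b.injective h3
    exact congrArg Subtype.val h4
  have hinj := injective_of_surjective_two ψ hψ hst
  have hΛinj : Function.Injective Λ := by
    intro x y hxy
    have : ψ (e x) = ψ (e y) := by simp [ψ, hxy]
    exact e.injective (hinj this)
  apply le_antisymm hHle
  intro c hc
  have h5 : Λ ⟨((Λ ⟨c, hc⟩ : H) : FreeGroup (Fin n)), hHle (Λ ⟨c, hc⟩).2⟩ = Λ ⟨c, hc⟩ :=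
    Subtype.ext (hΛH _ (Λ ⟨c, hc⟩).2)
  have h6 := hΛinj h5
  have h7 : ((Λ ⟨c, hc⟩ : H) : FreeGroup (Fin n)) = c := congrArg Subtype.val h6
  rw [← h7]
  exact (Λ ⟨c, hc⟩).2

end Pool.Agent.Helper8.Window
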